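import Mathlib

/-!
# The height of a product of linear polynomials
-/

set_option autoImplicit false

namespace Pool.Agent.H431.PN

open Height Polynomial Height.AdmissibleAbsValues

/-- comparison of the heights of two vectors -/
theorem cmp {K : Type} [Field K] [AdmissibleAbsValues K] {ι ι' : Type} [Finite ι] [Finite ι']
    (u : ι → K) (w : ι' → K) (hu : u ≠ 0) (hw : w ≠ 0) (κ : ℝ) (hκ : 0 ≤ κ)
    (ha : ∀ v : AbsoluteValue K ℝ, v ∈ archAbsVal → ∀ i, v (u i) ≤ κ * ⨆ j, v (w j))
    (hn : ∀ v : AbsoluteValue K ℝ, v ∈ nonarchAbsVal → ∀ i, v (u i) ≤ ⨆ j, v (w j)) :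
    mulHeight u ≤ κ ^ totalWeight K * mulHeight w := by
  have : Nonempty ι := (Function.ne_iff.mp hu).nonempty
  have : Nonempty ι' := (Function.ne_iff.mp hw).nonempty
  rw [mulHeight_eq hu, mulHeight_eq hw, ← mul_assoc]
  gcongr
  · exact finprod_nonneg fun v ↦ Real.iSup_nonneg_of_nonnegHomClass v.val _
  · refine mul_nonneg (by positivity) ?_
    exact Multiset.prod_map_nonneg fun v _ ↦ Real.iSup_nonneg_of_nonnegHomClass v _
  · rw [← Multiset.prod_replicate, totalWeight, ← Multiset.map_const', ← Multiset.prod_map_mul]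
    refine Multiset.prod_map_le_prod_map₀ _ _
      (fun v _ ↦ Real.iSup_nonneg_of_nonnegHomClass v _) fun v hv ↦ ?_
    exact ciSup_le fun i => ha v hv i
  · refine finprod_le_finprod (by fun_prop)
      (fun v ↦ Real.iSup_nonneg_of_nonnegHomClass v.val _) (by fun_prop) fun v ↦ ?_
    exact ciSup_le fun i => hn v.val v.2 i

variable {K : Type} [Field K]

theorem loc_arch (v : AbsoluteValue K ℝ) (F : K[X]) (t : K) (k : ℕ) (hF : F.natDegree ≤ k) (B : ℝ)
    (hB : ∀ j, v (((X + C t) * F).coeff j) ≤ B) (j : ℕ) :
    v (F.coeff j) ≤ (k + 1) * B ∧ v (t * F.coeff j) ≤ (k + 1) * B := by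
  have hB0 : 0 ≤ B := (v.nonneg _).trans (hB 0)
  have g0 : ((X + C t) * F).coeff 0 = t * F.coeff 0 := by
    rw [add_mul, coeff_add, coeff_C_mul, mul_coeff_zero, coeff_X_zero, zero_mul, zero_add]
  have gs : ∀ i, ((X + C t) * F).coeff (i + 1) = F.coeff i + t * F.coeff (i + 1) := by
    intro i
    rw [add_mul, coeff_add, coeff_C_mul, coeff_X_mul]
  rcases le_total (v t) 1 with ht | ht
  · have key : ∀ i j, j + i = k → v (F.coeff j) ≤ (i + 1) * B := by
      intro i
      induction i with
      | zero =>
        intro j hj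
        have h1 : F.coeff (j + 1) = 0 := coeff_eq_zero_of_natDegree_lt (by omega)
        have h2 := hB (j + 1)
        rw [gs, h1, mul_zero, add_zero] at h2
        push_cast
        linarith
      | succ i ih =>
        intro j hj
        have h1 := ih (j + 1) (by omega)
        have h2 := hB (j + 1)
        rw [gs] at h2
        have h3 : F.coeff j = (F.coeff j + t * F.coeff (j + 1)) - t * F.coeff (j + 1) := by ring
        have h4 := v.sub_le_add (F.coeff j + t * F.coeff (j + 1)) (t * F.coeff (j + 1))
        rw [← h3] at h4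
        have h5 : v (t * F.coeff (j + 1)) ≤ v (F.coeff (j + 1)) := by
          rw [map_mul]
          exact mul_le_of_le_one_left (v.nonneg _) ht
        push_cast
        linarith
    have h1 : v (F.coeff j) ≤ (k + 1) * B := by
      rcases Nat.lt_or_ge k j with h | h
      · rw [coeff_eq_zero_of_natDegree_lt (by omega), map_zero]
        positivity
      · refine (key (k - j) j (by omega)).trans ?_
        have : ((k - j : ℕ) : ℝ) ≤ k := by exact_mod_cast Nat.sub_le k j
        nlinarith
    refine ⟨h1, ?_⟩
    rw [map_mul]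
    exact (mul_le_of_le_one_left (v.nonneg _) ht).trans h1
  · have key : ∀ j, v (t * F.coeff j) ≤ (j + 1) * B := by
      intro j
      induction j with
      | zero =>
        have h2 := hB 0
        rw [g0] at h2
        push_cast
        linarith
      | succ j ih =>
        have h2 := hB (j + 1)
        rw [gs] at h2
        have h3 : t * F.coeff (j + 1) = (F.coeff j + t * F.coeff (j + 1)) - F.coeff j := by ring
        have h4 := v.sub_le_add (F.coeff j + t * F.coeff (j + 1)) (F.coeff j)
        rw [← h3] at h4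
        have h5 : v (F.coeff j) ≤ v (t * F.coeff j) := by
          rw [map_mul]
          exact le_mul_of_one_le_left (v.nonneg _) ht
        push_cast
        linarith
    have h1 : v (t * F.coeff j) ≤ (k + 1) * B := by
      rcases Nat.lt_or_ge k j with h | h
      · rw [coeff_eq_zero_of_natDegree_lt (by omega), mul_zero, map_zero]
        positivity
      · refine (key j).trans ?_
        have : (j : ℝ) ≤ k := by exact_mod_cast h
        nlinarith
    refine ⟨?_, h1⟩
    refine le_trans ?_ h1
    rw [map_mul]
    exact le_mul_of_one_le_left (v.nonneg _) ht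

theorem loc_non (v : AbsoluteValue K ℝ) (hv : IsNonarchimedean v) (F : K[X]) (t : K) (k : ℕ)
    (hF : F.natDegree ≤ k) (B : ℝ) (hB : ∀ j, v (((X + C t) * F).coeff j) ≤ B) (j : ℕ) :
    v (F.coeff j) ≤ B ∧ v (t * F.coeff j) ≤ B := by
  have hB0 : 0 ≤ B := (v.nonneg _).trans (hB 0)
  have hsub : ∀ x y : K, v x ≤ B → v y ≤ B → v (x - y) ≤ B := by
    intro x y hx hy
    rw [sub_eq_add_neg]
    refine (hv x (-y)).trans (max_le hx ?_)
    rwa [v.map_neg]
  have g0 : ((X + C t) * F).coeff 0 = t * F.coeff 0 := by
    rw [add_mul, coeff_add, coeff_C_mul, mul_coeff_zero, coeff_X_zero, zero_mul, zero_add]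
  have gs : ∀ i, ((X + C t) * F).coeff (i + 1) = F.coeff i + t * F.coeff (i + 1) := by
    intro i
    rw [add_mul, coeff_add, coeff_C_mul, coeff_X_mul]
  rcases le_total (v t) 1 with ht | ht
  · have key : ∀ i j, j + i = k → v (F.coeff j) ≤ B := by
      intro i
      induction i with
      | zero =>
        intro j hj
        have h1 : F.coeff (j + 1) = 0 := coeff_eq_zero_of_natDegree_lt (by omega)
        have h2 := hB (j + 1)
        rwa [gs, h1, mul_zero, add_zero] at h2
      | succ i ih =>
        intro j hj
        have h1 := ih (j + 1) (by omega)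
        have h2 := hB (j + 1)
        rw [gs] at h2
        have h3 : F.coeff j = (F.coeff j + t * F.coeff (j + 1)) - t * F.coeff (j + 1) := by ring
        have h5 : v (t * F.coeff (j + 1)) ≤ B := by
          rw [map_mul]
          exact (mul_le_of_le_one_left (v.nonneg _) ht).trans h1
        rw [h3]
        exact hsub _ _ h2 h5
    have h1 : v (F.coeff j) ≤ B := by
      rcases Nat.lt_or_ge k j with h | h
      · rw [coeff_eq_zero_of_natDegree_lt (by omega), map_zero]
        exact hB0
      · exact key (k - j) j (by omega)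
    refine ⟨h1, ?_⟩
    rw [map_mul]
    exact (mul_le_of_le_one_left (v.nonneg _) ht).trans h1
  · have key : ∀ j, v (t * F.coeff j) ≤ B := by
      intro j
      induction j with
      | zero =>
        have h2 := hB 0
        rwa [g0] at h2
      | succ j ih =>
        have h2 := hB (j + 1)
        rw [gs] at h2
        have h3 : t * F.coeff (j + 1) = (F.coeff j + t * F.coeff (j + 1)) - F.coeff j := by ring
        have h5 : v (F.coeff j) ≤ B := by
          refine le_trans ?_ ih
          rw [map_mul]
          exact le_mul_of_one_le_left (v.nonneg _) ht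
        rw [h3]
        exact hsub _ _ h2 h5
    refine ⟨?_, key j⟩
    refine le_trans ?_ (key j)
    rw [map_mul]
    exact le_mul_of_one_le_left (v.nonneg _) ht

/-- the coefficients of `∏ (X + t i)` -/
noncomputable def cf {n : ℕ} (t : Fin n → K) : Fin (n + 1) → K :=
  fun j => (∏ i, (X + C (t i))).coeff j

theorem cf_last {n : ℕ} (t : Fin n → K) : cf t (Fin.last n) = 1 := by
  have hm : (∏ i, (X + C (t i))).Monic := monic_prod_of_monic _ _ fun i _ => monic_X_add_C _
  have hd : (∏ i, (X + C (t i))).natDegree = n := by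
    rw [natDegree_prod_of_monic _ _ fun i _ => monic_X_add_C _]
    simp
  unfold cf
  rw [Fin.val_last]
  have := hm.coeff_natDegree
  rwa [hd] at this

theorem natDegree_prod_le {n : ℕ} (t : Fin n → K) : (∏ i, (X + C (t i))).natDegree ≤ n := by
  rw [natDegree_prod_of_monic _ _ fun i _ => monic_X_add_C _]
  simp

theorem cf_ne {n : ℕ} (t : Fin n → K) : cf t ≠ 0 := by
  intro h
  have := congrFun h (Fin.last n)
  rw [cf_last] at this
  exact one_ne_zero this

variable [AdmissibleAbsValues K]

theorem ht_step {n : ℕ} (t : Fin (n + 1) → K) :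
    mulHeight₁ (t 0) * mulHeight (cf (fun i : Fin n => t i.succ)) ≤
      ((n : ℝ) + 1) ^ totalWeight K * mulHeight (cf t) := by
  have h0 : (![t 0, 1] : Fin 2 → K) ≠ 0 := by
    intro h
    have := congrFun h 1
    simp at this
  rw [mulHeight₁_eq_mulHeight, ← mulHeight_fun_mul_eq h0 (cf_ne _)]
  have hprod : (∏ i, (X + C (t i))) = (X + C (t 0)) * ∏ i : Fin n, (X + C (t i.succ)) := by
    rw [Fin.prod_univ_succ]
  have hsup : ∀ (v : AbsoluteValue K ℝ) (j : ℕ),
      v (((X + C (t 0)) * ∏ i : Fin n, (X + C (t i.succ))).coeff j) ≤ ⨆ j, v (cf t j) := by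
    intro v j
    rw [← hprod]
    rcases Nat.lt_or_ge j (n + 2) with h | h
    · exact Finite.le_ciSup_of_le (⟨j, h⟩ : Fin (n + 2)) le_rfl
    · rw [coeff_eq_zero_of_natDegree_lt (lt_of_le_of_lt (natDegree_prod_le t) (by omega)), map_zero]
      exact Real.iSup_nonneg_of_nonnegHomClass v _
  refine cmp _ _ ?_ (cf_ne t) _ (by positivity) ?_ ?_
  · intro h
    have := congrFun h (1, Fin.last n)
    simp only [Matrix.cons_val_one, Matrix.cons_val_fin_one, cf_last] at this
    simp at this
  · rintro v - ⟨a, b⟩
    obtain ⟨h1, h2⟩ := loc_arch v _ (t 0) n (natDegree_prod_le fun i : Fin n => t i.succ) _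
      (hsup v) b
    fin_cases a
    · exact h2
    · simpa [cf] using h1
  · rintro v hv ⟨a, b⟩
    obtain ⟨h1, h2⟩ := loc_non v (isNonarchimedean v hv) _ (t 0) n
      (natDegree_prod_le fun i : Fin n => t i.succ) _ (hsup v) b
    fin_cases a
    · exact h2
    · simpa [cf] using h1

/-- the constant of the comparison -/
noncomputable def cst (n : ℕ) : ℝ := ∑ i ∈ Finset.range n, Real.log ((i : ℝ) + 1)

theorem ht_prod {n : ℕ} (t : Fin n → K) :
    ∑ i, logHeight₁ (t i) ≤ logHeight (cf t) + totalWeight K * cst n := by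
  induction n with
  | zero =>
    simp only [Finset.univ_eq_empty, Finset.sum_empty, cst, Finset.range_zero, mul_zero, add_zero]
    exact logHeight_nonneg _
  | succ n ih =>
    have h1 := ih (fun i : Fin n => t i.succ)
    have h2 := Real.log_le_log (mul_pos (mulHeight₁_pos _) (mulHeight_pos _)) (ht_step t)
    rw [Real.log_mul (mulHeight₁_pos _).ne' (mulHeight_pos _).ne',
      Real.log_mul (by positivity) (mulHeight_pos _).ne', Real.log_pow] at h2
    rw [Fin.sum_univ_succ]
    unfold cst at h1 ⊢
    rw [Finset.sum_range_succ]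
    unfold logHeight₁ logHeight at h1 ⊢
    linarith

end Pool.Agent.H431.PN
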