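import Pool.Agent.H431.PN.TwoFin

/-!
# The sum of the local heights
-/

set_option autoImplicit false

namespace Pool.Agent.H431.PN

open NumberField IsDedekindDomain Height Pool.Agent.Q290.NF Height.AdmissibleAbsValues
open Pool.Agent.H431.OC Pool.Agent.H431.MT

/-- the local height of the sum of the hyperplanes `x_j = 0` and `∑ x_j = 0` -/
noncomputable def lam {L : Type} [Field L] {n : ℕ} (v : AbsoluteValue L ℝ)
    (P : Fin (n + 1) → L) : ℝ :=
  ∑ j, (Real.log (⨆ k, v (P k)) - Real.log (v (P j))) +
    (Real.log (⨆ k, v (P k)) - Real.log (v (∑ j, P j)))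

theorem lam_eq {L : Type} [Field L] {n : ℕ} (v : AbsoluteValue L ℝ) (P : Fin (n + 1) → L)
    (h0 : ∀ j, P j ≠ 0) (hs : ∑ j, P j ≠ 0) :
    lam v P = (n + 2) * Real.log (⨆ k, v (P k)) - Real.log (v ((∏ j, P j) * ∑ j, P j)) := by
  unfold lam
  rw [map_mul, map_prod, Real.log_mul (Finset.prod_ne_zero_iff.2 fun j _ => (v.pos (h0 j)).ne')
    (v.pos hs).ne', Real.log_prod (fun j _ => (v.pos (h0 j)).ne'), Finset.sum_sub_distrib,
    Finset.sum_const, Finset.card_univ, Fintype.card_fin, nsmul_eq_mul]
  push_cast
  ring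

theorem lam_total {L : Type} [Field L] [NumberField L] {n : ℕ} (P : Fin (n + 1) → L)
    (h0 : ∀ j, P j ≠ 0) (hs : ∑ j, P j ≠ 0) :
    (Function.support fun w : FinitePlace L => lam w.val P).Finite ∧
    ∑ v : InfinitePlace L, v.mult * lam v.val P + ∑ᶠ w : FinitePlace L, lam w.val P =
      (n + 2) * logHeight P := by
  have hP : P ≠ 0 := by
    intro h
    exact h0 0 (congrFun h 0)
  obtain ⟨z, hz⟩ : ∃ z, z = (∏ j, P j) * ∑ j, P j := ⟨_, rfl⟩
  have hz0 : z ≠ 0 := by
    rw [hz]
    exact mul_ne_zero (Finset.prod_ne_zero_iff.2 fun j _ => h0 j) hs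
  have e : ∀ v : AbsoluteValue L ℝ, lam v P = (n + 2) * Real.log (⨆ k, v (P k)) -
      Real.log (v z) := by
    intro v
    rw [hz]
    exact lam_eq v P h0 hs
  have s1 : (Function.support fun w : FinitePlace L => Real.log (⨆ k, w.val (P k))).Finite := by
    have h1 : (fun v : nonarchAbsVal (K := L) ↦ ⨆ i, v.val (P i)).HasFiniteMulSupport := by
      fun_prop
    have h2 : (Function.mulSupport fun w : FinitePlace L => ⨆ k, w.val (P k)).Finite := h1
    refine h2.subset fun w hw => ?_
    rw [Function.mem_support] at hw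
    rw [Function.mem_mulSupport]
    intro h
    rw [h, Real.log_one] at hw
    exact hw rfl
  have s2 : (Function.support fun w : FinitePlace L => Real.log (w.val z)).Finite := by
    have h2 : (Function.mulSupport fun w : FinitePlace L => w.val z).Finite :=
      FinitePlace.hasFiniteMulSupport hz0
    refine h2.subset fun w hw => ?_
    rw [Function.mem_support] at hw
    rw [Function.mem_mulSupport]
    intro h
    rw [h, Real.log_one] at hw
    exact hw rfl
  have s3 : (Function.support fun w : FinitePlace L =>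
      ((n : ℝ) + 2) * Real.log (⨆ k, w.val (P k))).Finite := by
    refine s1.subset fun w hw => ?_
    rw [Function.mem_support] at hw ⊢
    exact right_ne_zero_of_mul hw
  have e1 : (fun w : FinitePlace L => lam w.val P) = fun w =>
      ((n : ℝ) + 2) * Real.log (⨆ k, w.val (P k)) - Real.log (w.val z) := by
    funext w
    exact e _
  constructor
  · rw [e1]
    refine (s3.union s2).subset fun w hw => ?_
    by_contra hc
    rw [Set.mem_union, not_or, Function.mem_support, Function.mem_support, not_not, not_not] at hc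
    apply hw
    show ((n : ℝ) + 2) * Real.log (⨆ k, w.val (P k)) - Real.log (w.val z) = 0
    rw [hc.1, hc.2, sub_zero]
  · have h1 := logHeight_sum P hP
    have h2 := prod_sum hz0
    have h3 : ∑ᶠ w : FinitePlace L, lam w.val P = (n + 2) * (∑ᶠ w : FinitePlace L,
        Real.log (⨆ k, w.val (P k))) - ∑ᶠ w : FinitePlace L, Real.log (w.val z) := by
      have e4 := mul_finsum (fun w : FinitePlace L => Real.log (⨆ k, w.val (P k)))
        ((n : ℝ) + 2)
      rw [e1, finsum_sub_distrib s3 s2, e4]
    have h4 : ∑ v : InfinitePlace L, v.mult * lam v.val P = (n + 2) *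
        (∑ v : InfinitePlace L, v.mult * Real.log (⨆ k, v.val (P k))) -
        ∑ v : InfinitePlace L, v.mult * Real.log (v.val z) := by
      rw [Finset.mul_sum, ← Finset.sum_sub_distrib]
      refine Finset.sum_congr rfl fun v _ => ?_
      rw [e]
      ring
    rw [h3, h4, h1]
    linarith

/-- the local height at the primes where all coordinates are integral and their sum is one -/
theorem lam_fin {L : Type} [Field L] [NumberField L] {n : ℕ} (P : Fin (n + 1) → L)
    (h0 : ∀ j, P j ≠ 0) (hs : ∑ j, P j = 1) (w : FinitePlace L)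
    (h : ∀ j, 0 ≤ ord w.maximalIdeal (P j)) :
    lam w.val P = (∑ j, (ord w.maximalIdeal (P j) : ℝ)) * ell w.maximalIdeal := by
  have hw : FinitePlace.mk w.maximalIdeal = w := FinitePlace.mk_maximalIdeal w
  have e1 : ∀ x : L, x ≠ 0 → Real.log (w.val x) = -(ord w.maximalIdeal x : ℝ) *
      ell w.maximalIdeal := by
    intro x hx
    have := log_mk w.maximalIdeal hx
    rw [hw] at this
    exact this
  have hna : IsNonarchimedean w.val := fun a b => FinitePlace.add_le w a b
  have e2 : ∀ j, w.val (P j) ≤ 1 := by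
    intro j
    have h1 := e1 (P j) (h0 j)
    have h2 : 0 < w.val (P j) := w.val.pos (h0 j)
    have h3 : Real.log (w.val (P j)) ≤ 0 := by
      rw [h1]
      have h4 := ell_pos w.maximalIdeal
      have h5 : (0 : ℝ) ≤ ord w.maximalIdeal (P j) := by exact_mod_cast h j
      nlinarith
    exact (Real.log_nonpos_iff h2.le).1 h3
  have e3 : (⨆ k, w.val (P k)) = 1 := by
    refine le_antisymm (ciSup_le e2) ?_
    obtain ⟨k, hk⟩ := Finite.exists_max fun i => w.val (P i)
    have h1 : w.val (∑ j, P j) ≤ w.val (P k) := by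
      exact (IsNonarchimedean.apply_sum_univ_le (l := P) hna).trans (ciSup_le hk)
    rw [hs, map_one] at h1
    exact h1.trans (Finite.le_ciSup (fun i => w.val (P i)) k)
  unfold lam
  rw [e3, hs, map_one, Real.log_one, sub_zero, add_zero, Finset.sum_mul]
  refine Finset.sum_congr rfl fun j _ => ?_
  rw [e1 _ (h0 j)]
  ring

end Pool.Agent.H431.PN
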