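import Pool.Agent.H431.PN.Comp

/-!
# Forms on the covers `y_j ^ m = ℓ_j(x)`
-/

set_option autoImplicit false

namespace Pool.Agent.H431.PN

open MvPolynomial

section red

variable {q : ℕ} (m : ℕ) (G : MvPolynomial (Fin q) ℂ)

/-- the quotients of the exponents by `m` -/
noncomputable def dv (α : Fin q →₀ ℕ) : Fin q →₀ ℕ := α.mapRange (fun x => x / m) (Nat.zero_div m)

/-- the exponents modulo `m` -/
noncomputable def md (α : Fin q →₀ ℕ) : Fin q →₀ ℕ := α.mapRange (fun x => x % m) (Nat.zero_mod m)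

theorem dv_apply (α : Fin q →₀ ℕ) (i : Fin q) : dv m α i = α i / m := rfl

theorem md_apply (α : Fin q →₀ ℕ) (i : Fin q) : md m α i = α i % m := rfl

open Classical in
/-- the isotypic parts -/
noncomputable def hx (χ : Fin q →₀ ℕ) : MvPolynomial (Fin q) ℂ :=
  ∑ α ∈ G.support with md m α = χ, monomial (dv m α) (G.coeff α)

/-- the reduction at the point `v` -/
noncomputable def rd (v : Fin q → ℂ) : MvPolynomial (Fin q) ℂ :=
  ∑ α ∈ G.support, monomial (md m α) (G.coeff α * ∏ i, v i ^ (dv m α i))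

theorem eval_mono (v : Fin q → ℂ) (α : Fin q →₀ ℕ) (c : ℂ) :
    eval v (monomial α c) = c * ∏ i, v i ^ α i := by
  rw [eval_monomial, Finsupp.prod_fintype]
  intro i
  exact pow_zero _

theorem coeff_rd (v : Fin q → ℂ) (χ : Fin q →₀ ℕ) :
    (rd m G v).coeff χ = eval v (hx m G χ) := by
  classical
  unfold rd hx
  rw [coeff_sum, map_sum, Finset.sum_filter]
  refine Finset.sum_congr rfl fun α _ => ?_
  rw [coeff_monomial, eval_mono]

theorem eval_rd (v z : Fin q → ℂ) (h : ∀ i, z i ^ m = v i) : eval z (rd m G v) = eval z G := by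
  classical
  unfold rd
  rw [map_sum, eval_eq']
  refine Finset.sum_congr rfl fun α _ => ?_
  rw [eval_mono, mul_assoc, ← Finset.prod_mul_distrib]
  congr 1
  refine Finset.prod_congr rfl fun i _ => ?_
  rw [← h i, ← pow_mul, ← pow_add, dv_apply, md_apply, Nat.div_add_mod]

theorem degreeOf_rd (hm : 0 < m) (v : Fin q → ℂ) (i : Fin q) : (rd m G v).degreeOf i < m := by
  classical
  rw [degreeOf_lt_iff hm]
  intro χ hχ
  rw [mem_support_iff] at hχ
  unfold rd at hχ
  rw [coeff_sum] at hχ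
  obtain ⟨α, _, hα⟩ := Finset.exists_ne_zero_of_sum_ne_zero hχ
  rw [coeff_monomial] at hα
  have h1 : md m α = χ := by
    by_contra h
    exact hα (if_neg h)
  rw [← h1, md_apply]
  exact Nat.mod_lt _ hm

/-- the choice of the roots -/
theorem exists_root (hm : 0 < m) (v : Fin q → ℂ) (hv : ∀ i, v i ≠ 0) (χ : Fin q →₀ ℕ)
    (hχ : eval v (hx m G χ) ≠ 0) : ∃ z : Fin q → ℂ, (∀ i, z i ^ m = v i) ∧ eval z G ≠ 0 := by
  classical
  by_contra hc
  have hc' : ∀ z : Fin q → ℂ, (∀ i, z i ^ m = v i) → eval z G = 0 := by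
    intro z hz
    by_contra h
    exact hc ⟨z, hz, h⟩
  have hprim := Complex.isPrimitiveRoot_exp m hm.ne'
  have h1 := eq_zero_of_eval_zero_at_prod_finset (rd m G v)
    (fun i => (Polynomial.nthRoots m (v i)).toFinset) (by
      intro i
      have h2 : (Polynomial.nthRoots m (v i)).toFinset.card = m := by
        rw [Multiset.toFinset_card_of_nodup (hprim.nthRoots_nodup (hv i)), hprim.card_nthRoots,
          if_pos]
        obtain ⟨z, hz⟩ := IsAlgClosed.exists_pow_nat_eq (v i) hm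
        exact ⟨z, hz⟩
      rw [h2]
      exact degreeOf_rd m G hm v i) (by
      intro z hz
      have h2 : ∀ i, z i ^ m = v i := by
        intro i
        have h3 := hz i
        rw [Multiset.mem_toFinset, Polynomial.mem_nthRoots hm] at h3
        exact h3
      rw [eval_rd m G v z h2]
      exact hc' z h2)
  rw [← coeff_rd, h1, coeff_zero] at hχ
  exact hχ rfl

theorem hx_hom {d : ℕ} (hG : G.IsHomogeneous d) (hm : 0 < m) (χ : Fin q →₀ ℕ) :
    ∃ e ≤ d / m, (hx m G χ).IsHomogeneous e := by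
  classical
  have key : ∀ α ∈ G.support, m * (∑ i, dv m α i) + ∑ i, md m α i = d := by
    intro α hα
    have h1 := sum_eq hG hα
    have h2 : ∑ i, α i = d := by
      rw [← h1]
      exact (Finset.sum_subset (Finset.subset_univ _) fun i _ hi =>
        Finsupp.notMem_support_iff.1 hi).symm
    rw [← h2, Finset.mul_sum, ← Finset.sum_add_distrib]
    refine Finset.sum_congr rfl fun i _ => ?_
    rw [dv_apply, md_apply, Nat.div_add_mod]
  by_cases hne : ∃ α ∈ G.support, md m α = χ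
  · obtain ⟨α0, hα0, h0⟩ := hne
    have k0 := key α0 hα0
    refine ⟨∑ i, dv m α0 i, ?_, ?_⟩
    · rw [Nat.le_div_iff_mul_le hm, mul_comm]
      omega
    · unfold hx
      refine IsHomogeneous.sum _ _ _ fun α hα => ?_
      rw [Finset.mem_filter] at hα
      have k1 := key α hα.1
      have h1 : m * (∑ i, dv m α i) = m * ∑ i, dv m α0 i := by
        rw [hα.2] at k1
        rw [h0] at k0
        omega
      refine isHomogeneous_monomial _ ?_
      rw [Finsupp.degree_eq_sum]
      exact Nat.eq_of_mul_eq_mul_left hm h1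
  · refine ⟨0, Nat.zero_le _, ?_⟩
    have h1 : hx m G χ = 0 := by
      unfold hx
      rw [Finset.filter_eq_empty_iff.2 fun α hα h => hne ⟨α, hα, h⟩, Finset.sum_empty]
    rw [h1]
    exact isHomogeneous_zero _ _ _

end red

/-- **forms on the covers** -/
theorem cov_poly {n q m d : ℕ} (hm : 0 < m) (G : MvPolynomial (Fin q) ℂ) (hd : G.IsHomogeneous d)
    (A : Fin q → Fin (n + 1) → ℂ) (x0 : Fin (n + 1) → ℂ) (y0 : Fin q → ℂ)
    (h0 : ∀ j, y0 j ^ m = ∑ k, A j k * x0 k) (hG : eval y0 G ≠ 0) :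
    ∃ e ≤ d / m, ∃ F : MvPolynomial (Fin (n + 1)) ℂ, F ≠ 0 ∧ F.IsHomogeneous e ∧
      ∀ x : Fin (n + 1) → ℂ, eval x F ≠ 0 → (∀ j, ∑ k, A j k * x k ≠ 0) →
        ∃ z : Fin q → ℂ, (∀ j, z j ^ m = ∑ k, A j k * x k) ∧ eval z G ≠ 0 := by
  classical
  obtain ⟨v0, hv0⟩ : ∃ v0 : Fin q → ℂ, v0 = fun j => y0 j ^ m := ⟨_, rfl⟩
  have h1 : rd m G v0 ≠ 0 := by
    intro h
    have h2 := eval_rd m G v0 y0 (fun i => by rw [hv0])
    rw [h, map_zero] at h2
    exact hG h2.symm
  obtain ⟨χ, hχ⟩ := ne_zero_iff.1 h1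
  rw [coeff_rd] at hχ
  obtain ⟨e, he, hhom⟩ := hx_hom m G hd hm χ
  obtain ⟨l, hl⟩ : ∃ l : Fin q → MvPolynomial (Fin (n + 1)) ℂ,
    l = fun j => ∑ k, C (A j k) * X k := ⟨_, rfl⟩
  have hlh : ∀ j, (l j).IsHomogeneous 1 := by
    intro j
    rw [hl]
    refine IsHomogeneous.sum _ _ _ fun k _ => ?_
    exact isHomogeneous_C_mul_X _ _
  have hle : ∀ (x : Fin (n + 1) → ℂ) (j : Fin q), eval x (l j) = ∑ k, A j k * x k := by
    intro x j
    rw [hl]
    simp
  have hev : ∀ x : Fin (n + 1) → ℂ, eval x (aeval l (hx m G χ)) =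
      eval (fun j => ∑ k, A j k * x k) (hx m G χ) := by
    intro x
    have h2 := eval₂Hom_bind₁ (RingHom.id ℂ) x l (hx m G χ)
    have h3 : (fun j => eval₂Hom (RingHom.id ℂ) x (l j)) = fun j => ∑ k, A j k * x k :=
      funext (hle x)
    rw [h3] at h2
    exact h2
  refine ⟨e, he, aeval l (hx m G χ), ?_, ?_, ?_⟩
  · intro h
    have h2 := hev x0
    rw [h, map_zero] at h2
    apply hχ
    have h3 : v0 = fun j => ∑ k, A j k * x0 k := by
      rw [hv0]
      funext j
      exact h0 j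
    rw [h2, h3]
  · have := hhom.aeval l hlh
    rwa [one_mul] at this
  · intro x hxe hxn
    rw [hev] at hxe
    exact exists_root m G hm _ hxn χ hxe

end Pool.Agent.H431.PN
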