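import Pool.Agent.H431.PN.Fin
import Pool.Agent.H431.PN.Cov

/-!
# Points of bounded degree on the covers `y_j ^ m = ℓ_j(x)` of projective spaces
-/

set_option autoImplicit false

namespace Pool.Agent.H431.PN

open NumberField IsDedekindDomain Height Pool.Agent.Q290.NF IntermediateField
open Pool.Agent.H431.OC Pool.Agent.H431.MT

/-- a left inverse -/
theorem left_inv {K : Type} [Field K] {n q : ℕ} (a : Fin q → Fin (n + 1) → K)
    (f : Fin (n + 1) → Fin q) (hf : LinearIndependent K (fun i => a (f i))) :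
    ∃ D : Fin (n + 1) × Fin q → K, ∀ (M : Type) [Field M] [Algebra K M] (P : Fin (n + 1) → M)
      (k : Fin (n + 1)), ∑ j, algebraMap K M (D (k, j)) *
        (∑ l, algebraMap K M (a j l) * P l) = P k := by
  classical
  obtain ⟨A, hA⟩ : ∃ A : Matrix (Fin (n + 1)) (Fin (n + 1)) K, A = fun i => a (f i) := ⟨_, rfl⟩
  have hu : IsUnit A := by
    rw [← Matrix.linearIndependent_rows_iff_isUnit, hA]
    exact hf
  have hdet : IsUnit A.det := (Matrix.isUnit_iff_isUnit_det A).1 hu
  obtain ⟨R, hR⟩ : ∃ R : Matrix (Fin (n + 1)) (Fin q) K, R = fun i j => if f i = j then 1 else 0 :=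
    ⟨_, rfl⟩
  obtain ⟨a', ha'⟩ : ∃ a' : Matrix (Fin q) (Fin (n + 1)) K, a' = a := ⟨_, rfl⟩
  have hRa : R * a' = A := by
    ext i l
    rw [Matrix.mul_apply, hR, hA, ha']
    simp
  have hD : (A⁻¹ * R) * a' = 1 := by
    rw [Matrix.mul_assoc, hRa, Matrix.nonsing_inv_mul A hdet]
  refine ⟨fun p => (A⁻¹ * R) p.1 p.2, fun M _ _ P k => ?_⟩
  have h1 : ∑ j, algebraMap K M ((A⁻¹ * R) k j) * (∑ l, algebraMap K M (a j l) * P l) =
      ∑ l, algebraMap K M (((A⁻¹ * R) * a') k l) * P l := by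
    simp_rw [Finset.mul_sum]
    rw [Finset.sum_comm]
    refine Finset.sum_congr rfl fun l _ => ?_
    rw [Matrix.mul_apply, map_sum, Finset.sum_mul, ha']
    refine Finset.sum_congr rfl fun j _ => ?_
    rw [map_mul]
    ring
  refine h1.trans ?_
  rw [hD, Finset.sum_eq_single k]
  · rw [Matrix.one_apply_eq, map_one, one_mul]
  · intro l _ hl
    rw [Matrix.one_apply_ne (Ne.symm hl), map_zero, zero_mul]
  · intro h
    exact absurd (Finset.mem_univ k) h

theorem main_cov (K : Type) [Field K] [NumberField K] (n b d m : ℕ) (hm : m = 2 ^ (b + 1))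
    (hn : 1 ≤ n) (hnm : n ≤ m + 1) {ζ : K} (hζ : IsPrimitiveRoot ζ m)
    (G : MvPolynomial (Fin (m + 2)) K) (hdeg : G.IsHomogeneous d)
    (L0 : Type) [Field L0] [NumberField L0] [Algebra K L0] (y0 : Fin (m + 2) → L0)
    (x0 : Fin (n + 1) → L0)
    (h0 : ∀ j, y0 j ^ m =
      ∑ k, algebraMap K L0 (hyp n m ζ j k) * x0 k)
    (hG : MvPolynomial.aeval y0 G ≠ 0) (c : ℝ) (hc : (m : ℝ) ^ 2 < c * n) (T : ℝ) :
    ∃ (L : Type) (_ : Field L) (_ : NumberField L) (_ : Algebra K L)
      (y : Fin (m + 2) → L) (x : Fin (n + 1) → L),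
      adjoin K (Set.range y) = ⊤ ∧ y 1 = 1 ∧
      Module.finrank K L ≤ (2 * (d / m) + 1) ^ (n - 1) * (2 ^ b) ^ n * m ^ (m + 1) ∧
      (∀ j, y j ^ m = ∑ k, algebraMap K L (hyp n m ζ j k) * x k) ∧
      MvPolynomial.aeval y G ≠ 0 ∧
      DD L + Module.finrank K L * (T - DD K) < c * logHeight y := by
  classical
  have hl : 0 < Real.log 2 := Real.log_pos (by norm_num)
  have hpb : (0 : ℝ) < 2 ^ b := by positivity
  have hm0 : m ≠ 0 := by
    rw [hm]
    positivity
  have hmpos : 0 < m := Nat.pos_of_ne_zero hm0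
  have hev : Even m := ⟨2 ^ b, by rw [hm, pow_succ]; ring⟩
  have hmR : (m : ℝ) = 2 * 2 ^ b := by
    rw [hm]
    push_cast
    ring
  have hcm : 2 * (m * 2 ^ b) < c * n := by
    have : (m : ℝ) ^ 2 = 2 * (m * 2 ^ b) := by
      rw [hmR]
      ring
    rwa [this] at hc
  have hc0 : 0 < c := by
    by_contra h
    have h1 := mul_nonpos_of_nonpos_of_nonneg (not_lt.1 h) (Nat.cast_nonneg (α := ℝ) n)
    have h2 : (0 : ℝ) ≤ m := Nat.cast_nonneg _
    have h3 : 0 ≤ (m : ℝ) * 2 ^ b := mul_nonneg h2 hpb.le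
    linarith
  -- the forms
  obtain ⟨a, ha⟩ : ∃ a : Fin (m + 2) → Fin (n + 1) → K,
    a = hyp n m ζ := ⟨_, rfl⟩
  have hζ1 : ζ ^ m = 1 := hζ.pow_eq_one
  obtain ⟨ψ⟩ : Nonempty (L0 →+* ℂ) := inferInstance
  obtain ⟨φ, hφ⟩ : ∃ φ : K →+* ℂ, φ = ψ.comp (algebraMap K L0) := ⟨_, rfl⟩
  obtain ⟨e, he, F, hF0, hFh, hF⟩ := cov_poly (d := d) hmpos (MvPolynomial.map φ G) (hdeg.map φ)
    (fun j k => φ (a j k)) (fun k => ψ (x0 k)) (fun j => ψ (y0 j)) (by
      intro j
      rw [← map_pow, h0 j, map_sum, ha]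
      refine Finset.sum_congr rfl fun k _ => ?_
      rw [map_mul, hφ]
      rfl) (by
      rw [MvPolynomial.eval_map]
      intro h
      apply hG
      apply ψ.injective
      rw [map_zero, MvPolynomial.aeval_def, MvPolynomial.hom_eval₂, ← h, hφ])
  obtain ⟨H, hH, hHd, hHe⟩ := comp_poly n e F hF0 hFh
  obtain ⟨B, hB⟩ : ∃ B, B = Nat.size e := ⟨_, rfl⟩
  have hB1 : e < 2 ^ B := by
    rw [hB]
    exact Nat.lt_size_self e
  have hB2 : 2 ^ B ≤ 2 * (d / m) + 1 := by
    rcases Nat.eq_zero_or_pos B with h1 | h1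
    · rw [h1, pow_zero]
      omega
    · obtain ⟨s, hs⟩ : ∃ s, B = s + 1 := ⟨B - 1, by omega⟩
      have h2 : ¬ e < 2 ^ s := by
        intro h3
        have h4 := Nat.size_le.2 h3
        omega
      rw [hs, pow_succ]
      omega
  obtain ⟨C, hC0, hcore⟩ := core K φ n b B H hH (fun α hα i => lt_of_le_of_lt (hHd α hα i) hB1)
  -- the left inverse
  obtain ⟨f, hf⟩ : ∃ f : Fin (n + 1) → Fin (m + 2), f = Fin.castLE (by omega) :=
    ⟨_, rfl⟩
  have hfi : Function.Injective f := by
    rw [hf]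
    exact Fin.castLE_injective _
  obtain ⟨D, hD⟩ := left_inv a f (by
    rw [ha]
    exact hyp_gen n m hn hζ f hfi)
  obtain ⟨C1, hC10, hC1⟩ := lin_le D
  obtain ⟨C2, hC2⟩ : ∃ C2 : ℝ, C2 = ((b + 1 : ℕ) : ℝ) * ((m + 1 : ℕ) : ℝ) *
    (3 * Real.log 2) := ⟨_, rfl⟩
  obtain ⟨N, hN⟩ := exists_nat_gt ((m * 2 ^ b * (C + C2 + |T|) + c * (n * C) +
    c * (2 ^ b * (cst n + C1))) / ((c * n - 2 * (m * 2 ^ b)) * Real.log 2))
  rw [div_lt_iff₀ (mul_pos (by linarith) hl)] at hN
  obtain ⟨μ, hNm, E, i1, i2, i3, σ, x, t, hσ, hHt, hdegE, hx0, ht01, hDE, hht, hloc⟩ := hcore N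
  have hNm' : (N : ℝ) ≤ μ := by exact_mod_cast hNm
  rw [← hm] at ht01 hloc
  obtain ⟨v, hv⟩ : ∃ v : Fin (m + 2) → E, v = fun j =>
    ∑ k, algebraMap K E (a j k) * cf t k := ⟨_, rfl⟩
  have hvj : ∀ j, v j = ∑ k, algebraMap K E (hyp n m ζ j k) * cf t k := by
    intro j
    rw [hv, ha]
  have hv0 : ∀ j, v j ≠ 0 := by
    intro j
    rw [hvj]
    exact vals_ne hev hζ1 t ht01 j
  have hv1 : v 1 = 1 := by
    rw [hvj]
    unfold hyp
    have e1 : (1 : Fin (m + 2)) = Fin.succ 0 := rfl
    rw [e1, Fin.cons_succ, Fin.cons_zero, sum_single, cf_last]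
  have hbad : ∀ j, Bad x (v j) := by
    intro j w hw2 hwv h
    apply hwv
    rw [ord_eq_zero_iff w (hv0 j), hvj]
    exact (vals w hev hm0 hζ1 t ht01 (hloc w hw2 h)).2 j
  -- the roots in `ℂ`
  have hcfσ : ∀ k, cf (fun i => σ (t i)) k = σ (cf t k) := by
    intro k
    rw [← cfR_eq, ← cfR_eq, cfR_map]
  have hsumσ : ∀ j, ∑ k, φ (a j k) * cf (fun i => σ (t i)) k = σ (v j) := by
    intro j
    rw [hv]
    show _ = σ (∑ k, algebraMap K E (a j k) * cf t k)
    rw [map_sum]
    refine Finset.sum_congr rfl fun k _ => ?_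
    rw [map_mul, hcfσ, ← hσ]
    rfl
  rw [hHe] at hHt
  obtain ⟨z, hz, hzG⟩ := hF _ hHt (by
    intro j
    rw [hsumσ]
    exact (map_ne_zero σ).2 (hv0 j))
  have hz1 : z 1 ^ m = 1 := by
    rw [hz 1, hsumσ, hv1, map_one]
  have hz10 : z 1 ≠ 0 := by
    intro h
    rw [h, zero_pow hm0] at hz1
    exact zero_ne_one hz1
  obtain ⟨z', hz'⟩ : ∃ z' : Fin (m + 2) → ℂ, z' = fun j => (z 1)⁻¹ * z j := ⟨_, rfl⟩
  have hz'1 : z' 1 = 1 := by
    rw [hz']
    exact inv_mul_cancel₀ hz10
  have hz'm : ∀ j, z' j ^ m = σ (v j) := by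
    intro j
    rw [hz']
    show ((z 1)⁻¹ * z j) ^ m = _
    rw [mul_pow, inv_pow, hz1, inv_one, one_mul, hz j, hsumσ]
  have hz'G : MvPolynomial.eval z' (MvPolynomial.map φ G) ≠ 0 := by
    rw [hz', eval_hom (hdeg.map φ)]
    exact mul_ne_zero (pow_ne_zero _ (inv_ne_zero hz10)) hzG
  -- the field
  obtain ⟨E', g1, g2, g3, τ, s', hτ, hs', hτs, hE', hDis⟩ := adj_family (b + 1) (m + 1) E σ
    x (fun i => v (Fin.succAbove 1 i)) hx0 (fun i => hv0 _) (fun i => hbad _)
    (fun i => z' (Fin.succAbove 1 i)) (by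
      intro i
      rw [← hm]
      exact hz'm _)
  rw [← hm] at hs'
  let _ : Algebra K E' := ((algebraMap E E').comp (algebraMap K E)).toAlgebra
  have hst : IsScalarTower K E E' := IsScalarTower.of_algebraMap_eq fun _ => rfl
  have hτ' : ∀ u : E, τ (algebraMap E E' u) = σ u := fun u => by
    rw [← hτ]
    rfl
  obtain ⟨Y, hY⟩ : ∃ Y : Fin (m + 2) → E', Y = Fin.insertNth 1 1 s' := ⟨_, rfl⟩
  have hY1 : Y 1 = 1 := by
    rw [hY]
    exact Fin.insertNth_apply_same _ _ _
  have hYs : ∀ i, Y (Fin.succAbove 1 i) = s' i := by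
    intro i
    rw [hY]
    exact Fin.insertNth_apply_succAbove _ _ _ _
  have hYm : ∀ j, Y j ^ m = algebraMap E E' (v j) := by
    rw [Fin.forall_iff_succAbove 1]
    constructor
    · rw [hY1, one_pow, hv1, map_one]
    · intro i
      rw [hYs]
      exact hs' i
  have hτY : ∀ j, τ (Y j) = z' j := by
    rw [Fin.forall_iff_succAbove 1]
    constructor
    · rw [hY1, map_one, hz'1]
    · intro i
      rw [hYs]
      exact hτs i
  obtain ⟨L, Q, hQ, hQtop⟩ := adjoin_top (K := K) Y
  have fKE : Module.Finite K E := Module.Finite.of_restrictScalars_finite ℚ K E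
  have fKE' : Module.Finite K E' := Module.Finite.of_restrictScalars_finite ℚ K E'
  have nL : NumberField L := inferInstance
  have hKL : Module.finrank K L * Module.finrank L E' = Module.finrank K E' :=
    Module.finrank_mul_finrank K L E'
  have hKE : Module.finrank K E * Module.finrank E E' = Module.finrank K E' :=
    Module.finrank_mul_finrank K E E'
  have hLM0 : 0 < Module.finrank L E' := Module.finrank_pos
  have hKL0 : 0 < Module.finrank K L := Module.finrank_pos
  have hKE0 : 0 < Module.finrank K E := Module.finrank_pos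
  have hEE0 : 0 < Module.finrank E E' := Module.finrank_pos
  have hK0 : 0 < Module.finrank ℚ K := Module.finrank_pos
  have halg : ∀ i, algebraMap L E' (Q i) = Y i := hQ
  obtain ⟨xL, hxL⟩ : ∃ xL : Fin (n + 1) → L, xL = fun k =>
    ∑ j, algebraMap K L (D (k, j)) * Q j ^ m := ⟨_, rfl⟩
  have hxE : ∀ k, algebraMap L E' (xL k) = algebraMap E E' (cf t k) := by
    intro k
    have h1 := hD E (cf t) k
    rw [← h1, hxL]
    show algebraMap L E' (∑ j, algebraMap K L (D (k, j)) * Q j ^ m) = _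
    rw [map_sum, map_sum]
    refine Finset.sum_congr rfl fun j _ => ?_
    rw [map_mul, map_mul, map_pow, halg, hYm, ← IsScalarTower.algebraMap_apply,
      ← IsScalarTower.algebraMap_apply, hv]
  refine ⟨L, inferInstance, nL, inferInstance, Q, xL, hQtop, ?_, ?_, ?_, ?_, ?_⟩
  · apply (algebraMap L E').injective
    rw [halg, hY1, map_one]
  · have h1 : Module.finrank K L ≤ Module.finrank K E' := by
      rw [← hKL]
      exact Nat.le_mul_of_pos_right _ hLM0
    refine h1.trans ?_
    rw [← hKE]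
    have h2 : 2 ^ ((n - 1) * B + b * n) ≤ (2 * (d / m) + 1) ^ (n - 1) * (2 ^ b) ^ n := by
      rw [pow_add, mul_comm (n - 1) B, pow_mul, pow_mul]
      exact Nat.mul_le_mul (Nat.pow_le_pow_left hB2 _) le_rfl
    have h4 := hE'
    rw [pow_mul, ← hm] at h4
    exact Nat.mul_le_mul (hdegE.trans h2) h4
  · intro j
    apply (algebraMap L E').injective
    rw [map_pow, halg, hYm, hvj, map_sum, map_sum]
    refine Finset.sum_congr rfl fun k _ => ?_
    rw [map_mul, map_mul, hxE, ← IsScalarTower.algebraMap_apply,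
      ← IsScalarTower.algebraMap_apply]
  · intro h
    apply hz'G
    have h1 : τ (algebraMap L E' (MvPolynomial.aeval Q G)) = 0 := by rw [h, map_zero, map_zero]
    rw [← h1, MvPolynomial.eval_map, MvPolynomial.aeval_def, MvPolynomial.hom_eval₂,
      MvPolynomial.hom_eval₂]
    congr 1
    · rw [← hσ, ← hτ]
      rfl
    · funext j
      show z' j = τ (algebraMap L E' (Q j))
      rw [halg, hτY]
  · -- the inequality
    have d1 := descent (L := L) (M := E') ∅ (w3 (algebraMap E E' x)) (supp_w3 _)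
      (fun w => w3_nonneg _ w) (by
        intro v hv
        simp at hv)
    rw [Finset.sum_empty, add_zero] at d1
    unfold Dis at hDis
    have d4 := ht_prod t
    have d5 : logHeight Y = Module.finrank L E' * logHeight Q := by
      have h1 := Pool.Agent.Helper259.HtExt.logHeight_ext (K := L) (L := E') Q
      rw [← h1]
      congr 1
      funext i
      exact (halg i).symm
    have d6 : (n : ℝ) * (Module.finrank ℚ E * (μ * Real.log 2 - C)) ≤
        2 ^ b * ∑ i, logHeight₁ (t i) := by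
      have := Finset.sum_le_sum fun (i : Fin n) (_ : i ∈ Finset.univ) => hht i
      rw [Finset.sum_const, Finset.card_univ, Fintype.card_fin, nsmul_eq_mul,
        ← Finset.mul_sum] at this
      exact this
    have tw : (totalWeight E : ℝ) = Module.finrank ℚ E := by
      exact_mod_cast NumberField.totalWeight_eq_finrank E
    rw [tw] at d4
    have d7 : logHeight (cf t) ≤ logHeight v + Module.finrank ℚ E * C1 := by
      have h1 := hC1 E v
      have h2 : (fun k => ∑ j, algebraMap K E (D (k, j)) * v j) = cf t := by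
        funext k
        have h3 := hD E (cf t) k
        rw [hv]
        exact h3
      rwa [h2] at h1
    have d8 : m * logHeight Y = Module.finrank E E' * logHeight v := by
      have h1 := logHeight_pow Y m
      have h2 := Pool.Agent.Helper259.HtExt.logHeight_ext (K := E) (L := E') v
      rw [← h1, ← h2]
      congr 1
      funext j
      exact hYm j
    obtain ⟨k, hk⟩ : ∃ k : ℝ, k = Module.finrank ℚ K := ⟨_, rfl⟩
    obtain ⟨p, hp⟩ : ∃ p : ℝ, p = Module.finrank K L := ⟨_, rfl⟩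
    obtain ⟨q, hq⟩ : ∃ q : ℝ, q = Module.finrank L E' := ⟨_, rfl⟩
    obtain ⟨s, hs⟩ : ∃ s : ℝ, s = Module.finrank K E := ⟨_, rfl⟩
    obtain ⟨u, hu⟩ : ∃ u : ℝ, u = Module.finrank E E' := ⟨_, rfl⟩
    have hk1 : 1 ≤ k := by
      rw [hk]
      exact_mod_cast hK0
    have hp1 : 0 < p := by
      rw [hp]
      exact_mod_cast hKL0
    have hq1 : 0 < q := by
      rw [hq]
      exact_mod_cast hLM0
    have hs1 : 0 < s := by
      rw [hs]
      exact_mod_cast hKE0
    have hu1 : 0 < u := by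
      rw [hu]
      exact_mod_cast hEE0
    have hpq : p * q = s * u := by
      rw [hp, hq, hs, hu]
      exact_mod_cast hKL.trans hKE.symm
    have hQE : (Module.finrank ℚ E : ℝ) = k * s := by
      rw [hk, hs]
      exact_mod_cast (Module.finrank_mul_finrank ℚ K E).symm
    rw [← hq] at d1 d5
    rw [← hu, hQE] at hDis
    rw [← hs, ← hk] at hDE
    rw [hQE] at d4 d6 d7
    rw [← hu] at d8
    obtain ⟨S, hS⟩ : ∃ S : ℝ, S = ∑ i, logHeight₁ (t i) := ⟨_, rfl⟩
    rw [← hS] at d4 d6
    obtain ⟨h, hh⟩ : ∃ h : ℝ, h = logHeight Q := ⟨_, rfl⟩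
    rw [← hh] at d5
    rw [← hC2] at hDis
    have hmR0 : (0 : ℝ) < m := by exact_mod_cast hmpos
    -- the discriminant
    have d9 : DD L ≤ p * (DD K + k * (2 * μ * Real.log 2 + C + C2)) := by
      have h1 := mul_le_mul_of_nonneg_left hDE hu1.le
      have h2 : q * DD L ≤ q * (p * (DD K + k * (2 * μ * Real.log 2 + C + C2))) := by
        have e1 : q * (p * (DD K + k * (2 * μ * Real.log 2 + C + C2))) =
            u * (s * (DD K + k * (2 * μ * Real.log 2 + C))) + u * (k * s * C2) := by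
          have : q * p = s * u := by rw [mul_comm, hpq]
          linear_combination (DD K + k * (2 * μ * Real.log 2 + C + C2)) * this
        rw [e1]
        linarith
      exact le_of_mul_le_mul_left h2 hq1
    -- the height
    have d10 : k * p * (n * (μ * Real.log 2 - C) - 2 ^ b * (cst n + C1)) ≤ m * 2 ^ b * h := by
      have h1 : k * s * (n * (μ * Real.log 2 - C)) ≤ 2 ^ b * (logHeight v + k * s * (cst n + C1)) := by
        have h2 := mul_le_mul_of_nonneg_left (d4.trans (add_le_add_left d7 _)) hpb.le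
        linarith
      have h3 := mul_le_mul_of_nonneg_left h1 hu1.le
      have h4 : q * (k * p * (n * (μ * Real.log 2 - C) - 2 ^ b * (cst n + C1))) ≤
          q * (m * 2 ^ b * h) := by
        have e1 : q * (k * p * (n * (μ * Real.log 2 - C) - 2 ^ b * (cst n + C1))) =
            u * (k * s * (n * (μ * Real.log 2 - C))) -
              u * (2 ^ b * (k * s * (cst n + C1))) := by
          have : q * p = s * u := by rw [mul_comm, hpq]
          linear_combination k * (n * (μ * Real.log 2 - C) - 2 ^ b * (cst n + C1)) * this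
        have e2 : q * (m * 2 ^ b * h) = u * (2 ^ b * logHeight v) := by
          rw [d5] at d8
          linear_combination 2 ^ b * d8
        rw [e1, e2]
        linarith
      exact le_of_mul_le_mul_left h4 hq1
    have d11 : p * T ≤ k * p * |T| := by
      have h1 := le_abs_self T
      have h2 := abs_nonneg T
      have h3 : p * T ≤ p * |T| := mul_le_mul_of_nonneg_left h1 hp1.le
      have h4 : 1 * (p * |T|) ≤ k * (p * |T|) :=
        mul_le_mul_of_nonneg_right hk1 (mul_nonneg hp1.le h2)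
      linarith
    have d12 : m * 2 ^ b * (C + C2 + |T|) + c * (n * C) + c * (2 ^ b * (cst n + C1)) <
        μ * ((c * n - 2 * (m * 2 ^ b)) * Real.log 2) := by
      refine hN.trans_le (mul_le_mul_of_nonneg_right hNm' ?_)
      exact (mul_pos (by linarith) hl).le
    have hkp : 0 < k * p := mul_pos (lt_of_lt_of_le one_pos hk1) hp1
    have d13 := mul_lt_mul_of_pos_left d12 hkp
    have d14 := mul_le_mul_of_nonneg_left d10 hc0.le
    have hmb : 0 < (m : ℝ) * 2 ^ b := mul_pos hmR0 hpb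
    rw [← hp, ← hh]
    have d15 : m * 2 ^ b * (DD L + p * (T - DD K)) < m * 2 ^ b * (c * h) := by
      have h1 : m * 2 ^ b * (DD L + p * (T - DD K)) ≤
          m * 2 ^ b * (k * p * (2 * μ * Real.log 2 + C + C2 + |T|)) :=
        mul_le_mul_of_nonneg_left (by linarith) hmb.le
      linarith
    exact lt_of_mul_lt_mul_left d15 hmb.le

end Pool.Agent.H431.PN
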