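import Pool.Agent.H431.PN.StickFin

/-!
# Points of bounded degree on Fermat hypersurfaces
-/

set_option autoImplicit false

namespace Pool.Agent.H431.PN

open NumberField IsDedekindDomain Height Pool.Agent.Q290.NF IntermediateField
open Pool.Agent.H431.OC Pool.Agent.H431.MT

theorem snoc_sum {R : Type} [CommRing R] {n : ℕ} (x : Fin (n + 1) → R) (j : Fin (n + 2)) :
    ∑ k, (Fin.snoc (fun i => (Pi.single i 1 : Fin (n + 1) → R)) (fun _ => 1) :
      Fin (n + 2) → Fin (n + 1) → R) j k * x k =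
      (Fin.snoc x (∑ k, x k) : Fin (n + 2) → R) j := by
  classical
  refine Fin.lastCases ?_ (fun j => ?_) j
  · rw [Fin.snoc_last, Fin.snoc_last]
    simp
  · rw [Fin.snoc_castSucc, Fin.snoc_castSucc, Finset.sum_eq_single j]
    · rw [Pi.single_eq_same, one_mul]
    · intro k _ hk
      rw [Pi.single_eq_of_ne hk, zero_mul]
    · intro h
      exact absurd (Finset.mem_univ j) h

theorem main_fermat (K : Type) [Field K] [NumberField K] (n b d m : ℕ) (hm : m = 2 ^ b)
    (G : MvPolynomial (Fin (n + 2)) K) (hdeg : G.IsHomogeneous d)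
    (L0 : Type) [Field L0] [NumberField L0] [Algebra K L0] (y0 : Fin (n + 2) → L0)
    (h0 : ∑ j : Fin (n + 1), y0 j.castSucc ^ m = y0 (Fin.last (n + 1)) ^ m)
    (hG : MvPolynomial.aeval y0 G ≠ 0) (c : ℝ) (hc : (m : ℝ) < c * n) (T : ℝ) :
    ∃ (L : Type) (_ : Field L) (_ : NumberField L) (_ : Algebra K L) (y : Fin (n + 2) → L),
      adjoin K (Set.range y) = ⊤ ∧ y (Fin.last (n + 1)) = 1 ∧
      Module.finrank K L ≤ (2 * (d / m) + 2) ^ (n - 1) * m ^ (n + 1) ∧
      ∑ j : Fin (n + 1), y j.castSucc ^ m = y (Fin.last (n + 1)) ^ m ∧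
      MvPolynomial.aeval y G ≠ 0 ∧
      DD L + Module.finrank K L * (T - DD K) < c * logHeight y := by
  classical
  have hl : 0 < Real.log 2 := Real.log_pos (by norm_num)
  have hm0 : m ≠ 0 := by
    rw [hm]
    positivity
  have hmpos : 0 < m := Nat.pos_of_ne_zero hm0
  have hmR0 : (0 : ℝ) < m := by exact_mod_cast hmpos
  have hc0 : 0 < c := by
    by_contra h
    have h1 := mul_nonpos_of_nonpos_of_nonneg (not_lt.1 h) (Nat.cast_nonneg (α := ℝ) n)
    linarith
  obtain ⟨A, hA⟩ : ∃ A : Fin (n + 2) → Fin (n + 1) → ℂ, A =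
    Fin.snoc (fun i => (Pi.single i 1 : Fin (n + 1) → ℂ)) (fun _ => 1) := ⟨_, rfl⟩
  have hAx : ∀ (x : Fin (n + 1) → ℂ) (j : Fin (n + 2)), ∑ k, A j k * x k =
      (Fin.snoc x (∑ k, x k) : Fin (n + 2) → ℂ) j := by
    intro x j
    rw [hA]
    exact snoc_sum x j
  obtain ⟨ψ⟩ : Nonempty (L0 →+* ℂ) := inferInstance
  obtain ⟨φ, hφ⟩ : ∃ φ : K →+* ℂ, φ = ψ.comp (algebraMap K L0) := ⟨_, rfl⟩
  obtain ⟨e, he, F, hF0, hFh, hF⟩ := cov_poly (d := d) hmpos (MvPolynomial.map φ G) (hdeg.map φ)
    A (fun k => ψ (y0 k.castSucc) ^ m) (fun j => ψ (y0 j)) (by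
      intro j
      rw [hAx]
      refine Fin.lastCases ?_ (fun j => ?_) j
      · rw [Fin.snoc_last, ← map_pow, ← h0, map_sum]
        refine Finset.sum_congr rfl fun k _ => ?_
        rw [map_pow]
      · rw [Fin.snoc_castSucc]) (by
      rw [MvPolynomial.eval_map]
      intro h
      apply hG
      apply ψ.injective
      rw [map_zero, MvPolynomial.aeval_def, MvPolynomial.hom_eval₂, ← h, hφ])
  obtain ⟨H, hH, hHd, hHe⟩ := comp_st n e F hF0 hFh
  obtain ⟨B, hB⟩ : ∃ B, B = max 1 (Nat.size e) := ⟨_, rfl⟩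
  have hB1 : e < 2 ^ B := by
    refine (Nat.lt_size_self e).trans_le ?_
    rw [hB]
    exact Nat.pow_le_pow_right (by norm_num) (le_max_right _ _)
  have hB2 : 2 ^ B ≤ 2 * (d / m) + 2 := by
    rcases Nat.lt_or_ge (Nat.size e) 2 with h1 | h1
    · have h2 : B = 1 := by omega
      rw [h2]
      omega
    · obtain ⟨s, hs⟩ : ∃ s, Nat.size e = s + 1 := ⟨Nat.size e - 1, by omega⟩
      have hBs : B = s + 1 := by omega
      have h2 : ¬ e < 2 ^ s := by
        intro h3
        have h4 := Nat.size_le.2 h3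
        omega
      rw [hBs, pow_succ]
      omega
  obtain ⟨C, hC0, hcore⟩ := core_st K φ n B (by omega) H hH
    (fun α hα i => lt_of_le_of_lt (hHd α hα i) hB1)
  obtain ⟨C2, hC2⟩ : ∃ C2 : ℝ, C2 = (b : ℝ) * ((n + 1 : ℕ) : ℝ) * (3 * Real.log 2) := ⟨_, rfl⟩
  obtain ⟨N, hN⟩ := exists_nat_gt ((m * (C + C2 + |T|) + c * (n * C)) /
    ((c * n - m) * (2 * Real.log 2)))
  rw [div_lt_iff₀ (mul_pos (by linarith) (by linarith))] at hN
  obtain ⟨μ, hNm, M, i1, i2, i3, σ, x, a, hσ, hHa, hdegM, hx0, ha01, hDM, hht, hloc⟩ := hcore N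
  have hNm' : (N : ℝ) ≤ μ := by exact_mod_cast hNm
  -- the roots in `ℂ`
  rw [hHe] at hHa
  have hsσ : ∀ j, st (fun i => σ (a i)) j = σ (st a j) := fun j => (st_map σ a j).symm
  have hsne : ∀ j, st a j ≠ 0 := st_ne a ha01
  have hsnoc : ∀ j : Fin (n + 2), ∑ k, A j k * st (fun i => σ (a i)) k =
      σ ((Fin.snoc (st a) 1 : Fin (n + 2) → M) j) := by
    intro j
    rw [hAx]
    refine Fin.lastCases ?_ (fun j => ?_) j
    · rw [Fin.snoc_last, Fin.snoc_last, st_sum, map_one]
    · rw [Fin.snoc_castSucc, Fin.snoc_castSucc, hsσ]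
  obtain ⟨z, hz, hzG⟩ := hF _ hHa (by
    intro j
    rw [hsnoc]
    refine (map_ne_zero σ).2 ?_
    refine Fin.lastCases ?_ (fun j => ?_) j
    · rw [Fin.snoc_last]
      exact one_ne_zero
    · rw [Fin.snoc_castSucc]
      exact hsne j)
  obtain ⟨z1, hz1⟩ : ∃ z1, z1 = z (Fin.last (n + 1)) := ⟨_, rfl⟩
  have hz1m : z1 ^ m = 1 := by
    rw [hz1, hz, hsnoc, Fin.snoc_last, map_one]
  have hz10 : z1 ≠ 0 := by
    intro h
    rw [h, zero_pow hm0] at hz1m
    exact zero_ne_one hz1m
  obtain ⟨z', hz'⟩ : ∃ z' : Fin (n + 2) → ℂ, z' = fun j => z1⁻¹ * z j := ⟨_, rfl⟩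
  have hz'1 : z' (Fin.last (n + 1)) = 1 := by
    rw [hz']
    show z1⁻¹ * z (Fin.last (n + 1)) = 1
    rw [← hz1]
    exact inv_mul_cancel₀ hz10
  have hz'm : ∀ j, z' j ^ m = σ ((Fin.snoc (st a) 1 : Fin (n + 2) → M) j) := by
    intro j
    rw [hz']
    show (z1⁻¹ * z j) ^ m = _
    rw [mul_pow, inv_pow, hz1m, inv_one, one_mul, hz j, hsnoc]
  have hz'G : MvPolynomial.eval z' (MvPolynomial.map φ G) ≠ 0 := by
    rw [hz', eval_hom (hdeg.map φ)]
    exact mul_ne_zero (pow_ne_zero _ (inv_ne_zero hz10)) hzG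
  -- the field
  obtain ⟨E, g1, g2, g3, τ, s', hτ, hs', hτs, hE, hDis⟩ := adj_family b (n + 1) M σ
    x (st a) hx0 hsne (by
      intro j w hw2 hwv h
      exact hwv (st_unit w a ha01 (hloc w hw2 h) j))
    (fun j => z' j.castSucc) (by
      intro j
      rw [← hm, hz'm, Fin.snoc_castSucc])
  rw [← hm] at hs'
  let _ : Algebra K E := ((algebraMap M E).comp (algebraMap K M)).toAlgebra
  have hst : IsScalarTower K M E := IsScalarTower.of_algebraMap_eq fun _ => rfl
  obtain ⟨Y, hY⟩ : ∃ Y : Fin (n + 2) → E, Y = Fin.snoc s' 1 := ⟨_, rfl⟩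
  have hY1 : Y (Fin.last (n + 1)) = 1 := by
    rw [hY]
    exact Fin.snoc_last _ _
  have hYs : ∀ i : Fin (n + 1), Y i.castSucc = s' i := by
    intro i
    rw [hY]
    exact Fin.snoc_castSucc _ _ _
  have hYm : ∀ j, Y j ^ m = algebraMap M E ((Fin.snoc (st a) 1 : Fin (n + 2) → M) j) := by
    intro j
    refine Fin.lastCases ?_ (fun j => ?_) j
    · rw [hY1, one_pow, Fin.snoc_last, map_one]
    · rw [hYs, hs', Fin.snoc_castSucc]
  have hτY : ∀ j, τ (Y j) = z' j := by
    intro j
    refine Fin.lastCases ?_ (fun j => ?_) j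
    · rw [hY1, map_one, hz'1]
    · rw [hYs, hτs]
  have hYsum : ∑ j : Fin (n + 1), Y j.castSucc ^ m = Y (Fin.last (n + 1)) ^ m := by
    have h1 : ∀ j : Fin (n + 1), Y j.castSucc ^ m = algebraMap M E (st a j) := by
      intro j
      rw [hYm, Fin.snoc_castSucc]
    rw [hY1, one_pow, Finset.sum_congr rfl fun j _ => h1 j, ← map_sum, st_sum, map_one]
  obtain ⟨L, Q, hQ, hQtop⟩ := adjoin_top (K := K) Y
  have fKM : Module.Finite K M := Module.Finite.of_restrictScalars_finite ℚ K M
  have fKE : Module.Finite K E := Module.Finite.of_restrictScalars_finite ℚ K E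
  have nL : NumberField L := inferInstance
  have hKL : Module.finrank K L * Module.finrank L E = Module.finrank K E :=
    Module.finrank_mul_finrank K L E
  have hKM : Module.finrank K M * Module.finrank M E = Module.finrank K E :=
    Module.finrank_mul_finrank K M E
  have hLE0 : 0 < Module.finrank L E := Module.finrank_pos
  have hKL0 : 0 < Module.finrank K L := Module.finrank_pos
  have hKM0 : 0 < Module.finrank K M := Module.finrank_pos
  have hME0 : 0 < Module.finrank M E := Module.finrank_pos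
  have hK0 : 0 < Module.finrank ℚ K := Module.finrank_pos
  have halg : ∀ i, algebraMap L E (Q i) = Y i := hQ
  refine ⟨L, inferInstance, nL, inferInstance, Q, hQtop, ?_, ?_, ?_, ?_, ?_⟩
  · apply (algebraMap L E).injective
    rw [halg, hY1, map_one]
  · have h1 : Module.finrank K L ≤ Module.finrank K E := by
      rw [← hKL]
      exact Nat.le_mul_of_pos_right _ hLE0
    refine h1.trans ?_
    rw [← hKM]
    have h2 : 2 ^ ((n - 1) * B) ≤ (2 * (d / m) + 2) ^ (n - 1) := by
      rw [mul_comm (n - 1) B, pow_mul]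
      exact Nat.pow_le_pow_left hB2 _
    have h4 := hE
    rw [pow_mul, ← hm] at h4
    exact Nat.mul_le_mul (hdegM.trans h2) h4
  · apply (algebraMap L E).injective
    rw [map_sum, map_pow, halg, ← hYsum]
    refine Finset.sum_congr rfl fun j _ => ?_
    rw [map_pow, halg]
  · intro h
    apply hz'G
    have h1 : τ (algebraMap L E (MvPolynomial.aeval Q G)) = 0 := by rw [h, map_zero, map_zero]
    rw [← h1, MvPolynomial.eval_map, MvPolynomial.aeval_def, MvPolynomial.hom_eval₂,
      MvPolynomial.hom_eval₂]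
    congr 1
    · rw [← hσ, ← hτ]
      rfl
    · funext j
      show z' j = τ (algebraMap L E (Q j))
      rw [halg, hτY]
  · -- the inequality
    have d1 := descent (L := L) (M := E) ∅ (w3 (algebraMap M E x)) (supp_w3 _)
      (fun w => w3_nonneg _ w) (by
        intro v hv
        simp at hv)
    rw [Finset.sum_empty, add_zero] at d1
    unfold Dis at hDis
    have d5 : logHeight Y = Module.finrank L E * logHeight Q := by
      have h1 := Pool.Agent.Helper259.HtExt.logHeight_ext (K := L) (L := E) Q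
      rw [← h1]
      congr 1
      funext i
      exact (halg i).symm
    have d7 : logHeight (st a) ≤ logHeight (Fin.snoc (st a) 1 : Fin (n + 2) → M) := by
      have h1 := logHeight_comp_le (Fin.castSucc) (Fin.snoc (st a) 1 : Fin (n + 2) → M)
      have h2 : (Fin.snoc (st a) 1 : Fin (n + 2) → M) ∘ Fin.castSucc = st a := by
        funext j
        exact Fin.snoc_castSucc _ _ _
      rwa [h2] at h1
    have d8 : m * logHeight Y = Module.finrank M E *
        logHeight (Fin.snoc (st a) 1 : Fin (n + 2) → M) := by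
      have h1 := logHeight_pow Y m
      have h2 := Pool.Agent.Helper259.HtExt.logHeight_ext (K := M) (L := E)
        (Fin.snoc (st a) 1 : Fin (n + 2) → M)
      rw [← h1, ← h2]
      congr 1
      funext j
      exact hYm j
    obtain ⟨S, hS⟩ : ∃ S : ℝ, S = logHeight (Fin.snoc (st a) 1 : Fin (n + 2) → M) := ⟨_, rfl⟩
    rw [← hS] at d7 d8
    obtain ⟨k, hk⟩ : ∃ k : ℝ, k = Module.finrank ℚ K := ⟨_, rfl⟩
    obtain ⟨p, hp⟩ : ∃ p : ℝ, p = Module.finrank K L := ⟨_, rfl⟩
    obtain ⟨q, hq⟩ : ∃ q : ℝ, q = Module.finrank L E := ⟨_, rfl⟩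
    obtain ⟨s, hs⟩ : ∃ s : ℝ, s = Module.finrank K M := ⟨_, rfl⟩
    obtain ⟨u, hu⟩ : ∃ u : ℝ, u = Module.finrank M E := ⟨_, rfl⟩
    have hk1 : 1 ≤ k := by
      rw [hk]
      exact_mod_cast hK0
    have hp1 : 0 < p := by
      rw [hp]
      exact_mod_cast hKL0
    have hq1 : 0 < q := by
      rw [hq]
      exact_mod_cast hLE0
    have hs1 : 0 < s := by
      rw [hs]
      exact_mod_cast hKM0
    have hu1 : 0 < u := by
      rw [hu]
      exact_mod_cast hME0
    have hpq : p * q = s * u := by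
      rw [hp, hq, hs, hu]
      exact_mod_cast hKL.trans hKM.symm
    have hQM : (Module.finrank ℚ M : ℝ) = k * s := by
      rw [hk, hs]
      exact_mod_cast (Module.finrank_mul_finrank ℚ K M).symm
    rw [← hq] at d1 d5
    rw [← hu, hQM] at hDis
    rw [← hs, ← hk] at hDM
    rw [hQM] at hht
    rw [← hu] at d8
    obtain ⟨h, hh⟩ : ∃ h : ℝ, h = logHeight Q := ⟨_, rfl⟩
    rw [← hh] at d5
    rw [← hC2] at hDis
    have hqp : q * p = s * u := by rw [mul_comm, hpq]
    -- the discriminant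
    have d9 : DD L ≤ p * (DD K + k * (2 * μ * Real.log 2 + C + C2)) := by
      have h1 := mul_le_mul_of_nonneg_left hDM hu1.le
      have h2 : q * DD L ≤ q * (p * (DD K + k * (2 * μ * Real.log 2 + C + C2))) := by
        have e1 : q * (p * (DD K + k * (2 * μ * Real.log 2 + C + C2))) =
            u * (s * (DD K + k * (2 * μ * Real.log 2 + C))) + u * (k * s * C2) := by
          linear_combination (DD K + k * (2 * μ * Real.log 2 + C + C2)) * hqp
        rw [e1]
        linarith
      exact le_of_mul_le_mul_left h2 hq1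
    -- the height
    have d10 : k * p * (n * (2 * μ * Real.log 2 - C)) ≤ m * h := by
      have h3 := mul_le_mul_of_nonneg_left (hht.trans d7) hu1.le
      have h4 : q * (k * p * (n * (2 * μ * Real.log 2 - C))) ≤ q * (m * h) := by
        have e1 : q * (k * p * (n * (2 * μ * Real.log 2 - C))) =
            u * (n * (k * s * (2 * μ * Real.log 2 - C))) := by
          linear_combination k * (n * (2 * μ * Real.log 2 - C)) * hqp
        have e2 : q * (m * h) = u * S := by
          rw [d5] at d8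
          linear_combination d8
        rw [e1, e2]
        linarith
      exact le_of_mul_le_mul_left h4 hq1
    have d11 : p * T ≤ k * p * |T| := by
      have h1 := le_abs_self T
      have h2 := abs_nonneg T
      have h3 : p * T ≤ p * |T| := mul_le_mul_of_nonneg_left h1 hp1.le
      have h4 : 1 * (p * |T|) ≤ k * (p * |T|) :=
        mul_le_mul_of_nonneg_right hk1 (mul_nonneg hp1.le h2)
      linarith
    have d12 : m * (C + C2 + |T|) + c * (n * C) < μ * ((c * n - m) * (2 * Real.log 2)) := by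
      refine hN.trans_le (mul_le_mul_of_nonneg_right hNm' ?_)
      exact (mul_pos (by linarith) (by linarith)).le
    have hkp : 0 < k * p := mul_pos (lt_of_lt_of_le one_pos hk1) hp1
    have d13 := mul_lt_mul_of_pos_left d12 hkp
    have d14 := mul_le_mul_of_nonneg_left d10 hc0.le
    rw [← hp, ← hh]
    have d15 : m * (DD L + p * (T - DD K)) < m * (c * h) := by
      have h1 : m * (DD L + p * (T - DD K)) ≤
          m * (k * p * (2 * μ * Real.log 2 + C + C2 + |T|)) :=
        mul_le_mul_of_nonneg_left (by linarith) hmR0.le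
      linarith
    exact lt_of_mul_lt_mul_left d15 hmR0.le

end Pool.Agent.H431.PN
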