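import Pool.Agent.H431.PN.StickFin

/-!
# The primes at which a point of projective space meets a hypersurface
-/

set_option autoImplicit false

namespace Pool.Agent.H431.PN

open NumberField IsDedekindDomain Height Pool.Agent.Q290.NF Height.AdmissibleAbsValues
open Pool.Agent.H431.OC Pool.Agent.H431.MT

/-- the primes at which a coordinate is larger than the coordinate `1` -/
theorem vec_poles1 {L : Type} [Field L] [NumberField L] {ι : Type} [Finite ι] (z : ι → L) (i0 : ι)
    (h1 : z i0 = 1) (R : Finset (HeightOneSpectrum (𝓞 L)))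
    (hR : ∀ w ∈ R, ∃ k, 1 < w.valuation L (z k)) :
    ∑ w ∈ R, ell w ≤ logHeight z := by
  classical
  have hz : z ≠ 0 := by
    intro h
    rw [h] at h1
    exact zero_ne_one h1
  obtain ⟨f, hf⟩ : ∃ f : FinitePlace L → ℝ, f = fun v => ⨆ i, v (z i) := ⟨_, rfl⟩
  have hfin : f.HasFiniteMulSupport := by
    rw [hf]
    have : (fun v : nonarchAbsVal (K := L) ↦ ⨆ i, v.val (z i)).HasFiniteMulSupport := by
      fun_prop
    exact this
  have hfin' : (Function.mulSupport f).Finite := hfin
  have hf1 : ∀ v, 1 ≤ f v := by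
    intro v
    rw [hf]
    refine le_trans (le_of_eq ?_) (Finite.le_ciSup (fun i => v (z i)) i0)
    show 1 = v (z i0)
    rw [h1, map_one]
  have hA : 1 ≤ ∏ v : InfinitePlace L, (⨆ i, v (z i)) ^ v.mult := by
    refine Finset.one_le_prod fun v _ => one_le_pow₀ ?_
    refine le_trans (le_of_eq ?_) (Finite.le_ciSup (fun i => v (z i)) i0)
    show 1 = v (z i0)
    rw [h1, map_one]
  obtain ⟨g, hg⟩ : ∃ g : HeightOneSpectrum (𝓞 L) ↪ FinitePlace L,
      g = FinitePlace.equivHeightOneSpectrum.symm.toEmbedding := ⟨_, rfl⟩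
  have hgmk : ∀ w, g w = FinitePlace.mk w := by
    intro w
    rw [hg]
    rfl
  obtain ⟨s, hs⟩ : ∃ s : Finset (FinitePlace L), s = hfin'.toFinset ∪ R.map g := ⟨_, rfl⟩
  have hB : ∏ᶠ v : FinitePlace L, f v = ∏ v ∈ s, f v := by
    refine finprod_eq_prod_of_mulSupport_subset f ?_
    rw [hs]
    intro v hv
    rw [Finset.coe_union]
    left
    rw [Set.Finite.coe_toFinset]
    exact hv
  have hpos : ∀ v, f v ≠ 0 := fun v => (lt_of_lt_of_le one_pos (hf1 v)).ne'
  have hlog : logHeight z = Real.log (∏ v : InfinitePlace L, (⨆ i, v (z i)) ^ v.mult) +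
      ∑ v ∈ s, Real.log (f v) := by
    rw [logHeight_eq_log_mulHeight, NumberField.mulHeight_eq hz, Real.log_mul, ← Real.log_prod,
      ← hB, hf]
    · intro v _
      exact hpos v
    · exact (lt_of_lt_of_le one_pos hA).ne'
    · have h2 : ∏ᶠ v : FinitePlace L, f v ≠ 0 := by
        rw [hB]
        exact Finset.prod_ne_zero_iff.2 fun v _ => hpos v
      rw [hf] at h2
      exact h2
  have h3 : ∑ v ∈ R.map g, Real.log (f v) ≤ ∑ v ∈ s, Real.log (f v) := by
    refine Finset.sum_le_sum_of_subset_of_nonneg ?_ fun v _ _ => Real.log_nonneg (hf1 v)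
    rw [hs]
    exact Finset.subset_union_right
  have h4 : ∑ w ∈ R, ell w ≤ ∑ v ∈ R.map g, Real.log (f v) := by
    rw [Finset.sum_map]
    refine Finset.sum_le_sum fun w hw => ?_
    obtain ⟨k, hk⟩ := hR w hw
    have hk0 : z k ≠ 0 := by
      intro h
      rw [h, map_zero] at hk
      exact not_lt_zero hk
    have h5 : ord w (z k) < 0 := (ord_neg_iff w (z k)).2 hk
    have h6 := log_mk w hk0
    have h7 : (ord w (z k) : ℝ) ≤ -1 := by
      have : ord w (z k) ≤ -1 := by omega
      exact_mod_cast this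
    have h8 := ell_pos w
    have h9 : ell w ≤ Real.log (FinitePlace.mk w (z k)) := by
      rw [h6]
      nlinarith
    refine h9.trans ?_
    refine Real.log_le_log ?_ ?_
    · exact (FinitePlace.mk w).pos_iff.2 hk0
    · rw [hgmk, hf]
      exact Finite.le_ciSup (fun i => FinitePlace.mk w (z i)) k
  have h5 := Real.log_nonneg hA
  rw [hlog]
  linarith

theorem vec_poles {L : Type} [Field L] [NumberField L] {ι : Type} [Finite ι] (y : ι → L) (i0 : ι)
    (h0 : y i0 ≠ 0) (R : Finset (HeightOneSpectrum (𝓞 L)))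
    (hR : ∀ w ∈ R, ∃ k, w.valuation L (y i0) < w.valuation L (y k)) :
    ∑ w ∈ R, ell w ≤ logHeight y := by
  have h1 := vec_poles1 ((y i0)⁻¹ • y) i0 (by
    rw [Pi.smul_apply, smul_eq_mul, inv_mul_cancel₀ h0]) R (by
    intro w hw
    obtain ⟨k, hk⟩ := hR w hw
    refine ⟨k, ?_⟩
    rw [Pi.smul_apply, smul_eq_mul, map_mul, map_inv₀]
    have h2 : 0 < w.valuation L (y i0) := zero_lt_iff.2 (val_ne w h0)
    rw [← div_eq_inv_mul, one_lt_div₀ h2]
    exact hk)
  rwa [logHeight_smul_eq_logHeight _ (inv_ne_zero h0)] at h1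

/-- an absolute value attached to a prime is at most one at integral elements -/
theorem non_int {M : Type} [Field M] [NumberField M] (v : AbsoluteValue M ℝ)
    (hv : v ∈ nonarchAbsVal (K := M)) {c : M} (hc : IsIntegral ℤ c) : v c ≤ 1 := by
  obtain ⟨w, hw⟩ : IsFinitePlace v := hv
  by_cases hc0 : c = 0
  · rw [hc0, map_zero]
    exact zero_le_one
  have h1 : v c = FinitePlace.mk w c := by
    rw [← hw]
    rfl
  rw [h1]
  have h2 : 0 ≤ ord w c := by
    rw [ord_nonneg_iff]
    exact w.valuation_le_one (K := M) (⟨c, hc⟩ : 𝓞 M)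
  have h3 := log_mk w hc0
  have h4 : 0 < FinitePlace.mk w c := (FinitePlace.mk w).pos_iff.2 hc0
  have h5 : Real.log (FinitePlace.mk w c) ≤ 0 := by
    rw [h3]
    have h6 := ell_pos w
    have h7 : (0 : ℝ) ≤ ord w c := by exact_mod_cast h2
    nlinarith
  exact (Real.log_nonpos_iff h4.le).1 h5

theorem sup_pow {M : Type} [Field M] (v : AbsoluteValue M ℝ) {n : ℕ} (P : Fin (n + 1) → M)
    (q : ℕ) : (⨆ i, v (P i)) ^ q ≤ ⨆ i, v (P i ^ q) := by
  obtain ⟨k, hk⟩ := Finite.exists_max fun i => v (P i)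
  have h1 : (⨆ i, v (P i)) ≤ v (P k) := ciSup_le hk
  have h2 : 0 ≤ ⨆ i, v (P i) := Real.iSup_nonneg fun i => v.nonneg _
  refine (pow_le_pow_left₀ h2 h1 q).trans ?_
  rw [← map_pow]
  exact Finite.le_ciSup (fun i => v (P i ^ q)) k

/-- the primes at which a point meets the hypersurface `F = 0` -/
theorem form_le (K : Type) [Field K] [NumberField K] {n q : ℕ} (F : MvPolynomial (Fin (n + 1)) K)
    (hF : F.IsHomogeneous q) :
    ∃ C : ℝ, 0 ≤ C ∧ ∀ (M : Type) [Field M] [NumberField M] [Algebra K M] (P : Fin (n + 1) → M)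
      (R : Finset (HeightOneSpectrum (𝓞 M))), MvPolynomial.aeval P F ≠ 0 →
      (∀ w ∈ R, ∃ k, w.valuation M (MvPolynomial.aeval P F) < (w.valuation M (P k)) ^ q) →
      ∑ w ∈ R, ell w ≤ q * logHeight P + Module.finrank ℚ M * C := by
  classical
  obtain ⟨D, hD0, hD⟩ := exists_integral_multiples ℤ ℚ (L := K)
    (F.support.image fun s => F.coeff s)
  obtain ⟨κ, hκ⟩ : ∃ κ : ℝ, κ = 1 + ∑ φ : K →+* ℂ, ∑ s ∈ F.support, ‖φ (D * F.coeff s)‖ :=
    ⟨_, rfl⟩
  have hκ1 : 1 ≤ κ := by
    rw [hκ]
    have : 0 ≤ ∑ φ : K →+* ℂ, ∑ s ∈ F.support, ‖φ (D * F.coeff s)‖ :=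
      Finset.sum_nonneg fun φ _ => Finset.sum_nonneg fun s _ => norm_nonneg _
    linarith
  refine ⟨Real.log κ, Real.log_nonneg hκ1, fun M _ _ _ P R hP hR => ?_⟩
  obtain ⟨f, hf⟩ : ∃ f : MvPolynomial (Fin (n + 1)) M,
    f = MvPolynomial.map (algebraMap K M) (MvPolynomial.C (D : K) * F) := ⟨_, rfl⟩
  have hfh : f.IsHomogeneous q := by
    rw [hf]
    refine MvPolynomial.IsHomogeneous.map ?_ _
    have := (MvPolynomial.isHomogeneous_C (Fin (n + 1)) (D : K)).mul hF
    rwa [zero_add] at this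
  have hfc : ∀ s, f.coeff s = algebraMap K M (D * F.coeff s) := by
    intro s
    rw [hf, MvPolynomial.coeff_map, MvPolynomial.coeff_C_mul]
  have hfe : f.eval P = (D : M) * MvPolynomial.aeval P F := by
    rw [hf, MvPolynomial.eval_map, MvPolynomial.eval₂_mul, MvPolynomial.eval₂_C, map_intCast,
      MvPolynomial.aeval_def]
  have hfs : ∀ s, f.coeff s ≠ 0 → s ∈ F.support := by
    intro s hs
    rw [MvPolynomial.mem_support_iff]
    intro h
    apply hs
    rw [hfc, h, mul_zero, map_zero]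
  have hDM : (D : M) ≠ 0 := Int.cast_ne_zero.2 hD0
  obtain ⟨y, hy⟩ : ∃ y : Option (Fin (n + 1)) → M, y = fun o => o.elim (f.eval P)
    (fun k => P k ^ q) := ⟨_, rfl⟩
  have hy0 : y none = (D : M) * MvPolynomial.aeval P F := by
    rw [hy]
    exact hfe
  have hys : ∀ k, y (some k) = P k ^ q := by
    intro k
    rw [hy]
    rfl
  have h1 := vec_poles y none (by
    rw [hy0]
    exact mul_ne_zero hDM hP) R (by
    intro w hw
    obtain ⟨k, hk⟩ := hR w hw
    refine ⟨some k, ?_⟩
    rw [hy0, hys, map_mul, map_pow]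
    refine lt_of_le_of_lt ?_ hk
    refine mul_le_of_le_one_left' ?_
    have h2 : w.valuation M (algebraMap (𝓞 M) M (D : 𝓞 M)) ≤ 1 := w.valuation_le_one _
    rwa [map_intCast] at h2)
  have hPq : (P ^ q : Fin (n + 1) → M) ≠ 0 := by
    intro h
    have hq : q ≠ 0 := by
      rintro rfl
      have := congrFun h 0
      rw [Pi.pow_apply, pow_zero, Pi.zero_apply] at this
      exact one_ne_zero this
    have hP0 : P = 0 := by
      funext k
      have := congrFun h k
      rw [Pi.pow_apply, Pi.zero_apply] at this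
      exact pow_eq_zero_iff hq |>.1 this
    apply hP
    rw [hP0, MvPolynomial.aeval_zero, MvPolynomial.constantCoeff_eq, hF.coeff_eq_zero, map_zero]
    simpa using hq.symm
  have h2 : mulHeight y ≤ κ ^ totalWeight M * mulHeight (P ^ q : Fin (n + 1) → M) := by
    refine cmp y (P ^ q) (by
      intro h
      have := congrFun h none
      rw [hy0, Pi.zero_apply] at this
      exact mul_ne_zero hDM hP this) hPq κ (by linarith) ?_ ?_
    · intro v hv o
      obtain ⟨ψ, hψ⟩ : IsInfinitePlace v := mem_multisetInfinitePlace.1 hv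
      have hsup : 0 ≤ ⨆ j, v ((P ^ q : Fin (n + 1) → M) j) := Real.iSup_nonneg fun i => v.nonneg _
      rcases o with _ | k
      · rw [hy0, ← hfe]
        refine (AbsoluteValue.eval_mvPolynomial_le v hfh P).trans ?_
        refine mul_le_mul ?_ (sup_pow v P q)
          (pow_nonneg (Real.iSup_nonneg fun i => v.nonneg _) q) (by linarith)
        have e1 : (AddMonoidAlgebra.coeff f).sum (fun _ c => v c) =
            ∑ s ∈ f.support, v (f.coeff s) := rfl
        have e2 : f.support ⊆ F.support := fun s hs =>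
          hfs s (MvPolynomial.mem_support_iff.1 hs)
        have e3 : ∑ s ∈ f.support, v (f.coeff s) ≤ ∑ s ∈ F.support, v (f.coeff s) :=
          Finset.sum_le_sum_of_subset_of_nonneg e2 fun s _ _ => v.nonneg _
        have e4 : ∑ s ∈ F.support, v (f.coeff s) =
            ∑ s ∈ F.support, ‖(ψ.comp (algebraMap K M)) (D * F.coeff s)‖ := by
          refine Finset.sum_congr rfl fun s _ => ?_
          rw [← hψ, hfc]
          rfl
        have e5 : ∑ s ∈ F.support, ‖(ψ.comp (algebraMap K M)) (D * F.coeff s)‖ ≤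
            ∑ φ : K →+* ℂ, ∑ s ∈ F.support, ‖φ (D * F.coeff s)‖ :=
          Finset.single_le_sum (f := fun φ : K →+* ℂ => ∑ s ∈ F.support, ‖φ (D * F.coeff s)‖)
            (fun φ _ => Finset.sum_nonneg fun s _ => norm_nonneg _)
            (Finset.mem_univ (ψ.comp (algebraMap K M)))
        rw [e1, hκ]
        linarith
      · rw [hys]
        have h3 : v (P k ^ q) ≤ ⨆ j, v ((P ^ q : Fin (n + 1) → M) j) :=
          Finite.le_ciSup (fun j => v ((P ^ q : Fin (n + 1) → M) j)) k
        nlinarith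
    · intro v hv o
      rcases o with _ | k
      · rw [hy0, ← hfe]
        refine (IsNonarchimedean.eval_mvPolynomial_le (isNonarchimedean v hv) hfh P).trans ?_
        have h3 := sup_pow v P q
        have h4 : (⨆ s : f.support, v (f.coeff s)) ≤ 1 := by
          refine Real.iSup_le (fun s => non_int v hv ?_) zero_le_one
          have e1 : (s : Fin (n + 1) →₀ ℕ) ∈ F.support :=
            hfs s (MvPolynomial.mem_support_iff.1 s.2)
          have e2 := hD _ (Finset.mem_image_of_mem (fun s => F.coeff s) e1)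
          rw [hfc, ← zsmul_eq_mul]
          exact e2.algebraMap
        have h5 : 0 ≤ (⨆ i, v (P i)) ^ q := pow_nonneg (Real.iSup_nonneg fun i => v.nonneg _) q
        refine (mul_le_of_le_one_left h5 h4).trans h3
      · rw [hys]
        exact Finite.le_ciSup (fun j => v ((P ^ q : Fin (n + 1) → M) j)) k
  have h3 := Real.log_le_log (mulHeight_pos y) h2
  rw [Real.log_mul (by positivity) (mulHeight_pos _).ne', Real.log_pow, ← logHeight_eq_log_mulHeight,
    ← logHeight_eq_log_mulHeight, logHeight_pow, NumberField.totalWeight_eq_finrank] at h3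
  linarith

end Pool.Agent.H431.PN
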