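import Pool.Agent.H431.MT.Final

/-!
# Adjoining roots of elements supported at the bad primes
-/

set_option autoImplicit false

namespace Pool.Agent.H431.PN

open NumberField IsDedekindDomain Height Pool.Agent.Q290.NF IntermediateField
open Pool.Agent.H431.OC Pool.Agent.H431.MT

/-- the divisor of `s` is supported at the bad primes of `x`, outside the primes above `2` -/
def Bad {M : Type} [Field M] [NumberField M] (x s : M) : Prop :=
  ∀ v : HeightOneSpectrum (𝓞 M), ord v (2 : M) = 0 → ord v s ≠ 0 → w3 x v ≠ 0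

/-- the inequality of discriminants -/
def Dis (M E : Type) [Field M] [NumberField M] [Field E] [NumberField E] [Algebra M E] (x : M)
    (c : ℝ) : Prop :=
  DD E + sm (w3 (algebraMap M E x)) ≤
    Module.finrank M E * (DD M + sm (w3 x) + Module.finrank ℚ M * (c * (3 * Real.log 2)))

theorem bad_up {M E : Type} [Field M] [NumberField M] [Field E] [NumberField E] [Algebra M E]
    {x s : M} (h : Bad x s) {s' : E} {n : ℕ} (hn : n ≠ 0) (hs : s' ^ n = algebraMap M E s) :
    Bad (algebraMap M E x) s' := by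
  intro w hw2 hws
  obtain ⟨v, hv⟩ : ∃ v : HeightOneSpectrum (𝓞 M), v = w.under (𝓞 M) := ⟨_, rfl⟩
  have hl : w.asIdeal.LiesOver v.asIdeal := by
    rw [hv]
    exact ⟨rfl⟩
  have he := ram_ne v w hl
  have ho := ord_above v w hl
  rw [w3_ext v w he ho]
  have he' : ((v.asIdeal.ramificationIdx' w.asIdeal : ℕ) : ℤ) ≠ 0 := by exact_mod_cast he
  refine h v ?_ ?_
  · have h1 := ho 2
    rw [map_ofNat, hw2] at h1
    rcases mul_eq_zero.1 h1.symm with h2 | h2
    · exact absurd h2 he'
    · exact h2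
  · intro h0
    have h1 := ho s
    rw [← hs, ord_pow, h0, mul_zero] at h1
    rcases mul_eq_zero.1 h1 with h2 | h2
    · exact hn (by exact_mod_cast h2)
    · exact hws h2

theorem dis_trans {M E F : Type} [Field M] [NumberField M] [Field E] [NumberField E] [Algebra M E]
    [Field F] [NumberField F] [Algebra E F] [Algebra M F] [IsScalarTower M E F] {x : M} {c d : ℝ}
    (h1 : Dis M E x c) (h2 : Dis E F (algebraMap M E x) d) : Dis M F x (c + d) := by
  unfold Dis at *
  rw [← IsScalarTower.algebraMap_apply] at h2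
  have e1 : (Module.finrank M F : ℝ) = Module.finrank M E * Module.finrank E F := by
    exact_mod_cast (Module.finrank_mul_finrank M E F).symm
  have e2 : (Module.finrank ℚ E : ℝ) = Module.finrank ℚ M * Module.finrank M E := by
    exact_mod_cast (Module.finrank_mul_finrank ℚ M E).symm
  rw [e2] at h2
  rw [e1]
  have hn : (0 : ℝ) ≤ Module.finrank E F := Nat.cast_nonneg _
  have h3 := mul_le_mul_of_nonneg_left h1 hn
  linarith

theorem adj_sqrt (M : Type) [Field M] [NumberField M] (σ : M →+* ℂ) (x s : M) (hx : x ≠ 0)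
    (hs : s ≠ 0) (hb : Bad x s) (z : ℂ) (hz : z ^ 2 = σ s) :
    ∃ (E : Type) (_ : Field E) (_ : NumberField E) (_ : Algebra M E) (τ : E →+* ℂ) (s' : E),
      τ.comp (algebraMap M E) = σ ∧ s' ^ 2 = algebraMap M E s ∧ τ s' = z ∧
      Module.finrank M E ≤ 2 ∧ Dis M E x 1 := by
  obtain ⟨E, g1, g2, g3, s', τ, hs', hE2, hadj, hτ, hτs⟩ := quad_emb M σ s z hz
  refine ⟨E, g1, g2, g3, τ, s', hτ, hs', hτs, hE2, ?_⟩
  have h1 := quad_ineq (k := M) (F := E) s' s hs hs' hadj (B := 1) zero_le_one
    (fun w => w3 (algebraMap M E x) w) (fun v => w3 x v) (supp_w3 _) (supp_w3 _)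
    (fun w => w3_nonneg _ w) (fun w => w3_le_one w ((map_ne_zero _).2 hx))
    (fun v => w3_nonneg _ v) (by
      intro v w e he hv2 hvw
      rw [w3_ext v w he hvw]
      have he1 : (1 : ℝ) ≤ e := by exact_mod_cast Nat.one_le_iff_ne_zero.2 he
      have h0 := w3_nonneg x v
      refine ⟨fun _ => by nlinarith, fun ho _ => ?_⟩
      have h2 : 1 ≤ w3 x v := w3_ge (hb v hv2 (by
        intro h
        rw [h] at ho
        exact absurd ho (by decide)))
      have h3 := w3_le_one v hx
      linarith)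
  have e4 : DD E = Real.log |(discr E : ℝ)| := rfl
  have e5 : DD M = Real.log |(discr M : ℝ)| := rfl
  rw [← e4, ← e5] at h1
  unfold Dis
  have e6 : (1 : ℝ) + 2 = 3 := by norm_num
  rw [e6] at h1
  rw [one_mul]
  exact h1

theorem adj_root (b : ℕ) : ∀ (M : Type) [Field M] [NumberField M] (σ : M →+* ℂ) (x s : M),
    x ≠ 0 → s ≠ 0 → Bad x s → ∀ z : ℂ, z ^ (2 ^ b) = σ s →
    ∃ (E : Type) (_ : Field E) (_ : NumberField E) (_ : Algebra M E) (τ : E →+* ℂ) (s' : E),
      τ.comp (algebraMap M E) = σ ∧ s' ^ (2 ^ b) = algebraMap M E s ∧ τ s' = z ∧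
      Module.finrank M E ≤ 2 ^ b ∧ Dis M E x b := by
  induction b with
  | zero =>
    intro M _ _ σ x s hx hs hb z hz
    rw [pow_zero, pow_one] at hz
    refine ⟨M, inferInstance, inferInstance, Algebra.id M, σ, s, ?_, ?_, hz.symm, ?_, ?_⟩
    · ext y
      rfl
    · rw [pow_zero, pow_one]
      rfl
    · rw [pow_zero, Module.finrank_self]
    · unfold Dis
      rw [Module.finrank_self]
      push_cast
      simp
  | succ b ih =>
    intro M _ _ σ x s hx hs hb z hz
    have hz2 : (z ^ (2 ^ b)) ^ 2 = σ s := by rw [← hz, ← pow_mul, pow_succ]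
    obtain ⟨E, g1, g2, g3, τ, s1, hτ, hs1, hτs, hE, hD⟩ := adj_sqrt M σ x s hx hs hb _ hz2
    have hs10 : s1 ≠ 0 := by
      intro h
      rw [h, zero_pow two_ne_zero] at hs1
      exact hs ((map_eq_zero _).1 hs1.symm)
    obtain ⟨F, f1, f2, f3, υ, s2, hυ, hs2, hυs, hF, hDF⟩ := ih E τ (algebraMap M E x) s1
      ((map_ne_zero _).2 hx) hs10 (bad_up hb two_ne_zero hs1) z hτs.symm
    let _ : Algebra M F := ((algebraMap E F).comp (algebraMap M E)).toAlgebra
    have hst : IsScalarTower M E F := IsScalarTower.of_algebraMap_eq fun _ => rfl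
    refine ⟨F, f1, f2, inferInstance, υ, s2, ?_, ?_, hυs, ?_, ?_⟩
    · have : (algebraMap M F) = (algebraMap E F).comp (algebraMap M E) := rfl
      rw [this, ← RingHom.comp_assoc, hυ, hτ]
    · rw [pow_succ, pow_mul, hs2, ← map_pow, hs1]
      rfl
    · rw [← Module.finrank_mul_finrank M E F, pow_succ, mul_comm]
      exact Nat.mul_le_mul hF hE
    · have := dis_trans hD hDF
      push_cast
      rwa [add_comm] at this

theorem adj_family (b k : ℕ) : ∀ (M : Type) [Field M] [NumberField M] (σ : M →+* ℂ) (x : M)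
    (s : Fin k → M), x ≠ 0 → (∀ i, s i ≠ 0) → (∀ i, Bad x (s i)) → ∀ z : Fin k → ℂ,
    (∀ i, z i ^ (2 ^ b) = σ (s i)) →
    ∃ (E : Type) (_ : Field E) (_ : NumberField E) (_ : Algebra M E) (τ : E →+* ℂ)
      (s' : Fin k → E), τ.comp (algebraMap M E) = σ ∧
      (∀ i, s' i ^ (2 ^ b) = algebraMap M E (s i)) ∧ (∀ i, τ (s' i) = z i) ∧
      Module.finrank M E ≤ 2 ^ (b * k) ∧ Dis M E x (b * k) := by
  induction k with
  | zero =>
    intro M _ _ σ x s hx hs hb z hz
    refine ⟨M, inferInstance, inferInstance, Algebra.id M, σ, s, ?_, fun i => i.elim0,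
      fun i => i.elim0, ?_, ?_⟩
    · ext y
      rfl
    · rw [mul_zero, pow_zero, Module.finrank_self]
    · unfold Dis
      rw [Module.finrank_self]
      push_cast
      simp
  | succ k ih =>
    intro M _ _ σ x s hx hs hb z hz
    obtain ⟨E, g1, g2, g3, τ, s1, hτ, hs1, hτs, hE, hD⟩ := adj_root b M σ x (s 0) hx (hs 0)
      (hb 0) (z 0) (hz 0)
    have hτ' : ∀ y : M, τ (algebraMap M E y) = σ y := fun y => by
      rw [← hτ]
      rfl
    obtain ⟨F, f1, f2, f3, υ, s2, hυ, hs2, hυs, hF, hDF⟩ := ih E τ (algebraMap M E x)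
      (fun i => algebraMap M E (s i.succ)) ((map_ne_zero _).2 hx)
      (fun i => (map_ne_zero _).2 (hs _))
      (fun i => bad_up (hb i.succ) one_ne_zero (pow_one _)) (fun i => z i.succ) (by
        intro i
        rw [hτ']
        exact hz i.succ)
    let _ : Algebra M F := ((algebraMap E F).comp (algebraMap M E)).toAlgebra
    have hst : IsScalarTower M E F := IsScalarTower.of_algebraMap_eq fun _ => rfl
    have hυ' : ∀ y : E, υ (algebraMap E F y) = τ y := fun y => by
      rw [← hυ]
      rfl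
    refine ⟨F, f1, f2, inferInstance, υ, Fin.cons (algebraMap E F s1) s2, ?_, ?_, ?_, ?_, ?_⟩
    · have : (algebraMap M F) = (algebraMap E F).comp (algebraMap M E) := rfl
      rw [this, ← RingHom.comp_assoc, hυ, hτ]
    · intro i
      refine Fin.cases ?_ (fun i => ?_) i
      · rw [Fin.cons_zero, ← map_pow, hs1]
        rfl
      · rw [Fin.cons_succ, hs2]
        rfl
    · intro i
      refine Fin.cases ?_ (fun i => ?_) i
      · rw [Fin.cons_zero, hυ', hτs]
      · rw [Fin.cons_succ, hυs]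
    · rw [← Module.finrank_mul_finrank M E F, mul_add, mul_one, pow_add, mul_comm]
      exact Nat.mul_le_mul hF hE
    · have := dis_trans hD hDF
      have e : (b : ℝ) + b * k = b * ((k + 1 : ℕ) : ℝ) := by
        push_cast
        ring
      rwa [e] at this

end Pool.Agent.H431.PN
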