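import Pool.Agent.H431.PN.Ht

/-!
# Forms composed with the elementary symmetric polynomials
-/

set_option autoImplicit false

namespace Pool.Agent.H431.PN

open MvPolynomial

/-- the coefficients of `∏ (X + t i)` in a commutative ring -/
noncomputable def cfR {R : Type} [CommRing R] {n : ℕ} (t : Fin n → R) (j : Fin (n + 1)) : R :=
  (∏ i, (Polynomial.X + Polynomial.C (t i))).coeff j

theorem cfR_eq {K : Type} [Field K] {n : ℕ} (t : Fin n → K) (j : Fin (n + 1)) :
    cfR t j = cf t j := rfl

theorem cfR_map {R S : Type} [CommRing R] [CommRing S] (f : R →+* S) {n : ℕ} (t : Fin n → R)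
    (j : Fin (n + 1)) : f (cfR t j) = cfR (fun i => f (t i)) j := by
  unfold cfR
  rw [← Polynomial.coeff_map, Polynomial.map_prod]
  congr 1
  refine Finset.prod_congr rfl fun i _ => ?_
  rw [Polynomial.map_add, Polynomial.map_X, Polynomial.map_C]

theorem degreeOf_coeff {n : ℕ} (l : Fin n) (s : Finset (Fin n)) : ∀ k,
    ((∏ i ∈ s, (Polynomial.X + Polynomial.C (X i : MvPolynomial (Fin n) ℂ))).coeff k).degreeOf l ≤
      if l ∈ s then 1 else 0 := by
  classical
  induction s using Finset.induction_on with
  | empty =>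
    intro k
    rw [Finset.prod_empty, Polynomial.coeff_one]
    by_cases hk : k = 0
    · rw [if_pos hk, degreeOf_one]
      exact Nat.zero_le _
    · rw [if_neg hk, degreeOf_zero]
      exact Nat.zero_le _
  | insert a s ha ih =>
    intro k
    have h1 : ((Polynomial.X * ∏ i ∈ s, (Polynomial.X +
        Polynomial.C (X i : MvPolynomial (Fin n) ℂ))).coeff k).degreeOf l ≤
        if l ∈ insert a s then 1 else 0 := by
      cases k with
      | zero =>
        rw [Polynomial.mul_coeff_zero, Polynomial.coeff_X_zero, zero_mul, degreeOf_zero]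
        exact Nat.zero_le _
      | succ k =>
        rw [Polynomial.coeff_X_mul]
        refine (ih k).trans ?_
        by_cases hl : l ∈ s
        · rw [if_pos hl, if_pos (Finset.mem_insert_of_mem hl)]
        · rw [if_neg hl]
          exact Nat.zero_le _
    rw [Finset.prod_insert ha, add_mul, Polynomial.coeff_add, Polynomial.coeff_C_mul]
    refine (degreeOf_add_le _ _ _).trans (max_le h1 ?_)
    refine (degreeOf_mul_le _ _ _).trans ?_
    rw [degreeOf_X]
    have h2 := ih k
    by_cases hl : l = a
    · rw [if_pos hl, if_pos (by rw [hl]; exact Finset.mem_insert_self _ _)]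
      rw [if_neg (by rw [hl]; exact ha)] at h2
      omega
    · rw [if_neg hl, zero_add]
      refine h2.trans ?_
      by_cases hls : l ∈ s
      · rw [if_pos hls, if_pos (Finset.mem_insert_of_mem hls)]
      · rw [if_neg hls]
        exact Nat.zero_le _

/-- every vector with non zero last coordinate is a multiple of a vector of coefficients -/
theorem exists_cf {n : ℕ} (v : Fin (n + 1) → ℂ) (hv : v (Fin.last n) ≠ 0) :
    ∃ t : Fin n → ℂ, v = fun j => v (Fin.last n) * cf t j := by
  classical
  obtain ⟨F, hF⟩ : ∃ F : Polynomial ℂ, F = ∑ k : Fin (n + 1), Polynomial.C (v k) *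
    Polynomial.X ^ (k : ℕ) := ⟨_, rfl⟩
  have hFc : ∀ k : Fin (n + 1), F.coeff k = v k := by
    intro k
    rw [hF, Polynomial.finsetSum_coeff, Finset.sum_eq_single k]
    · rw [Polynomial.coeff_C_mul, Polynomial.coeff_X_pow, if_pos rfl, mul_one]
    · intro l _ hl
      rw [Polynomial.coeff_C_mul, Polynomial.coeff_X_pow, if_neg (fun h => hl (Fin.ext h.symm)),
        mul_zero]
    · intro h
      exact absurd (Finset.mem_univ k) h
  have hFd : ∀ k, n < k → F.coeff k = 0 := by
    intro k hk
    rw [hF, Polynomial.finsetSum_coeff]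
    refine Finset.sum_eq_zero fun l _ => ?_
    have := l.2
    rw [Polynomial.coeff_C_mul, Polynomial.coeff_X_pow, if_neg (by omega), mul_zero]
  have hFn : F.coeff n = v (Fin.last n) := by
    have := hFc (Fin.last n)
    rwa [Fin.val_last] at this
  have hdeg : F.natDegree = n := by
    refine le_antisymm (Polynomial.natDegree_le_iff_coeff_eq_zero.2 fun k hk => hFd k hk) ?_
    exact Polynomial.le_natDegree_of_ne_zero (by rw [hFn]; exact hv)
  have hlead : F.leadingCoeff = v (Fin.last n) := by
    rw [Polynomial.leadingCoeff, hdeg, hFn]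
  have hs := IsAlgClosed.splits F
  have hroots : F.roots.card = n := by
    rw [← hdeg]
    exact hs.natDegree_eq_card_roots.symm
  have hprod : F = Polynomial.C (v (Fin.last n)) *
      (F.roots.map fun a => Polynomial.X - Polynomial.C a).prod := by
    rw [← hlead]
    exact hs.eq_prod_roots
  obtain ⟨l, hl⟩ : ∃ l, l = F.roots.toList := ⟨_, rfl⟩
  have hll : l.length = n := by
    rw [hl, Multiset.length_toList, hroots]
  refine ⟨fun i => -(l.get (Fin.cast hll.symm i)), ?_⟩
  funext j
  have h1 : (∏ i : Fin n, (Polynomial.X + Polynomial.C (-(l.get (Fin.cast hll.symm i))))) =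
      (F.roots.map fun a => Polynomial.X - Polynomial.C a).prod := by
    have h2 : F.roots = (l : Multiset ℂ) := by
      rw [hl, Multiset.coe_toList]
    rw [h2, Multiset.map_coe, Multiset.prod_coe, ← List.prod_ofFn]
    congr 1
    apply List.ext_getElem
    · rw [List.length_ofFn, List.length_map, hll]
    · intro k h3 h4
      rw [List.getElem_ofFn, List.getElem_map]
      simp [sub_eq_add_neg]
  unfold cf
  rw [h1, ← Polynomial.coeff_C_mul, ← hprod, hFc]

theorem sum_eq {σ : Type} {R : Type} [CommRing R] {G : MvPolynomial σ R} {d : ℕ}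
    (h : G.IsHomogeneous d) {α : σ →₀ ℕ} (hα : α ∈ G.support) : ∑ i ∈ α.support, α i = d := by
  have h3 := h (mem_support_iff.1 hα)
  rw [← h3]
  rw [Finsupp.weight_apply, Finsupp.sum]
  simp

/-- values of forms at multiples -/
theorem eval_hom {σ : Type} {R : Type} [CommRing R] {G : MvPolynomial σ R} {d : ℕ}
    (h : G.IsHomogeneous d) (c : R) (v : σ → R) :
    eval (fun j => c * v j) G = c ^ d * eval v G := by
  rw [eval_eq, eval_eq, Finset.mul_sum]
  refine Finset.sum_congr rfl fun α hα => ?_
  have h1 : ∏ i ∈ α.support, (c * v i) ^ α i = c ^ d * ∏ i ∈ α.support, v i ^ α i := by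
    rw [← sum_eq h hα, ← Finset.prod_pow_eq_pow_sum, ← Finset.prod_mul_distrib]
    refine Finset.prod_congr rfl fun i _ => ?_
    rw [mul_pow]
  rw [h1]
  ring

theorem comp_poly (n d : ℕ) (G : MvPolynomial (Fin (n + 1)) ℂ) (hG : G ≠ 0)
    (hd : G.IsHomogeneous d) :
    ∃ H : MvPolynomial (Fin n) ℂ, H ≠ 0 ∧ (∀ a ∈ H.support, ∀ i, a i ≤ d) ∧
      ∀ t : Fin n → ℂ, eval t H = eval (cf t) G := by
  classical
  obtain ⟨f, hf⟩ : ∃ f : Fin (n + 1) → MvPolynomial (Fin n) ℂ,
    f = fun j => cfR (fun i => (X i : MvPolynomial (Fin n) ℂ)) j := ⟨_, rfl⟩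
  have hev : ∀ t : Fin n → ℂ, eval t (bind₁ f G) = eval (cf t) G := by
    intro t
    have h1 := eval₂Hom_bind₁ (RingHom.id ℂ) t f G
    have h2 : ∀ j, eval₂Hom (RingHom.id ℂ) t (f j) = cf t j := by
      intro j
      rw [hf, ← cfR_eq]
      show eval₂Hom (RingHom.id ℂ) t (cfR (fun i => (X i : MvPolynomial (Fin n) ℂ)) j) = _
      rw [cfR_map]
      congr 1
      funext i
      exact eval₂Hom_X' _ _ _
    have h3 : (fun j => eval₂Hom (RingHom.id ℂ) t (f j)) = cf t := funext h2
    rw [h3] at h1
    exact h1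
  refine ⟨bind₁ f G, ?_, ?_, hev⟩
  · intro h0
    have h1 : ∀ v : Fin (n + 1) → ℂ, eval v (G * X (Fin.last n)) = eval v 0 := by
      intro v
      rw [map_mul, eval_X, map_zero]
      by_cases hv : v (Fin.last n) = 0
      · rw [hv, mul_zero]
      · obtain ⟨t, ht⟩ := exists_cf v hv
        have h2 : eval v G = v (Fin.last n) ^ d * eval (cf t) G := by
          conv_lhs => rw [ht]
          exact eval_hom hd _ _
        rw [h2, ← hev, h0, map_zero, mul_zero, zero_mul]
    have h2 := MvPolynomial.funext h1
    rcases mul_eq_zero.1 h2 with h3 | h3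
    · exact hG h3
    · exact X_ne_zero _ h3
  · intro a ha i
    refine (monomial_le_degreeOf i ha).trans ?_
    have h1 : bind₁ f G = ∑ α ∈ G.support, C (G.coeff α) * ∏ j ∈ α.support, f j ^ α j := by
      conv_lhs => rw [G.as_sum]
      rw [map_sum]
      refine Finset.sum_congr rfl fun α _ => ?_
      rw [bind₁_monomial]
    rw [h1]
    refine (degreeOf_sum_le _ _ _).trans (Finset.sup_le fun α hα => ?_)
    refine (degreeOf_C_mul_le _ _ _).trans ((degreeOf_prod_le _ _ _).trans ?_)
    have h2 : ∀ j ∈ α.support, degreeOf i (f j ^ α j) ≤ α j := by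
      intro j _
      refine (degreeOf_pow_le _ _ _).trans ?_
      have h3 : degreeOf i (f j) ≤ 1 := by
        rw [hf]
        refine (degreeOf_coeff i Finset.univ j).trans ?_
        split_ifs <;> omega
      calc α j * degreeOf i (f j) ≤ α j * 1 := Nat.mul_le_mul_left _ h3
        _ = α j := mul_one _
    refine (Finset.sum_le_sum h2).trans ?_
    rw [sum_eq hd hα]

end Pool.Agent.H431.PN
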