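import Pool.Agent.H431.PN.Adj

/-!
# The tower with roots
-/

set_option autoImplicit false

namespace Pool.Agent.H431.PN

open NumberField IsDedekindDomain Height Pool.Agent.Q290.NF IntermediateField
open Pool.Agent.H431.OC Pool.Agent.H431.MT

theorem w3_ne {M : Type} [Field M] [NumberField M] {t : M} {v : HeightOneSpectrum (𝓞 M)}
    (h : ord v t ≠ 0) : w3 t v ≠ 0 := by
  have h1 := po_nonneg (ord v t)
  have h2 := po_nonneg (ord v (t - 1))
  have h3 := po_nonneg (-ord v t)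
  have key : 0 < w3 t v := by
    unfold w3
    rcases lt_or_gt_of_ne h with h4 | h4
    · rw [po_pos (n := -ord v t) (by omega)]
      linarith
    · rw [po_pos h4]
      linarith
  exact key.ne'

theorem w3_zero {M : Type} [Field M] [NumberField M] {t : M} {v : HeightOneSpectrum (𝓞 M)}
    (h : w3 t v = 0) : ord v t = 0 ∧ ord v (t - 1) = 0 := by
  have h0 : ord v t = 0 := by
    by_contra h1
    exact w3_ne h1 h
  refine ⟨h0, ?_⟩
  have h1 := po_nonneg (ord v t)
  have h3 := po_nonneg (-ord v t)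
  have h4 : 0 ≤ ord v (t - 1) := sub_nonneg' v h0.ge (ord_one v).ge
  by_contra h5
  have h6 : po (ord v (t - 1)) = 1 := po_pos (by omega)
  unfold w3 at h
  rw [h6] at h
  linarith

theorem core (K : Type) [Field K] [NumberField K] (φ : K →+* ℂ) (n b B : ℕ)
    (H : MvPolynomial (Fin n) ℂ) (hH : H ≠ 0) (hB : ∀ a ∈ H.support, ∀ i, a i < 2 ^ B) :
    ∃ C : ℝ, 0 ≤ C ∧ ∀ N : ℕ, ∃ m : ℕ, N ≤ m ∧
    ∃ (E : Type) (_ : Field E) (_ : NumberField E) (_ : Algebra K E) (σ : E →+* ℂ) (x : E)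
      (t : Fin n → E), σ.comp (algebraMap K E) = φ ∧
      MvPolynomial.eval (fun i => σ (t i)) H ≠ 0 ∧
      Module.finrank K E ≤ 2 ^ ((n - 1) * B + b * n) ∧ x ≠ 0 ∧
      (∀ i, t i ≠ 0 ∧ t i ^ (2 ^ (b + 1)) ≠ 1) ∧
      DD E + sm (w3 x) ≤ Module.finrank K E *
        (DD K + Module.finrank ℚ K * (2 * m * Real.log 2 + C)) ∧
      (∀ i, Module.finrank ℚ E * (m * Real.log 2 - C) ≤ 2 ^ b * logHeight₁ (t i)) ∧
      (∀ w : HeightOneSpectrum (𝓞 E), ord w (2 : E) = 0 → w3 x w = 0 →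
        ∀ i, ord w (t i) = 0 ∧ ord w (t i ^ (2 ^ (b + 1)) - 1) = 0) := by
  classical
  have hl : 0 < Real.log 2 := Real.log_pos (by norm_num)
  obtain ⟨J, hJ⟩ : ∃ J, J = (n - 1) * B := ⟨_, rfl⟩
  obtain ⟨z0, hz0, hev⟩ := eval_ne (b := 2 ^ B) H hH hB
  obtain ⟨C, hC0, hC⟩ := ht_mu
  refine ⟨J * C + (1 + 6 * J + 3 * (b * n)) * Real.log 2, by positivity, fun N => ?_⟩
  obtain ⟨m1, hm1⟩ := exists_pow_lt_of_lt_one (pow_pos hz0 (2 ^ (J + b)))
    (one_half_lt_one (α := ℝ))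
  obtain ⟨m, hm⟩ : ∃ m, m = max 1 (max m1 N) := ⟨_, rfl⟩
  have hm' : 1 ≤ m := by omega
  have hmm1 : m1 ≤ m := by omega
  refine ⟨m, by omega, ?_⟩
  have hr0 : (0 : ℝ) < (1 / 2) ^ m := by positivity
  have hr1 : ((1 : ℝ) / 2) ^ m < 1 := pow_lt_one₀ (by norm_num) (by norm_num) (by omega)
  have hrz : ((1 : ℝ) / 2) ^ m < z0 ^ (2 ^ (J + b)) :=
    (pow_le_pow_of_le_one (by norm_num) (by norm_num) hmm1).trans_lt hm1
  obtain ⟨M, i1, i2, i3, σ, κ, hσ, hκ0, hrel, hemb, hdeg, hdisc⟩ :=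
    tower K φ (((1 : K) / 2) ^ m) (((1 : ℝ) / 2) ^ m) hr0 hr1 (by
      rw [map_pow, map_div₀, map_one, map_ofNat]
      push_cast
      rfl) J
  have kpos := kap_pos hr0
  have klt := kap_lt hr0 hr1
  have k0 : ∀ j ≤ J, κ j ≠ 0 := by
    intro j hj h
    have h1 := hemb j hj
    rw [h, map_zero] at h1
    have h2 : kap (((1 : ℝ) / 2) ^ m) j = 0 := by exact_mod_cast h1.symm
    have := kpos j
    linarith
  have k1 : ∀ j ≤ J, κ j ≠ 1 := by
    intro j hj h
    have h1 := hemb j hj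
    rw [h, map_one] at h1
    have h2 : kap (((1 : ℝ) / 2) ^ m) j = 1 := by exact_mod_cast h1.symm
    have := klt j
    linarith
  have k2 : ∀ j ≤ J, κ j ≠ -1 := by
    intro j hj h
    have h1 := hemb j hj
    rw [h, map_neg, map_one] at h1
    have h2 : kap (((1 : ℝ) / 2) ^ m) j = -1 := by exact_mod_cast h1.symm
    have := kpos j
    linarith
  obtain ⟨e, he⟩ : ∃ e : Fin n → ℕ, e = fun i : Fin n => (n - 1 - (i : ℕ)) * B := ⟨_, rfl⟩
  have heJ : ∀ i, e i ≤ J := by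
    intro i
    rw [he, hJ]
    exact Nat.mul_le_mul_right B (Nat.sub_le _ _)
  -- the weights along the tower
  have hw : ∀ (v : HeightOneSpectrum (𝓞 M)), ord v (2 : M) = 0 → ∀ j ≤ J,
      w3 (κ j ^ 2) v = w3 (κ J ^ 2) v := by
    intro v hv2 j hj
    have h1 := w3_chain κ J hrel k0 k1 k2 v hv2 (J - j) (Nat.sub_le _ _)
    rw [Nat.sub_sub_self hj] at h1
    rw [← h1]
    exact (landen_w3 v hv2 (k0 j hj) (k1 j hj) (k2 j hj)).symm
  -- the roots
  obtain ⟨y, hy⟩ : ∃ y : Fin n → ℝ, y = fun i =>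
    (kap (((1 : ℝ) / 2) ^ m) (e i)) ^ ((1 / 2 : ℝ) ^ b) := ⟨_, rfl⟩
  have hypow : ∀ i, y i ^ (2 ^ b) = kap (((1 : ℝ) / 2) ^ m) (e i) := by
    intro i
    rw [hy]
    show ((kap (((1 : ℝ) / 2) ^ m) (e i)) ^ ((1 / 2 : ℝ) ^ b)) ^ (2 ^ b) = _
    rw [← Real.rpow_natCast, ← Real.rpow_mul (kpos _).le]
    have : (1 / 2 : ℝ) ^ b * ((2 ^ b : ℕ) : ℝ) = 1 := by
      push_cast
      rw [← mul_pow]
      norm_num
    rw [this, Real.rpow_one]
  obtain ⟨E, g1, g2, g3, τ, t, hτ, ht, hτt, hE, hDis⟩ := adj_family b n M σ (κ J ^ 2)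
    (fun i => κ (e i)) (pow_ne_zero 2 (k0 J le_rfl)) (fun i => k0 _ (heJ i)) (by
      intro i v hv2 hvs
      rw [← hw v hv2 (e i) (heJ i)]
      refine w3_ne ?_
      rw [ord_pow]
      exact mul_ne_zero (by norm_num) hvs) (fun i => (y i : ℂ)) (by
      intro i
      rw [hemb _ (heJ i), ← hypow i]
      push_cast
      rfl)
  let _ : Algebra K E := ((algebraMap M E).comp (algebraMap K M)).toAlgebra
  have hst : IsScalarTower K M E := IsScalarTower.of_algebraMap_eq fun _ => rfl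
  have hypos : ∀ i, 0 < y i := by
    intro i
    rw [hy]
    exact Real.rpow_pos_of_pos (kpos _) _
  have ht0 : ∀ i, t i ≠ 0 := by
    intro i h
    have h1 := hτt i
    rw [h, map_zero] at h1
    have h2 : y i = 0 := by exact_mod_cast h1.symm
    have := hypos i
    linarith
  have htm : ∀ i, t i ^ (2 ^ (b + 1)) = algebraMap M E (κ (e i) ^ 2) := by
    intro i
    rw [pow_succ, pow_mul, ht, map_pow]
  have ht1 : ∀ i, t i ^ (2 ^ (b + 1)) ≠ 1 := by
    intro i h
    rw [htm, ← map_one (algebraMap M E)] at h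
    have h1 := (algebraMap M E).injective h
    have h2 : (κ (e i) - 1) * (κ (e i) + 1) = 0 := by
      have e1 : (κ (e i) - 1) * (κ (e i) + 1) = κ (e i) ^ 2 - 1 := by ring
      rw [e1, h1, sub_self]
    rcases mul_eq_zero.1 h2 with h3 | h3
    · exact k1 _ (heJ i) (sub_eq_zero.1 h3)
    · exact k2 _ (heJ i) (eq_neg_of_add_eq_zero_left h3)
  refine ⟨E, g1, g2, inferInstance, τ, algebraMap M E (κ J ^ 2), t, ?_, ?_, ?_, ?_,
    fun i => ⟨ht0 i, ht1 i⟩, ?_, ?_, ?_⟩
  · have : (algebraMap K E) = (algebraMap M E).comp (algebraMap K M) := rfl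
    rw [this, ← RingHom.comp_assoc, hτ, hσ]
  · -- the polynomial
    obtain ⟨z, hz⟩ : ∃ z : ℝ, z = (((1 : ℝ) / 2) ^ m) ^ ((1 / 2 : ℝ) ^ (J + b)) := ⟨_, rfl⟩
    have hzpos : 0 < z := by
      rw [hz]
      exact Real.rpow_pos_of_pos hr0 _
    have hzJ : z ^ (2 ^ (J + b)) = ((1 : ℝ) / 2) ^ m := by
      rw [hz, ← Real.rpow_natCast, ← Real.rpow_mul hr0.le]
      have : (1 / 2 : ℝ) ^ (J + b) * ((2 ^ (J + b) : ℕ) : ℝ) = 1 := by
        push_cast
        rw [← mul_pow]
        norm_num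
      rw [this, Real.rpow_one]
    have hzz0 : z < z0 := by
      by_contra h
      have := pow_le_pow_left₀ hz0.le (not_lt.1 h) (2 ^ (J + b))
      rw [hzJ] at this
      linarith
    have hzi : ∀ i : Fin n, z ^ ((2 ^ B) ^ (i : ℕ)) =
        ((((1 : ℝ) / 2) ^ m) ^ ((1 / 2 : ℝ) ^ (e i))) ^ ((1 / 2 : ℝ) ^ b) := by
      intro i
      have hi : (i : ℕ) ≤ n - 1 := by have := i.2; omega
      have hJe : J = e i + i * B := by
        rw [hJ, he]
        show (n - 1) * B = (n - 1 - (i : ℕ)) * B + i * B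
        rw [← Nat.add_mul]
        congr 1
        omega
      rw [hz, ← Real.rpow_natCast, ← Real.rpow_mul hr0.le, ← Real.rpow_mul hr0.le]
      congr 1
      have e1 : J + b = e i + b + i * B := by omega
      rw [e1, pow_add, pow_add]
      push_cast
      rw [mul_assoc]
      have : (1 / 2 : ℝ) ^ ((i : ℕ) * B) * (2 ^ B) ^ (i : ℕ) = 1 := by
        rw [← pow_mul, mul_comm B, ← mul_pow]
        norm_num
      rw [this, mul_one]
    have hGy := hev z hzpos hzz0 y (by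
      intro i
      have h1 := kap_ge hr0 hr1 (e i)
      have h2 := kap_le hr0 hr1 (e i)
      have h3 := kpos (e i)
      rw [hzi i]
      obtain ⟨Z, hZ⟩ : ∃ Z, Z = (((1 : ℝ) / 2) ^ m) ^ ((1 / 2 : ℝ) ^ (e i)) := ⟨_, rfl⟩
      have hZ0 : 0 < Z := by
        rw [hZ]
        exact Real.rpow_pos_of_pos hr0 _
      rw [← hZ] at h1 h2
      rw [← hZ]
      have hp0 : (0 : ℝ) ≤ (1 / 2 : ℝ) ^ b := by positivity
      have hp1 : (1 / 2 : ℝ) ^ b ≤ 1 := pow_le_one₀ (by norm_num) (by norm_num)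
      have hyi : y i = kap (((1 : ℝ) / 2) ^ m) (e i) ^ ((1 / 2 : ℝ) ^ b) := by rw [hy]
      rw [hyi]
      refine ⟨Real.rpow_le_rpow hZ0.le h1 hp0, (Real.rpow_le_rpow h3.le h2 hp0).trans ?_⟩
      rw [Real.mul_rpow (by norm_num) hZ0.le]
      refine mul_le_mul_of_nonneg_right ?_ (Real.rpow_nonneg hZ0.le _)
      have h5 : (4 : ℝ) ^ ((1 / 2 : ℝ) ^ b) ≤ (4 : ℝ) ^ (1 : ℝ) :=
        Real.rpow_le_rpow_of_exponent_le (by norm_num) hp1
      rw [Real.rpow_one] at h5
      linarith)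
    have e1 : (fun i => τ (t i)) = fun i => (y i : ℂ) := by
      funext i
      exact hτt i
    rw [e1]
    exact hGy
  · rw [← Module.finrank_mul_finrank K M E, pow_add, ← hJ]
    exact Nat.mul_le_mul hdeg hE
  · exact (map_ne_zero _).2 (pow_ne_zero 2 (k0 J le_rfl))
  · -- the discriminant
    unfold Dis at hDis
    have d4 := sm_bottom K m hm'
    have e1 : (Module.finrank K E : ℝ) = Module.finrank K M * Module.finrank M E := by
      exact_mod_cast (Module.finrank_mul_finrank K M E).symm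
    have e2 : (Module.finrank ℚ M : ℝ) = Module.finrank ℚ K * Module.finrank K M := by
      exact_mod_cast (Module.finrank_mul_finrank ℚ K M).symm
    rw [e2] at hDis
    rw [e1]
    have hn : (0 : ℝ) ≤ Module.finrank M E := Nat.cast_nonneg _
    have hn1 : (0 : ℝ) ≤ Module.finrank K M := Nat.cast_nonneg _
    have h3 := mul_le_mul_of_nonneg_left hdisc hn
    have h4 := mul_le_mul_of_nonneg_left d4 (mul_nonneg hn1 hn)
    have h5 : 0 ≤ (Module.finrank K M : ℝ) * Module.finrank M E *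
        (Module.finrank ℚ K * (J * C)) := by positivity
    linarith
  · -- the heights
    intro i
    have h1 := ht_chain hC0 hC M κ J hrel k0 k2 (e i) (heJ i)
    have d6 : logHeight₁ (κ 0) = m * (Module.finrank ℚ M * Real.log 2) := by
      rw [hκ0, map_pow, logHeight₁_pow, map_div₀, map_one, map_ofNat, one_div, logHeight₁_inv,
        height_two]
    have h2 : (2 : ℝ) ^ b * logHeight₁ (t i) = Module.finrank M E * logHeight₁ (κ (e i)) := by
      have h3 : logHeight₁ (t i ^ (2 ^ b)) = 2 ^ b * logHeight₁ (t i) := by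
        rw [logHeight₁_pow]
        push_cast
        rfl
      rw [← h3, ht, ht_ext]
    rw [h2]
    have e1 : (Module.finrank ℚ E : ℝ) = Module.finrank ℚ M * Module.finrank M E := by
      exact_mod_cast (Module.finrank_mul_finrank ℚ M E).symm
    rw [e1]
    have hn : (0 : ℝ) ≤ Module.finrank M E := Nat.cast_nonneg _
    have hn1 : (0 : ℝ) ≤ Module.finrank ℚ M := Nat.cast_nonneg _
    rw [d6] at h1
    have h3 := mul_le_mul_of_nonneg_left h1 hn
    have h4 : (e i : ℝ) ≤ J := by exact_mod_cast heJ i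
    have h5 : (e i : ℝ) * C ≤ J * C := mul_le_mul_of_nonneg_right h4 hC0
    have h6 := mul_le_mul_of_nonneg_left h5 (mul_nonneg hn1 hn)
    have h7 : 0 ≤ (Module.finrank ℚ M : ℝ) * Module.finrank M E *
        ((1 + 6 * J + 3 * (b * n)) * Real.log 2) := by positivity
    linarith
  · -- the primes
    intro w hw2 hwx i
    rw [htm]
    obtain ⟨v, hv⟩ : ∃ v : HeightOneSpectrum (𝓞 M), v = w.under (𝓞 M) := ⟨_, rfl⟩
    have hl : w.asIdeal.LiesOver v.asIdeal := by
      rw [hv]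
      exact ⟨rfl⟩
    have he := ram_ne v w hl
    have ho := ord_above v w hl
    have he' : ((v.asIdeal.ramificationIdx' w.asIdeal : ℕ) : ℤ) ≠ 0 := by exact_mod_cast he
    have hv2 : ord v (2 : M) = 0 := by
      have h1 := ho 2
      rw [map_ofNat, hw2] at h1
      rcases mul_eq_zero.1 h1.symm with h2 | h2
      · exact absurd h2 he'
      · exact h2
    rw [w3_ext v w he ho, ← hw v hv2 (e i) (heJ i)] at hwx
    obtain ⟨h1, h2⟩ := w3_zero hwx
    constructor
    · have h3 : ord w (t i ^ (2 ^ (b + 1))) = 0 := by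
        rw [htm, ho, h1, mul_zero]
      rw [ord_pow] at h3
      rcases mul_eq_zero.1 h3 with h4 | h4
      · exact absurd h4 (by positivity)
      · exact h4
    · rw [← map_one (algebraMap M E), ← map_sub, ho, h2, mul_zero]

end Pool.Agent.H431.PN
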