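import Pool.Agent.H431.PN.Local
import Pool.Agent.H431.PN.Comp
import Pool.Graph.R_seed8.Helper259.HtExt

/-!
# Points of bounded degree on projective spaces
-/

set_option autoImplicit false

namespace Pool.Agent.H431.PN

open NumberField IsDedekindDomain Height Pool.Agent.Q290.NF IntermediateField
open Pool.Agent.H431.OC Pool.Agent.H431.MT

theorem val_above {k F : Type} [Field k] [NumberField k] [Field F] [NumberField F] [Algebra k F]
    (v : HeightOneSpectrum (𝓞 k)) (w : HeightOneSpectrum (𝓞 F))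
    (hw : w.asIdeal.LiesOver v.asIdeal) {x y : k} (h : v.valuation k x < v.valuation k y) :
    w.valuation F (algebraMap k F x) < w.valuation F (algebraMap k F y) := by
  rw [← HeightOneSpectrum.valuation_liesOver F v w, ← HeightOneSpectrum.valuation_liesOver F v w]
  exact pow_lt_pow_left₀ h zero_le (ram_ne v w hw)

theorem main (K : Type) [Field K] [NumberField K] (n b d : ℕ) (hd : 1 ≤ d)
    {ζ : K} (hζ : ζ ^ (2 ^ (b + 1)) = 1) (G : MvPolynomial (Fin (n + 1)) K) (hG : G ≠ 0)
    (hdeg : G.IsHomogeneous d) (c : ℝ) (hc : 2 ^ (b + 1) < c * n) (T : ℝ) :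
    ∃ (L : Type) (_ : Field L) (_ : NumberField L) (_ : Algebra K L) (P : Fin (n + 1) → L),
      adjoin K (Set.range P) = ⊤ ∧ P (Fin.last n) = 1 ∧
      Module.finrank K L ≤ (2 * d) ^ (n - 1) * (2 ^ b) ^ n ∧
      (∀ j, ∑ k, algebraMap K L (hyp n (2 ^ (b + 1)) ζ j k) * P k ≠ 0) ∧
      MvPolynomial.aeval P G ≠ 0 ∧
      ∀ R : Finset (HeightOneSpectrum (𝓞 L)), (∀ v ∈ R, ∃ j k,
        v.valuation L (∑ k, algebraMap K L (hyp n (2 ^ (b + 1)) ζ j k) * P k) <
          v.valuation L (P k)) →
        DD L + ∑ v ∈ R, ell v + Module.finrank K L * (T - DD K) < c * logHeight P := by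
  classical
  have hl : 0 < Real.log 2 := Real.log_pos (by norm_num)
  have hpb : (0 : ℝ) < 2 ^ b := by positivity
  have hcn : 2 * 2 ^ b < c * n := by
    rw [pow_succ] at hc
    linarith
  have hc0 : 0 < c := by
    by_contra h
    have := mul_nonpos_of_nonpos_of_nonneg (not_lt.1 h) (Nat.cast_nonneg (α := ℝ) n)
    linarith
  have hev : Even (2 ^ (b + 1)) := ⟨2 ^ b, by rw [pow_succ]; ring⟩
  have hm0 : 2 ^ (b + 1) ≠ 0 := by positivity
  obtain ⟨B, hB⟩ : ∃ B, B = Nat.log 2 d + 1 := ⟨_, rfl⟩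
  have hB1 : d < 2 ^ B := by
    rw [hB]
    exact Nat.lt_pow_succ_log_self (by norm_num) d
  have hB2 : 2 ^ B ≤ 2 * d := by
    rw [hB, pow_succ, mul_comm]
    exact Nat.mul_le_mul_left 2 (Nat.pow_log_le_self 2 (by omega))
  obtain ⟨φ⟩ : Nonempty (K →+* ℂ) := inferInstance
  have hGφ : MvPolynomial.map φ G ≠ 0 := by
    intro h
    exact hG (MvPolynomial.map_injective φ φ.injective (by rw [h, map_zero]))
  obtain ⟨H, hH, hHd, hHe⟩ := comp_poly n d (MvPolynomial.map φ G) hGφ (hdeg.map φ)
  obtain ⟨C, hC0, hcore⟩ := core K φ n b B H hH (fun a ha i => lt_of_le_of_lt (hHd a ha i) hB1)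
  obtain ⟨N, hN⟩ := exists_nat_gt ((2 ^ b * (C + Real.log 2 + |T| + c * cst n) + c * n * C) /
    ((c * n - 2 * 2 ^ b) * Real.log 2))
  rw [div_lt_iff₀ (mul_pos (by linarith) hl)] at hN
  obtain ⟨m, hNm, E, i1, i2, i3, σ, x, t, hσ, hHt, hdegE, hx0, ht01, hD, hht, hloc⟩ := hcore N
  have hNm' : (N : ℝ) ≤ m := by exact_mod_cast hNm
  obtain ⟨L, Q, hQ, hQtop⟩ := adjoin_top (K := K) (cf t)
  have fKE : Module.Finite K E := Module.Finite.of_restrictScalars_finite ℚ K E
  have nL : NumberField L := inferInstance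
  have hKL : Module.finrank K L * Module.finrank L E = Module.finrank K E :=
    Module.finrank_mul_finrank K L E
  have hLM0 : 0 < Module.finrank L E := Module.finrank_pos
  have hKL0 : 0 < Module.finrank K L := Module.finrank_pos
  have hK0 : 0 < Module.finrank ℚ K := Module.finrank_pos
  have halg : ∀ i, algebraMap L E (Q i) = cf t i := hQ
  have hsum : ∀ j, algebraMap L E (∑ k, algebraMap K L (hyp n (2 ^ (b + 1)) ζ j k) * Q k) =
      ∑ k, algebraMap K E (hyp n (2 ^ (b + 1)) ζ j k) * cf t k := by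
    intro j
    rw [map_sum]
    refine Finset.sum_congr rfl fun k _ => ?_
    rw [map_mul, halg, ← IsScalarTower.algebraMap_apply]
  refine ⟨L, inferInstance, nL, inferInstance, Q, hQtop, ?_, ?_, ?_, ?_, ?_⟩
  · apply (algebraMap L E).injective
    rw [halg, cf_last, map_one]
  · have h1 : Module.finrank K L ≤ Module.finrank K E := by
      rw [← hKL]
      exact Nat.le_mul_of_pos_right _ hLM0
    refine h1.trans (hdegE.trans ?_)
    rw [pow_add, mul_comm (n - 1) B, pow_mul, pow_mul]
    exact Nat.mul_le_mul (Nat.pow_le_pow_left hB2 _) le_rfl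
  · intro j h
    have h1 := hsum j
    rw [h, map_zero] at h1
    exact vals_ne hev hζ t ht01 j h1.symm
  · intro h
    apply hHt
    rw [hHe]
    have h1 : σ (algebraMap L E (MvPolynomial.aeval Q G)) = 0 := by rw [h, map_zero, map_zero]
    rw [← h1, MvPolynomial.eval_map, MvPolynomial.aeval_def, MvPolynomial.hom_eval₂,
      MvPolynomial.hom_eval₂]
    congr 1
    · rw [← hσ]
      rfl
    · funext i
      show cf (fun i => σ (t i)) i = σ (algebraMap L E (Q i))
      rw [halg, ← cfR_eq, ← cfR_eq, cfR_map]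
  · intro R hR
    obtain ⟨g, hg⟩ : ∃ g : HeightOneSpectrum (𝓞 E) → ℝ, g = fun w => w3 x w +
      max 0 (ord w ((2 : ℕ) : E) : ℝ) := ⟨_, rfl⟩
    have hgs : (Function.support g).Finite := by
      rw [hg]
      exact supp_add (supp_w3 _) (supp_zeros _)
    have hg0 : ∀ w, 0 ≤ g w := by
      intro w
      rw [hg]
      exact add_nonneg (w3_nonneg _ w) (le_max_left _ _)
    have d1 := descent R g hgs hg0 (by
      intro v hv w hw
      obtain ⟨j, k, hjk⟩ := hR v hv
      have h1 := val_above (F := E) v w hw hjk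
      rw [hsum, halg] at h1
      rw [hg]
      show 1 ≤ w3 x w + max 0 (ord w ((2 : ℕ) : E) : ℝ)
      by_cases h2 : ord w (2 : E) = 0
      · have h3 : w3 x w ≠ 0 := by
          intro h0
          obtain ⟨a1, a2⟩ := vals w hev hm0 hζ t ht01 (hloc w h2 h0)
          rw [a2 j] at h1
          exact absurd (a1 k) (not_le.2 h1)
        have h6 := w3_ge h3
        have h7 := le_max_left (0 : ℝ) (ord w ((2 : ℕ) : E) : ℝ)
        linarith
      · have h3 := nat_nonneg w 2
        have h4 : (1 : ℤ) ≤ ord w ((2 : ℕ) : E) := by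
          have : ord w ((2 : ℕ) : E) ≠ 0 := by exact_mod_cast h2
          omega
        have h5 : (1 : ℝ) ≤ (ord w ((2 : ℕ) : E) : ℝ) := by exact_mod_cast h4
        have h6 := le_max_right (0 : ℝ) (ord w ((2 : ℕ) : E) : ℝ)
        have h7 := w3_nonneg x w
        linarith)
    have d2 : sm g = sm (w3 x) +
        sm (fun w : HeightOneSpectrum (𝓞 E) => max 0 (ord w ((2 : ℕ) : E) : ℝ)) := by
      rw [hg]
      exact sm_add (supp_w3 _) (supp_zeros _)
    have d3 : sm (fun w : HeightOneSpectrum (𝓞 E) => max 0 (ord w ((2 : ℕ) : E) : ℝ)) ≤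
        Module.finrank ℚ E * Real.log 2 := by
      have h1 := (zeros_le (K := E) ((2 : ℕ) : E)).trans (height_nat two_ne_zero)
      exact h1
    have d4 := ht_prod t
    have d5 : logHeight (cf t) = Module.finrank L E * logHeight Q := by
      have h1 := Pool.Agent.Helper259.HtExt.logHeight_ext (K := L) (L := E) Q
      rw [← h1]
      congr 1
      funext i
      exact (halg i).symm
    have d6 : (n : ℝ) * (Module.finrank ℚ E * (m * Real.log 2 - C)) ≤
        2 ^ b * ∑ i, logHeight₁ (t i) := by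
      have := Finset.sum_le_sum fun (i : Fin n) (_ : i ∈ Finset.univ) => hht i
      rw [Finset.sum_const, Finset.card_univ, Fintype.card_fin, nsmul_eq_mul,
        ← Finset.mul_sum] at this
      exact this
    have tw : (totalWeight E : ℝ) = Module.finrank ℚ E := by
      exact_mod_cast NumberField.totalWeight_eq_finrank E
    rw [tw, d5] at d4
    obtain ⟨k, hk⟩ : ∃ k : ℝ, k = Module.finrank ℚ K := ⟨_, rfl⟩
    obtain ⟨p, hp⟩ : ∃ p : ℝ, p = Module.finrank K L := ⟨_, rfl⟩
    obtain ⟨q, hq⟩ : ∃ q : ℝ, q = Module.finrank L E := ⟨_, rfl⟩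
    have hk1 : 1 ≤ k := by
      rw [hk]
      exact_mod_cast hK0
    have hp1 : 0 < p := by
      rw [hp]
      exact_mod_cast hKL0
    have hq1 : 0 < q := by
      rw [hq]
      exact_mod_cast hLM0
    have hKM : (Module.finrank K E : ℝ) = p * q := by
      rw [hp, hq, ← hKL]
      push_cast
      rfl
    have hQM : (Module.finrank ℚ E : ℝ) = k * (p * q) := by
      rw [← hKM, hk]
      exact_mod_cast (Module.finrank_mul_finrank ℚ K E).symm
    rw [← hq, d2] at d1
    rw [hKM, ← hk] at hD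
    rw [hQM] at d3 d4 d6
    rw [← hq] at d4
    obtain ⟨S, hS⟩ : ∃ S : ℝ, S = ∑ i, logHeight₁ (t i) := ⟨_, rfl⟩
    rw [← hS] at d4 d6
    obtain ⟨h, hh⟩ : ∃ h : ℝ, h = logHeight Q := ⟨_, rfl⟩
    rw [← hh] at d4
    have d8 : k * p * (n * (m * Real.log 2 - C)) ≤ 2 ^ b * (h + k * p * cst n) := by
      have h1 := mul_le_mul_of_nonneg_left d4 hpb.le
      have h2 : q * (k * p * (n * (m * Real.log 2 - C))) ≤
          q * (2 ^ b * (h + k * p * cst n)) := by linarith
      exact le_of_mul_le_mul_left h2 hq1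
    have d9 : DD L + ∑ v ∈ R, ell v ≤
        p * DD K + k * p * (2 * m * Real.log 2 + C + Real.log 2) := by
      have h1 : q * (DD L + ∑ v ∈ R, ell v) ≤
          q * (p * DD K + k * p * (2 * m * Real.log 2 + C + Real.log 2)) := by linarith
      exact le_of_mul_le_mul_left h1 hq1
    have d10 : p * T ≤ k * p * |T| := by
      have h1 := le_abs_self T
      have h2 := abs_nonneg T
      have h3 : p * T ≤ p * |T| := mul_le_mul_of_nonneg_left h1 hp1.le
      have h4 : 1 * (p * |T|) ≤ k * (p * |T|) :=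
        mul_le_mul_of_nonneg_right hk1 (mul_nonneg hp1.le h2)
      linarith
    have d11 : 2 ^ b * (C + Real.log 2 + |T| + c * cst n) + c * n * C <
        m * ((c * n - 2 * 2 ^ b) * Real.log 2) := by
      refine hN.trans_le (mul_le_mul_of_nonneg_right hNm' ?_)
      exact (mul_pos (by linarith) hl).le
    have hkp : 0 < k * p := mul_pos (lt_of_lt_of_le one_pos hk1) hp1
    have d12 := mul_lt_mul_of_pos_left d11 hkp
    have d13 := mul_le_mul_of_nonneg_left d8 hc0.le
    rw [← hp, ← hh]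
    have d14 : 2 ^ b * (DD L + ∑ v ∈ R, ell v + p * (T - DD K)) < 2 ^ b * (c * h) := by
      have h1 : 2 ^ b * (DD L + ∑ v ∈ R, ell v + p * (T - DD K)) ≤
          2 ^ b * (k * p * (2 * m * Real.log 2 + C + Real.log 2) + k * p * |T|) :=
        mul_le_mul_of_nonneg_left (by linarith) hpb.le
      linarith
    exact lt_of_mul_lt_mul_left d14 hpb.le

end Pool.Agent.H431.PN
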