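import Pool.Agent.H431.PN.Form

/-!
# Arbitrary divisors of projective space containing `n + 2` hyperplanes in general position
-/

set_option autoImplicit false

namespace Pool.Agent.H431.PN

open NumberField IsDedekindDomain Height Pool.Agent.Q290.NF IntermediateField
open Pool.Agent.H431.OC Pool.Agent.H431.MT

/-- coordinates in which the `n + 2` hyperplanes are `x_0 = 0`, …, `x_n = 0` and
`x_0 + ⋯ + x_n = 0` -/
theorem normal_form {K : Type} [Field K] {n : ℕ} (a : Fin (n + 2) → Fin (n + 1) → K)
    (ha : ∀ f : Fin (n + 1) → Fin (n + 2), Function.Injective f →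
      LinearIndependent K (fun i => a (f i))) :
    ∃ (c : Fin (n + 1) → K) (B : Fin (n + 1) × Fin (n + 1) → K), (∀ i, c i ≠ 0) ∧
      (∀ k, a (Fin.last (n + 1)) k = ∑ j : Fin (n + 1), c j * a j.castSucc k) ∧
      (∀ k l, ∑ j, B (k, j) * (c j * a j.castSucc l) = if k = l then 1 else 0) ∧
      (∀ i j, ∑ k, c i * a i.castSucc k * B (k, j) = if i = j then 1 else 0) := by
  classical
  obtain ⟨A, hA⟩ : ∃ A : Matrix (Fin (n + 1)) (Fin (n + 1)) K,
    A = fun i k => a i.castSucc k := ⟨_, rfl⟩
  have hAu : IsUnit A := by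
    rw [← Matrix.linearIndependent_rows_iff_isUnit]
    have := ha Fin.castSucc (Fin.castSucc_injective _)
    rw [hA]
    exact this
  have hdet : IsUnit A.det := (Matrix.isUnit_iff_isUnit_det A).1 hAu
  obtain ⟨B0, hB0⟩ : ∃ B0 : Matrix (Fin (n + 1)) (Fin (n + 1)) K, B0 = A⁻¹ := ⟨_, rfl⟩
  have h1 : A * B0 = 1 := by
    rw [hB0]
    exact Matrix.mul_nonsing_inv A hdet
  have h2 : B0 * A = 1 := by
    rw [hB0]
    exact Matrix.nonsing_inv_mul A hdet
  have h1' : ∀ i j, ∑ k, a i.castSucc k * B0 k j = if i = j then 1 else 0 := by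
    intro i j
    have := congrFun (congrFun h1 i) j
    rw [Matrix.mul_apply, Matrix.one_apply, hA] at this
    exact this
  have h2' : ∀ i j : Fin (n + 1), ∑ k : Fin (n + 1), B0 i k * a k.castSucc j =
      if i = j then 1 else 0 := by
    intro i j
    have := congrFun (congrFun h2 i) j
    rw [Matrix.mul_apply, Matrix.one_apply, hA] at this
    exact this
  obtain ⟨c, hc⟩ : ∃ c : Fin (n + 1) → K, c = fun j => ∑ k, a (Fin.last (n + 1)) k * B0 k j :=
    ⟨_, rfl⟩
  have hlast : ∀ k, a (Fin.last (n + 1)) k = ∑ j : Fin (n + 1), c j * a j.castSucc k := by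
    intro k
    rw [hc]
    simp_rw [Finset.sum_mul]
    rw [Finset.sum_comm]
    simp_rw [mul_assoc, ← Finset.mul_sum, h2']
    simp
  have hc0 : ∀ j, c j ≠ 0 := by
    intro j hj
    -- the point where all the forms but `j` vanish
    have hx : ∀ i : Fin (n + 2), i ≠ j.castSucc → ∑ k, a i k * B0 k j = 0 := by
      intro i
      refine Fin.lastCases ?_ (fun i => ?_) i
      · intro _
        rw [hc] at hj
        exact hj
      · intro hij
        rw [h1', if_neg]
        intro h
        exact hij (by rw [h])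
    have h3 := ha j.castSucc.succAbove Fin.succAbove_right_injective
    obtain ⟨A2, hA2⟩ : ∃ A2 : Matrix (Fin (n + 1)) (Fin (n + 1)) K,
      A2 = fun i k => a (j.castSucc.succAbove i) k := ⟨_, rfl⟩
    have hA2u : IsUnit A2 := by
      rw [← Matrix.linearIndependent_rows_iff_isUnit, hA2]
      exact h3
    have h4 : A2.mulVec (fun k => B0 k j) = 0 := by
      funext i
      rw [hA2]
      exact hx _ (Fin.succAbove_ne _ _)
    have h5 : (fun k => B0 k j) = 0 := by
      have h6 := Matrix.mulVec_injective_of_isUnit hA2u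
      apply h6
      rw [h4, Matrix.mulVec_zero]
    have h6 := h1' j j
    rw [if_pos rfl] at h6
    have h7 : ∀ k, B0 k j = 0 := fun k => congrFun h5 k
    simp_rw [h7, mul_zero, Finset.sum_const_zero] at h6
    exact zero_ne_one h6
  refine ⟨c, fun p => B0 p.1 p.2 / c p.2, hc0, hlast, ?_, ?_⟩
  · intro k l
    rw [← h2' k l]
    refine Finset.sum_congr rfl fun j _ => ?_
    have := hc0 j
    show B0 k j / c j * (c j * a j.castSucc l) = _
    field_simp
  · intro i j
    rw [← mul_one (if i = j then (1 : K) else 0)]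
    have : ∑ k, c i * a i.castSucc k * (B0 k j / c j) =
        (∑ k, a i.castSucc k * B0 k j) * (c i / c j) := by
      rw [Finset.sum_mul]
      refine Finset.sum_congr rfl fun k _ => ?_
      ring
    rw [this, h1']
    by_cases hij : i = j
    · rw [if_pos hij, hij, div_self (hc0 j)]
    · rw [if_neg hij, zero_mul, zero_mul]

/-- the point `P` meets one of the `n + 2` hyperplanes, or the hypersurface `F = 0`, at `w` -/
def Mta {K : Type} [Field K] {n : ℕ} (a : Fin (n + 2) → Fin (n + 1) → K)
    (F : MvPolynomial (Fin (n + 1)) K) (q : ℕ) {L : Type} [Field L] [NumberField L] [Algebra K L]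
    (P : Fin (n + 1) → L) (w : HeightOneSpectrum (𝓞 L)) : Prop :=
  ∃ k, (∃ j, w.valuation L (∑ i, algebraMap K L (a j i) * P i) < w.valuation L (P k)) ∨
    w.valuation L (MvPolynomial.aeval P F) < w.valuation L (P k) ^ q

theorem main_arr (K : Type) [Field K] [NumberField K] (n d q : ℕ) (hd : 1 ≤ d)
    (a : Fin (n + 2) → Fin (n + 1) → K)
    (ha : ∀ f : Fin (n + 1) → Fin (n + 2), Function.Injective f →
      LinearIndependent K (fun i => a (f i)))
    (F : MvPolynomial (Fin (n + 1)) K) (hF : F ≠ 0) (hFh : F.IsHomogeneous q)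
    (G : MvPolynomial (Fin (n + 1)) K) (hG : G ≠ 0) (hGh : G.IsHomogeneous d) (c : ℝ)
    (hc : 1 < c * n) (T : ℝ) :
    ∃ (L : Type) (_ : Field L) (_ : NumberField L) (_ : Algebra K L) (P : Fin (n + 1) → L),
      adjoin K {x : L | ∃ i j, x = P i / P j} = ⊤ ∧
      Module.finrank K L ≤ (2 * (d + q)) ^ (n - 1) ∧
      (∀ j, ∑ i, algebraMap K L (a j i) * P i ≠ 0) ∧
      MvPolynomial.aeval P F ≠ 0 ∧ MvPolynomial.aeval P G ≠ 0 ∧
      ∀ R : Finset (HeightOneSpectrum (𝓞 L)), (∀ v ∈ R, Mta a F q P v) →
        DD L + ∑ v ∈ R, ell v + Module.finrank K L * (T - DD K) < (q + c) * logHeight P := by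
  classical
  have hc0 : 0 < c := by
    by_contra h
    have := mul_nonpos_of_nonpos_of_nonneg (not_lt.1 h) (Nat.cast_nonneg (α := ℝ) n)
    linarith
  obtain ⟨γ, B, hγ, hlast, hBA, hAB⟩ := normal_form a ha
  -- the polynomial in the new coordinates
  obtain ⟨g, hg⟩ : ∃ g : Fin (n + 1) → MvPolynomial (Fin (n + 1)) K,
    g = fun k => ∑ j, MvPolynomial.C (B (k, j)) * MvPolynomial.X j := ⟨_, rfl⟩
  obtain ⟨G1, hG1⟩ : ∃ G1, G1 = MvPolynomial.aeval g (G * F) := ⟨_, rfl⟩
  have hgh : ∀ k, (g k).IsHomogeneous 1 := by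
    intro k
    rw [hg]
    refine MvPolynomial.IsHomogeneous.sum _ _ _ fun j _ => ?_
    have := (MvPolynomial.isHomogeneous_C (Fin (n + 1)) (B (k, j))).mul
      (MvPolynomial.isHomogeneous_X K j)
    rwa [zero_add] at this
  have hG1h : G1.IsHomogeneous (d + q) := by
    have := (hGh.mul hFh).aeval g hgh
    rwa [one_mul, ← hG1] at this
  have hgev : ∀ (L : Type) [Field L] [Algebra K L] (P' : Fin (n + 1) → L),
      MvPolynomial.aeval P' G1 =
        MvPolynomial.aeval (fun k => ∑ j, algebraMap K L (B (k, j)) * P' j) (G * F) := by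
    intro L _ _ P'
    rw [hG1, MvPolynomial.comp_aeval_apply]
    congr 1
    congr 1
    funext k
    rw [hg]
    simp
  have hG10 : G1 ≠ 0 := by
    intro h
    have hGF : G * F ≠ 0 := mul_ne_zero hG hF
    apply hGF
    refine MvPolynomial.funext fun x => ?_
    rw [map_zero]
    have h1 := hgev K (fun j => γ j * ∑ l, a j.castSucc l * x l)
    rw [h, map_zero] at h1
    have h2 : (fun k => ∑ j, algebraMap K K (B (k, j)) * (γ j * ∑ l, a j.castSucc l * x l)) = x := by
      funext k
      have h3 : ∀ j, algebraMap K K (B (k, j)) * (γ j * ∑ l, a j.castSucc l * x l) =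
          ∑ l, B (k, j) * (γ j * a j.castSucc l) * x l := by
        intro j
        rw [Algebra.algebraMap_self, RingHom.id_apply, Finset.mul_sum, Finset.mul_sum]
        refine Finset.sum_congr rfl fun l _ => ?_
        ring
      simp_rw [h3]
      rw [Finset.sum_comm]
      simp_rw [← Finset.sum_mul, hBA]
      simp
    rw [h2] at h1
    have h3 : MvPolynomial.aeval x (G * F) = MvPolynomial.eval x (G * F) := by
      rw [MvPolynomial.aeval_def, Algebra.algebraMap_self]
      rfl
    rw [← h3, ← h1]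
  -- constants
  obtain ⟨C1, hC1, H1⟩ := lin_le (k := K) (ι := Fin (n + 1)) (ι' := Fin (n + 1))
    (fun p => γ p.1 * a p.1.castSucc p.2)
  obtain ⟨C2, hC2, H2⟩ := form_le K F hFh
  obtain ⟨N, hN, H3⟩ := exists_bad (Finset.univ.image B ∪ Finset.univ.image γ)
  obtain ⟨T', hT'⟩ : ∃ T' : ℝ, T' = T + Module.finrank ℚ K * (c * C1 + C2 + Real.log N) :=
    ⟨_, rfl⟩
  obtain ⟨L, i1, i2, i3, P', hgen, hsum, hdeg, hP0, hGP, hmain⟩ := main_abc K n (d + q) (by omega)
    G1 hG10 hG1h c hc T'
  obtain ⟨P, hP⟩ : ∃ P : Fin (n + 1) → L, P = fun k => ∑ j, algebraMap K L (B (k, j)) * P' j :=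
    ⟨_, rfl⟩
  rw [hgev L P', ← hP, map_mul] at hGP
  -- the values of the forms
  have hf1 : ∀ i : Fin (n + 1), algebraMap K L (γ i) *
      ∑ k, algebraMap K L (a i.castSucc k) * P k = P' i := by
    intro i
    rw [hP]
    simp_rw [Finset.mul_sum]
    rw [Finset.sum_comm]
    have h3 : ∀ j, ∑ k, algebraMap K L (γ i) * (algebraMap K L (a i.castSucc k) *
        (algebraMap K L (B (k, j)) * P' j)) = (if i = j then 1 else 0) * P' j := by
      intro j
      have h4 : (if i = j then (1 : L) else 0) = algebraMap K L (if i = j then 1 else 0) := by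
        split_ifs
        · rw [map_one]
        · rw [map_zero]
      rw [h4, ← hAB i j, map_sum, Finset.sum_mul]
      refine Finset.sum_congr rfl fun k _ => ?_
      rw [map_mul, map_mul]
      ring
    simp_rw [h3]
    simp
  have hf2 : ∑ k, algebraMap K L (a (Fin.last (n + 1)) k) * P k = 1 := by
    rw [← hsum]
    simp_rw [← hf1]
    simp_rw [hlast, map_sum, Finset.sum_mul, Finset.mul_sum]
    rw [Finset.sum_comm]
    refine Finset.sum_congr rfl fun i _ => Finset.sum_congr rfl fun k _ => ?_
    rw [map_mul]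
    ring
  have hγL : ∀ i, algebraMap K L (γ i) ≠ 0 := fun i => (map_ne_zero _).2 (hγ i)
  have hf3 : ∀ i : Fin (n + 1), ∑ k, algebraMap K L (a i.castSucc k) * P k ≠ 0 := by
    intro i h
    have h1 := hf1 i
    rw [h, mul_zero] at h1
    exact hP0 i h1.symm
  refine ⟨L, i1, i2, i3, P, ?_, hdeg, ?_, right_ne_zero_of_mul hGP, left_ne_zero_of_mul hGP, ?_⟩
  · -- the field
    obtain ⟨k0, hk0⟩ : ∃ k, P k ≠ 0 := by
      by_contra h
      push Not at h
      simp_rw [h, mul_zero, Finset.sum_const_zero] at hf2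
      exact zero_ne_one hf2
    rw [← top_le_iff, ← hgen, IntermediateField.adjoin_le_iff]
    have hmem : ∀ b : Fin (n + 1) → K, (∑ k, algebraMap K L (b k) * P k) / P k0 ∈
        adjoin K {x : L | ∃ i j, x = P i / P j} := by
      intro b
      rw [Finset.sum_div]
      refine sum_mem fun k _ => ?_
      rw [mul_div_assoc]
      exact mul_mem (IntermediateField.algebraMap_mem _ _)
        (IntermediateField.subset_adjoin K _ ⟨k, k0, rfl⟩)
    rintro x ⟨i, rfl⟩
    have h1 : P' i = algebraMap K L (γ i) *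
        ((∑ k, algebraMap K L (a i.castSucc k) * P k) / P k0) /
        ((∑ k, algebraMap K L (a (Fin.last (n + 1)) k) * P k) / P k0) := by
      rw [hf2, ← hf1 i]
      field_simp
    rw [h1]
    exact div_mem (mul_mem (IntermediateField.algebraMap_mem _ _) (hmem _)) (hmem _)
  · intro j
    refine Fin.lastCases ?_ (fun i => hf3 i) j
    rw [hf2]
    exact one_ne_zero
  · intro R hR
    obtain ⟨R1, hR1⟩ : ∃ R1, R1 = R.filter (fun w => ord w (N : L) = 0 ∧ ∃ k j,
      w.valuation L (∑ i, algebraMap K L (a j i) * P i) < w.valuation L (P k)) := ⟨_, rfl⟩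
    obtain ⟨R2, hR2⟩ : ∃ R2, R2 = R.filter (fun w => ord w (N : L) ≠ 0) := ⟨_, rfl⟩
    obtain ⟨R3, hR3⟩ : ∃ R3, R3 = R.filter (fun w => ∃ k,
      w.valuation L (MvPolynomial.aeval P F) < w.valuation L (P k) ^ q) := ⟨_, rfl⟩
    have hRs : R ⊆ R1 ∪ (R2 ∪ R3) := by
      intro w hw
      rw [Finset.mem_union, Finset.mem_union, hR1, hR2, hR3, Finset.mem_filter, Finset.mem_filter,
        Finset.mem_filter]
      obtain ⟨k, ⟨j, hj⟩ | hj⟩ := hR w hw
      · by_cases hN0 : ord w (N : L) = 0
        · left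
          exact ⟨hw, hN0, k, j, hj⟩
        · right; left
          exact ⟨hw, hN0⟩
      · right; right
        exact ⟨hw, k, hj⟩
    have s1 : ∑ v ∈ R, ell v ≤ ∑ v ∈ R1, ell v + (∑ v ∈ R2, ell v + ∑ v ∈ R3, ell v) := by
      refine (Finset.sum_le_sum_of_subset_of_nonneg hRs fun w _ _ => (ell_pos w).le).trans ?_
      have h1 := Finset.sum_union_inter (s₁ := R1) (s₂ := R2 ∪ R3) (f := fun w => ell w)
      have h2 := Finset.sum_union_inter (s₁ := R2) (s₂ := R3) (f := fun w => ell w)
      have h3 : 0 ≤ ∑ w ∈ R1 ∩ (R2 ∪ R3), ell w := Finset.sum_nonneg fun w _ => (ell_pos w).le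
      have h4 : 0 ≤ ∑ w ∈ R2 ∩ R3, ell w := Finset.sum_nonneg fun w _ => (ell_pos w).le
      linarith
    have s2 := hmain R1 (by
      intro w hw
      rw [hR1, Finset.mem_filter] at hw
      obtain ⟨-, hN0, k, j, hj⟩ := hw
      have hint := H3 L w hN0
      obtain ⟨k', hk'⟩ := Finite.exists_max fun i => w.valuation L (P' i)
      have h1 : w.valuation L (P k) ≤ w.valuation L (P' k') := by
        rw [hP]
        refine Valuation.map_sum_le _ fun i _ => ?_
        rw [map_mul]
        have h2 : w.valuation L (algebraMap K L (B (k, i))) ≤ 1 := by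
          rw [← ord_nonneg_iff]
          rw [hint _ (Finset.mem_union_left _ (Finset.mem_image_of_mem _ (Finset.mem_univ _)))]
        exact (mul_le_of_le_one_left' h2).trans (hk' i)
      refine ⟨k', ?_⟩
      revert hj
      refine Fin.lastCases ?_ (fun j => ?_) j
      · intro hj
        right
        rw [hsum, ← hf2]
        exact hj.trans_le h1
      · intro hj
        left
        refine ⟨j, ?_⟩
        have h2 : w.valuation L (algebraMap K L (γ j)) = 1 := by
          rw [← ord_eq_zero_iff w (hγL j)]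
          exact hint _ (Finset.mem_union_right _ (Finset.mem_image_of_mem _ (Finset.mem_univ _)))
        rw [← hf1 j, map_mul, h2, one_mul]
        exact hj.trans_le h1)
    have s3 : ∑ v ∈ R2, ell v ≤ Module.finrank ℚ L * Real.log N := by
      have h1 := (zeros_le (K := L) (N : L)).trans (height_nat hN)
      refine le_trans ?_ h1
      have h2 : ∑ v ∈ R2, ell v ≤ ∑ v ∈ R2, max 0 (ord v (N : L) : ℝ) * ell v := by
        refine Finset.sum_le_sum fun v hv => ?_
        rw [hR2, Finset.mem_filter] at hv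
        have h3 := nat_nonneg v N
        have h4 : 1 ≤ ord v (N : L) := by
          have := hv.2
          omega
        have h5 : (1 : ℝ) ≤ ord v (N : L) := by exact_mod_cast h4
        have h6 := ell_pos v
        rw [max_eq_right (by linarith)]
        nlinarith
      refine h2.trans ?_
      unfold sm
      rw [finsum_eq_sum_of_support_subset (s := (supp_mul (supp_zeros (N : L))).toFinset ∪ R2)]
      · refine Finset.sum_le_sum_of_subset_of_nonneg Finset.subset_union_right fun v _ _ => ?_
        exact mul_nonneg (le_max_left _ _) (ell_pos v).le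
      · rw [Finset.coe_union, Set.Finite.coe_toFinset]
        exact Set.subset_union_left
    have s4 := H2 L P R3 (right_ne_zero_of_mul hGP) (by
      intro w hw
      rw [hR3, Finset.mem_filter] at hw
      exact hw.2)
    have s5 := H1 L P
    have e1 : (fun j => ∑ i, algebraMap K L ((fun p : Fin (n + 1) × Fin (n + 1) =>
        γ p.1 * a p.1.castSucc p.2) (j, i)) * P i) = P' := by
      funext j
      rw [← hf1 j, Finset.mul_sum]
      refine Finset.sum_congr rfl fun i _ => ?_
      rw [map_mul]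
      ring
    rw [e1] at s5
    have s6 := mul_le_mul_of_nonneg_left s5 hc0.le
    have e2 : (Module.finrank ℚ L : ℝ) = Module.finrank ℚ K * Module.finrank K L := by
      exact_mod_cast (Module.finrank_mul_finrank ℚ K L).symm
    rw [e2] at s3 s4 s6
    rw [hT'] at s2
    linarith

end Pool.Agent.H431.PN
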