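import Pool.Agent.H431.PN.Core
import Pool.Agent.H431.PN.Ht

/-!
# The hyperplanes and their values at the points
-/

set_option autoImplicit false

namespace Pool.Agent.H431.PN

open NumberField IsDedekindDomain Height Pool.Agent.Q290.NF Polynomial
open Pool.Agent.H431.OC Pool.Agent.H431.MT

section hyp

variable {K : Type} [Field K]

/-- the hyperplanes: `P_0 = 0`, `P_n = 0` and `∑ ζ^(j k) P_k = 0` for `j < m` -/
noncomputable def hyp (n m : ℕ) (ζ : K) : Fin (m + 2) → Fin (n + 1) → K :=
  Fin.cons (Pi.single 0 1) (Fin.cons (Pi.single (Fin.last n) 1)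
    fun (j : Fin m) (k : Fin (n + 1)) => (ζ ^ (j : ℕ)) ^ (k : ℕ))

theorem sum_single {L : Type} [Field L] [Algebra K L] {n : ℕ} (i : Fin (n + 1))
    (P : Fin (n + 1) → L) :
    ∑ k, algebraMap K L ((Pi.single i 1 : Fin (n + 1) → K) k) * P k = P i := by
  rw [Finset.sum_eq_single i]
  · rw [Pi.single_eq_same, map_one, one_mul]
  · intro k _ hk
    rw [Pi.single_eq_of_ne hk, map_zero, zero_mul]
  · intro h
    exact absurd (Finset.mem_univ i) h

theorem cf_eval {n : ℕ} (t : Fin n → K) (u : K) :
    ∑ k : Fin (n + 1), u ^ (k : ℕ) * cf t k = ∏ i, (u + t i) := by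
  have h1 : (∏ i, (X + C (t i))).eval u = ∏ i, (u + t i) := by
    rw [eval_prod]
    refine Finset.prod_congr rfl fun i _ => ?_
    rw [eval_add, eval_X, eval_C]
  have h2 : (∏ i, (X + C (t i))).natDegree < n + 1 :=
    lt_of_le_of_lt (natDegree_prod_le t) (Nat.lt_succ_self n)
  rw [← h1, eval_eq_sum_range' h2, Finset.sum_range]
  refine Finset.sum_congr rfl fun k _ => ?_
  rw [mul_comm]
  rfl

theorem hyp_cf {L : Type} [Field L] [Algebra K L] {n m : ℕ} (ζ : K) (t : Fin n → L)
    (j : Fin (m + 2)) :
    ∑ k, algebraMap K L (hyp n m ζ j k) * cf t k = (∏ i, t i) ∨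
    ∑ k, algebraMap K L (hyp n m ζ j k) * cf t k = 1 ∨
    ∃ l : Fin m, ∑ k, algebraMap K L (hyp n m ζ j k) * cf t k =
      ∏ i, (algebraMap K L (ζ ^ (l : ℕ)) + t i) := by
  refine Fin.cases ?_ (fun j => Fin.cases ?_ (fun j => ?_) j) j
  · left
    unfold hyp
    rw [Fin.cons_zero, sum_single]
    have h := cf_eval t 0
    rw [Fin.sum_univ_succ] at h
    simp only [Fin.val_zero, pow_zero, one_mul, Fin.val_succ, ne_eq, Nat.add_eq_zero_iff,
      one_ne_zero, and_false, not_false_eq_true, zero_pow, zero_mul, Finset.sum_const_zero,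
      add_zero, zero_add] at h
    exact h
  · right; left
    unfold hyp
    rw [Fin.cons_succ, Fin.cons_zero, sum_single, cf_last]
  · right; right
    refine ⟨j, ?_⟩
    unfold hyp
    rw [Fin.cons_succ, Fin.cons_succ, ← cf_eval t]
    refine Finset.sum_congr rfl fun k _ => ?_
    rw [map_pow]

theorem hyp_zero (n m : ℕ) (ζ : K) (x : Fin (n + 1) → K) :
    ∑ k, hyp n m ζ 0 k * x k = x 0 := by
  have := sum_single (K := K) (L := K) 0 x
  exact this

theorem hyp_one (n m : ℕ) (ζ : K) (x : Fin (n + 1) → K) :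
    ∑ k, hyp n m ζ 1 k * x k = x (Fin.last n) := by
  have := sum_single (K := K) (L := K) (Fin.last n) x
  exact this

theorem hyp_succ (n m : ℕ) (ζ : K) (j : Fin m) (x : Fin (n + 1) → K) :
    ∑ k, hyp n m ζ j.succ.succ k * x k = ∑ k : Fin (n + 1), (ζ ^ (j : ℕ)) ^ (k : ℕ) * x k := rfl

/-- **general position** -/
theorem hyp_gen (n m : ℕ) (hn : 1 ≤ n) {ζ : K} (hζ : IsPrimitiveRoot ζ m)
    (f : Fin (n + 1) → Fin (m + 2)) (hf : Function.Injective f) :
    LinearIndependent K (fun i => hyp n m ζ (f i)) := by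
  classical
  have key : ∀ x : Fin (n + 1) → K, (∀ i, ∑ k, hyp n m ζ (f i) k * x k = 0) → x = 0 := by
    intro x hx
    obtain ⟨F, hF⟩ : ∃ F : K[X], F = ∑ k : Fin (n + 1), C (x k) * X ^ (k : ℕ) := ⟨_, rfl⟩
    have hFe : ∀ u, F.eval u = ∑ k : Fin (n + 1), u ^ (k : ℕ) * x k := by
      intro u
      rw [hF, eval_finsetSum]
      refine Finset.sum_congr rfl fun k _ => ?_
      rw [eval_C_mul, eval_pow, eval_X, mul_comm]
    have hFc : ∀ k : Fin (n + 1), F.coeff k = x k := by
      intro k
      rw [hF, finsetSum_coeff, Finset.sum_eq_single k]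
      · rw [coeff_C_mul, coeff_X_pow, if_pos rfl, mul_one]
      · intro l _ hl
        rw [coeff_C_mul, coeff_X_pow, if_neg (fun h => hl (Fin.ext h.symm)), mul_zero]
      · intro h
        exact absurd (Finset.mem_univ k) h
    have hFd : ∀ k, n < k → F.coeff k = 0 := by
      intro k hk
      rw [hF, finsetSum_coeff]
      refine Finset.sum_eq_zero fun l _ => ?_
      have := l.2
      rw [coeff_C_mul, coeff_X_pow, if_neg (by omega), mul_zero]
    -- the roots
    obtain ⟨ρ, hρ⟩ : ∃ ρ : Fin (m + 2) → K, ρ = Fin.cons 0 (Fin.cons 0 fun j : Fin m =>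
      ζ ^ (j : ℕ)) := ⟨_, rfl⟩
    have hroot : ∀ j : Fin (m + 2), j ≠ 1 → (∑ k, hyp n m ζ j k * x k = 0) → F.eval (ρ j) = 0 := by
      intro j
      refine Fin.cases ?_ (fun j => Fin.cases ?_ (fun j => ?_) j) j
      · intro _ h
        rw [hyp_zero] at h
        rw [hρ, Fin.cons_zero, ← coeff_zero_eq_eval_zero]
        have := hFc 0
        rw [← h, ← this]
        rfl
      · intro h
        exact absurd rfl h
      · intro _ h
        rw [hyp_succ] at h
        rw [hρ, Fin.cons_succ, Fin.cons_succ, hFe]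
        exact h
    have hinj : ∀ i j : Fin (m + 2), i ≠ 1 → j ≠ 1 → ρ i = ρ j → i = j := by
      intro i j
      refine Fin.cases ?_ (fun i => Fin.cases ?_ (fun i => ?_) i) i <;>
        refine Fin.cases ?_ (fun j => Fin.cases ?_ (fun j => ?_) j) j
      · intro _ _ _
        rfl
      · intro _ h _
        exact absurd rfl h
      · intro _ _ h
        rw [hρ, Fin.cons_zero, Fin.cons_succ, Fin.cons_succ] at h
        exact absurd h.symm (pow_ne_zero _ (hζ.ne_zero (by have := j.2; omega)))
      · intro h _ _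
        exact absurd rfl h
      · intro h _ _
        exact absurd rfl h
      · intro h _ _
        exact absurd rfl h
      · intro _ _ h
        rw [hρ, Fin.cons_zero, Fin.cons_succ, Fin.cons_succ] at h
        exact absurd h (pow_ne_zero _ (hζ.ne_zero (by have := i.2; omega)))
      · intro _ h _
        exact absurd rfl h
      · intro _ _ h
        rw [hρ, Fin.cons_succ, Fin.cons_succ, Fin.cons_succ, Fin.cons_succ] at h
        have := hζ.pow_inj i.2 j.2 h
        rw [Fin.ext this]
    obtain ⟨I, hI⟩ : ∃ I : Finset (Fin (n + 1)), I = Finset.univ.filter (fun i => f i ≠ 1) :=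
      ⟨_, rfl⟩
    have hcard : (I.image fun i => ρ (f i)).card = I.card := by
      refine Finset.card_image_of_injOn ?_
      intro i hi j hj h
      rw [hI, Finset.mem_coe, Finset.mem_filter] at hi hj
      exact hf (hinj _ _ hi.2 hj.2 h)
    have hzero : ∀ u ∈ I.image (fun i => ρ (f i)), F.eval u = 0 := by
      intro u hu
      obtain ⟨i, hi, rfl⟩ := Finset.mem_image.1 hu
      rw [hI, Finset.mem_filter] at hi
      exact hroot _ hi.2 (hx i)
    have hF0 : F = 0 := by
      by_cases h1 : ∃ i, f i = 1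
      · obtain ⟨i0, hi0⟩ := h1
        have hIc : n ≤ I.card := by
          have h2 : I = Finset.univ.erase i0 := by
            ext i
            rw [hI, Finset.mem_filter, Finset.mem_erase]
            constructor
            · rintro ⟨_, h⟩
              exact ⟨fun h' => h (by rw [h', hi0]), Finset.mem_univ _⟩
            · rintro ⟨h, _⟩
              exact ⟨Finset.mem_univ _, fun h' => h (hf (by rw [h', hi0]))⟩
          rw [h2, Finset.card_erase_of_mem (Finset.mem_univ _), Finset.card_univ,
            Fintype.card_fin]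
          omega
        have hlast : F.coeff n = 0 := by
          have h2 := hx i0
          rw [hi0, hyp_one] at h2
          have h3 := hFc (Fin.last n)
          rw [h2, Fin.val_last] at h3
          exact h3
        refine eq_zero_of_natDegree_lt_card_of_eval_eq_zero' F _ hzero ?_
        rw [hcard]
        refine lt_of_lt_of_le ?_ hIc
        by_contra h2
        rw [not_lt] at h2
        rcases Nat.lt_or_ge n F.natDegree with h3 | h3
        · have h4 := hFd _ h3
          rw [coeff_natDegree, leadingCoeff_eq_zero] at h4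
          rw [h4, natDegree_zero] at h3
          omega
        · have h4 : F.natDegree = n := le_antisymm h3 h2
          rw [← h4, coeff_natDegree, leadingCoeff_eq_zero] at hlast
          rw [hlast, natDegree_zero] at h4
          omega
      · have hIc : I = Finset.univ := by
          rw [hI, Finset.filter_true_of_mem]
          intro i _ h
          exact h1 ⟨i, h⟩
        refine eq_zero_of_natDegree_lt_card_of_eval_eq_zero' F _ hzero ?_
        rw [hcard, hIc, Finset.card_univ, Fintype.card_fin]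
        by_contra h2
        rw [not_lt] at h2
        have h4 := hFd F.natDegree (by omega)
        rw [coeff_natDegree, leadingCoeff_eq_zero] at h4
        rw [h4, natDegree_zero] at h2
        omega
    funext k
    rw [← hFc k, hF0, coeff_zero]
    rfl
  obtain ⟨A, hA⟩ : ∃ A : Matrix (Fin (n + 1)) (Fin (n + 1)) K, A = fun i => hyp n m ζ (f i) :=
    ⟨_, rfl⟩
  have h1 : Function.Injective A.mulVec := by
    intro x y hxy
    have h2 : x - y = 0 := by
      refine key _ fun i => ?_
      have h3 := congrFun hxy i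
      have h4 : A.mulVec (x - y) i = 0 := by
        rw [Matrix.mulVec_sub, Pi.sub_apply, h3, sub_self]
      rw [hA] at h4
      exact h4
    exact sub_eq_zero.1 h2
  have h2 := Matrix.mulVec_injective_iff_isUnit.1 h1
  have h3 := Matrix.linearIndependent_rows_iff_isUnit.2 h2
  rw [hA] at h3
  exact h3

end hyp

section loc

variable {E : Type} [Field E] [NumberField E] (w : HeightOneSpectrum (𝓞 E))

theorem sum_int {ι : Type} (s : Finset ι) (g : ι → E) (h : ∀ i ∈ s, 0 ≤ ord w (g i)) :
    0 ≤ ord w (∑ i ∈ s, g i) := by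
  classical
  induction s using Finset.induction_on with
  | empty =>
    rw [Finset.sum_empty, ord_zero]
  | insert a s ha ih =>
    rw [Finset.sum_insert ha]
    exact add_nonneg' w (h a (Finset.mem_insert_self _ _))
      (ih fun i hi => h i (Finset.mem_insert_of_mem hi))

theorem coeff_int {ι : Type} (s : Finset ι) (t : ι → E) (h : ∀ i, 0 ≤ ord w (t i)) :
    ∀ k, 0 ≤ ord w ((∏ i ∈ s, (X + C (t i))).coeff k) := by
  classical
  induction s using Finset.induction_on with
  | empty =>
    intro k
    rw [Finset.prod_empty, coeff_one]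
    split_ifs
    · exact (ord_one w).ge
    · exact (ord_zero w).ge
  | insert a s ha ih =>
    intro k
    rw [Finset.prod_insert ha, add_mul, coeff_add, coeff_C_mul]
    refine add_nonneg' w ?_ (mul_nonneg' w (h a) (ih k))
    cases k with
    | zero =>
      rw [mul_coeff_zero, coeff_X_zero, zero_mul, ord_zero]
    | succ k =>
      rw [coeff_X_mul]
      exact ih k

theorem ord_root {t u : E} {m : ℕ} (hm : Even m) (ht : ord w t = 0) (h1 : t ^ m ≠ 1)
    (ht1 : ord w (t ^ m - 1) = 0) (hu : u ^ m = 1) (hm0 : m ≠ 0) :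
    u + t ≠ 0 ∧ ord w (u + t) = 0 := by
  have hne : u + t ≠ 0 := by
    intro h
    apply h1
    rw [← hu, ← hm.neg_pow u]
    congr 1
    linear_combination h
  have hou : ord w u = 0 := by
    have h2 : ord w (u ^ m) = 0 := by rw [hu, ord_one]
    rw [ord_pow] at h2
    rcases mul_eq_zero.1 h2 with h3 | h3
    · exact absurd (by exact_mod_cast h3) hm0
    · exact h3
  refine ⟨hne, le_antisymm ?_ (add_nonneg' w hou.ge ht.ge)⟩
  have h2 := geom_sum₂_mul t (-u) m
  rw [hm.neg_pow, hu, sub_neg_eq_add, add_comm t u] at h2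
  have h3 : 0 ≤ ord w (∑ i ∈ Finset.range m, t ^ i * (-u) ^ (m - 1 - i)) := by
    refine sum_int w _ _ fun i _ => ?_
    refine mul_nonneg' w (pow_nonneg' w ht.ge _) (pow_nonneg' w ?_ _)
    rw [ord_neg, hou]
  have h4 : (∑ i ∈ Finset.range m, t ^ i * (-u) ^ (m - 1 - i)) ≠ 0 := by
    intro h
    rw [h, zero_mul] at h2
    exact h1 (sub_eq_zero.1 h2.symm)
  have h5 := ord_mul w h4 hne
  rw [h2, ht1] at h5
  omega

theorem val_eq_one {x : E} (hx : x ≠ 0) (h : ord w x = 0) : w.valuation E x = 1 :=
  (ord_eq_zero_iff w hx).1 h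

/-- the values of the forms at the point are units at the good primes -/
theorem vals {K : Type} [Field K] [Algebra K E] {n m : ℕ} (hm : Even m) (hm0 : m ≠ 0) {ζ : K}
    (hζ : ζ ^ m = 1) (t : Fin n → E) (h0 : ∀ i, t i ≠ 0 ∧ t i ^ m ≠ 1)
    (ht : ∀ i, ord w (t i) = 0 ∧ ord w (t i ^ m - 1) = 0) :
    (∀ k, w.valuation E (cf t k) ≤ 1) ∧
      ∀ j, w.valuation E (∑ k, algebraMap K E (hyp n m ζ j k) * cf t k) = 1 := by
  constructor
  · intro k
    rw [← ord_nonneg_iff]
    exact coeff_int w _ t (fun i => (ht i).1.ge) k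
  · intro j
    rcases hyp_cf (m := m) ζ t j with h | h | ⟨l, h⟩
    · rw [h, map_prod]
      exact Finset.prod_eq_one fun i _ => val_eq_one w (h0 i).1 (ht i).1
    · rw [h, map_one]
    · rw [h, map_prod]
      refine Finset.prod_eq_one fun i _ => ?_
      obtain ⟨h1, h2⟩ := ord_root w (u := algebraMap K E (ζ ^ (l : ℕ))) hm (ht i).1 (h0 i).2
        (ht i).2 (by rw [← map_pow, ← pow_mul, mul_comm, pow_mul, hζ, one_pow, map_one]) hm0
      exact val_eq_one w h1 h2

/-- the forms do not vanish at the point -/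
theorem vals_ne {K : Type} [Field K] [Algebra K E] {n m : ℕ} (hm : Even m) {ζ : K}
    (hζ : ζ ^ m = 1) (t : Fin n → E) (h0 : ∀ i, t i ≠ 0 ∧ t i ^ m ≠ 1) (j : Fin (m + 2)) :
    ∑ k, algebraMap K E (hyp n m ζ j k) * cf t k ≠ 0 := by
  rcases hyp_cf (m := m) ζ t j with h | h | ⟨l, h⟩
  · rw [h]
    exact Finset.prod_ne_zero_iff.2 fun i _ => (h0 i).1
  · rw [h]
    exact one_ne_zero
  · rw [h]
    refine Finset.prod_ne_zero_iff.2 fun i _ h1 => (h0 i).2 ?_
    have hu : (algebraMap K E (ζ ^ (l : ℕ))) ^ m = 1 := by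
      rw [← map_pow, ← pow_mul, mul_comm, pow_mul, hζ, one_pow, map_one]
    rw [← hu, ← hm.neg_pow (algebraMap K E (ζ ^ (l : ℕ)))]
    congr 1
    linear_combination h1

end loc

end Pool.Agent.H431.PN
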