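import Pool.Agent.H431.PN.Comp

/-!
# The points `(a_0, (1 - a_0) a_1, …, ∏ (1 - a_i))`
-/

set_option autoImplicit false

namespace Pool.Agent.H431.PN

open Height Height.AdmissibleAbsValues

/-- the point `(a_0, (1 - a_0) a_1, (1 - a_0) (1 - a_1) a_2, …, ∏ (1 - a_i))` -/
noncomputable def st {R : Type} [CommRing R] : ∀ {n : ℕ}, (Fin n → R) → Fin (n + 1) → R
  | 0, _ => fun _ => 1
  | _ + 1, a => Fin.cons (a 0) (fun j => (1 - a 0) * st (fun i => a i.succ) j)

theorem st_zero' {R : Type} [CommRing R] (a : Fin 0 → R) (j : Fin 1) : st a j = 1 := rfl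

theorem st_cons_zero {R : Type} [CommRing R] {n : ℕ} (a : Fin (n + 1) → R) : st a 0 = a 0 := rfl

theorem st_cons_succ {R : Type} [CommRing R] {n : ℕ} (a : Fin (n + 1) → R) (j : Fin (n + 1)) :
    st a j.succ = (1 - a 0) * st (fun i => a i.succ) j := rfl

theorem st_sum {R : Type} [CommRing R] : ∀ {n : ℕ} (a : Fin n → R), ∑ j, st a j = 1
  | 0, a => by
    rw [Fin.sum_univ_succ]
    simp [st_zero']
  | n + 1, a => by
    rw [Fin.sum_univ_succ, st_cons_zero]
    simp_rw [st_cons_succ]
    rw [← Finset.mul_sum, st_sum]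
    ring

theorem st_map {R S : Type} [CommRing R] [CommRing S] (f : R →+* S) :
    ∀ {n : ℕ} (a : Fin n → R) (j : Fin (n + 1)), f (st a j) = st (fun i => f (a i)) j
  | 0, a, j => by
    rw [st_zero', st_zero', map_one]
  | n + 1, a, j => by
    refine Fin.cases ?_ (fun j => ?_) j
    · rw [st_cons_zero, st_cons_zero]
    · rw [st_cons_succ, st_cons_succ, map_mul, map_sub, map_one, st_map f]

variable {K : Type} [Field K]

theorem st_ne : ∀ {n : ℕ} (a : Fin n → K), (∀ i, a i ≠ 0 ∧ a i ≠ 1) → ∀ j, st a j ≠ 0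
  | 0, a, _, j => by
    rw [st_zero']
    exact one_ne_zero
  | n + 1, a, h, j => by
    refine Fin.cases ?_ (fun j => ?_) j
    · rw [st_cons_zero]
      exact (h 0).1
    · rw [st_cons_succ]
      exact mul_ne_zero (sub_ne_zero.2 (Ne.symm (h 0).2)) (st_ne _ (fun i => h i.succ) j)

theorem st_ne_zero {n : ℕ} (a : Fin n → K) : st a ≠ 0 := by
  intro h
  have h1 := st_sum a
  rw [h] at h1
  simp at h1

/-- integrality -/
theorem st_int (v : AbsoluteValue K ℝ) (hv : IsNonarchimedean v) : ∀ {n : ℕ} (a : Fin n → K),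
    (∀ i, v (a i) ≤ 1) → ∀ j, v (st a j) ≤ 1
  | 0, a, _, j => by
    rw [st_zero', map_one]
  | n + 1, a, h, j => by
    refine Fin.cases ?_ (fun j => ?_) j
    · rw [st_cons_zero]
      exact h 0
    · rw [st_cons_succ, map_mul]
      refine mul_le_one₀ ?_ (v.nonneg _) (st_int v hv _ (fun i => h i.succ) j)
      rw [sub_eq_add_neg]
      refine (hv 1 (-(a 0))).trans (max_le (le_of_eq (map_one v)) ?_)
      rw [v.map_neg]
      exact h 0

variable [AdmissibleAbsValues K]

theorem ht_st_step {n : ℕ} (a : Fin (n + 1) → K)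
    (ha : ∀ v : AbsoluteValue K ℝ, v ∈ archAbsVal → v (a 0) ≤ 1 / 2)
    (hn : ∀ v : AbsoluteValue K ℝ, v ∈ nonarchAbsVal → ∀ j : Fin n, 1 < v (a j.succ) →
      v (a 0) < 1) :
    mulHeight₁ (a 0) * mulHeight (st (fun i : Fin n => a i.succ)) ≤
      2 ^ totalWeight K * mulHeight (st a) := by
  have h0 : (![a 0, 1] : Fin 2 → K) ≠ 0 := by
    intro h
    have := congrFun h 1
    simp at this
  rw [mulHeight₁_eq_mulHeight, ← mulHeight_fun_mul_eq h0 (st_ne_zero _)]
  refine cmp _ _ ?_ (st_ne_zero a) 2 (by norm_num) ?_ ?_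
  · intro h
    obtain ⟨j, hj⟩ := Function.ne_iff.1 (st_ne_zero (fun i : Fin n => a i.succ))
    have := congrFun h (1, j)
    simp only [Matrix.cons_val_one, Matrix.cons_val_fin_one, one_mul, Pi.zero_apply] at this
    exact hj this
  · rintro v hv ⟨i, j⟩
    have h1 := ha v hv
    have h2 : v (st a j.succ) ≤ ⨆ j, v (st a j) := Finite.le_ciSup_of_le j.succ le_rfl
    rw [st_cons_succ, map_mul] at h2
    have h3 : 1 - v (a 0) ≤ v (1 - a 0) := by
      have := v.le_sub 1 (a 0)
      rwa [map_one] at this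
    have h4 := v.nonneg (st (fun i : Fin n => a i.succ) j)
    have h5 : v (st (fun i : Fin n => a i.succ) j) ≤ 2 * ⨆ j, v (st a j) := by nlinarith
    fin_cases i
    · refine le_trans ?_ h5
      simp only [Fin.zero_eta, Matrix.cons_val_zero, map_mul]
      have := v.nonneg (a 0)
      nlinarith
    · simpa using h5
  · rintro v hv ⟨i, j⟩
    have hna := isNonarchimedean v hv
    have hn' := hn v hv
    have h2 : v (st a j.succ) ≤ ⨆ j, v (st a j) := Finite.le_ciSup_of_le j.succ le_rfl
    rw [st_cons_succ, map_mul] at h2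
    have h0' : v (a 0) ≤ ⨆ j, v (st a j) := Finite.le_ciSup_of_le (0 : Fin (n + 2)) le_rfl
    have h4 := v.nonneg (st (fun i : Fin n => a i.succ) j)
    have h5 := v.nonneg (a 0)
    have key : v (a 0 * st (fun i : Fin n => a i.succ) j) ≤ ⨆ j, v (st a j) ∧
        v (st (fun i : Fin n => a i.succ) j) ≤ ⨆ j, v (st a j) := by
      rw [map_mul]
      rcases lt_or_ge (v (a 0)) 1 with h | h
      · -- `1 - a 0` is a unit
        have h6 : v (1 - a 0) = 1 := by
          have h7 : v (1 - a 0) ≤ 1 := by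
            rw [sub_eq_add_neg]
            refine (hna 1 (-(a 0))).trans (max_le (le_of_eq (map_one v)) ?_)
            rw [v.map_neg]
            exact h.le
          have h8 : (1 : ℝ) ≤ max (v (1 - a 0)) (v (a 0)) := by
            have := hna (1 - a 0) (a 0)
            rwa [sub_add_cancel, map_one] at this
          rcases le_max_iff.1 h8 with h9 | h9
          · exact le_antisymm h7 h9
          · linarith
        rw [h6, one_mul] at h2
        exact ⟨(mul_le_of_le_one_left h4 h.le).trans h2, h2⟩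
      · have h6 : ∀ i : Fin n, v (a i.succ) ≤ 1 := by
          intro i
          by_contra h7
          exact absurd (hn' i (not_le.1 h7)) (not_lt.2 h)
        have h7 := st_int v hna (fun i : Fin n => a i.succ) h6 j
        exact ⟨(mul_le_of_le_one_right h5 h7).trans h0', (h7.trans h).trans h0'⟩
    fin_cases i
    · simpa using key.1
    · simpa using key.2

theorem ht_st : ∀ {n : ℕ} (a : Fin n → K),
    (∀ v : AbsoluteValue K ℝ, v ∈ archAbsVal → ∀ i, v (a i) ≤ 1 / 2) →
    (∀ v : AbsoluteValue K ℝ, v ∈ nonarchAbsVal → ∀ i j : Fin n, i < j → 1 < v (a j) →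
      v (a i) < 1) →
    ∑ i, logHeight₁ (a i) ≤ logHeight (st a) + totalWeight K * (n * Real.log 2)
  | 0, a, _, _ => by
    simp only [Finset.univ_eq_empty, Finset.sum_empty, Nat.cast_zero, zero_mul, mul_zero, add_zero]
    exact logHeight_nonneg _
  | n + 1, a, ha, hn => by
    have h1 := ht_st (fun i : Fin n => a i.succ) (fun v hv i => ha v hv i.succ)
      (fun v hv i j hij => hn v hv i.succ j.succ (Fin.succ_lt_succ_iff.2 hij))
    have h2 := Real.log_le_log (mul_pos (mulHeight₁_pos _) (mulHeight_pos _))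
      (ht_st_step a (fun v hv => ha v hv 0) (fun v hv j => hn v hv 0 j.succ (Fin.succ_pos j)))
    rw [Real.log_mul (mulHeight₁_pos _).ne' (mulHeight_pos _).ne',
      Real.log_mul (by positivity) (mulHeight_pos _).ne', Real.log_pow] at h2
    rw [Fin.sum_univ_succ]
    unfold logHeight₁ logHeight at h1 ⊢
    push_cast
    linarith

end Pool.Agent.H431.PN
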