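import Pool.Agent.H431.PN.Stick

/-!
# Forms at the points `(a_0, (1 - a_0) a_1, …, ∏ (1 - a_i))`
-/

set_option autoImplicit false

namespace Pool.Agent.H431.PN

open MvPolynomial

theorem st_deg {N : ℕ} (l : Fin N) : ∀ {n : ℕ} (f : Fin n → Fin N), Function.Injective f →
    ∀ j, (st (fun i => (X (f i) : MvPolynomial (Fin N) ℂ)) j).degreeOf l ≤ 1 ∧
      ((∀ i, f i ≠ l) → (st (fun i => (X (f i) : MvPolynomial (Fin N) ℂ)) j).degreeOf l = 0)
  | 0, f, _, j => by
    rw [st_zero', degreeOf_one]
    exact ⟨Nat.zero_le _, fun _ => rfl⟩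
  | n + 1, f, hf, j => by
    refine Fin.cases ?_ (fun j => ?_) j
    · rw [st_cons_zero]
      rw [degreeOf_X]
      constructor
      · split_ifs <;> omega
      · intro h
        rw [if_neg (Ne.symm (h 0))]
    · rw [st_cons_succ]
      have h1 := st_deg l (fun i : Fin n => f i.succ)
        (fun i j h => Fin.succ_injective _ (hf h)) j
      have h2 : degreeOf l (1 - X (f 0) : MvPolynomial (Fin N) ℂ) ≤ if l = f 0 then 1 else 0 := by
        refine (degreeOf_sub_le _ _ _).trans ?_
        rw [degreeOf_one, degreeOf_X]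
        exact max_le (Nat.zero_le _) le_rfl
      have h3 := degreeOf_mul_le l (1 - X (f 0) : MvPolynomial (Fin N) ℂ)
        (st (fun i : Fin n => X (f i.succ)) j)
      constructor
      · refine h3.trans ?_
        by_cases hl : l = f 0
        · rw [if_pos hl] at h2
          have h4 := h1.2 (by
            intro i h
            rw [hl] at h
            exact absurd (hf h) (Fin.succ_ne_zero i))
          omega
        · rw [if_neg hl] at h2
          have := h1.1
          omega
      · intro h
        rw [if_neg (Ne.symm (h 0))] at h2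
        have h4 := h1.2 (fun i => h i.succ)
        omega

/-- almost all vectors are multiples of points of this form -/
theorem exists_st : ∀ n : ℕ, ∃ T : MvPolynomial (Fin (n + 1)) ℂ, T ≠ 0 ∧
    ∀ v : Fin (n + 1) → ℂ, eval v T ≠ 0 → ∃ a : Fin n → ℂ, v = fun j => (∑ i, v i) * st a j
  | 0 => by
    refine ⟨1, one_ne_zero, fun v _ => ⟨fun i => i.elim0, ?_⟩⟩
    funext j
    rw [st_zero', mul_one, Fin.sum_univ_succ]
    simp only [Finset.univ_eq_empty, Finset.sum_empty, add_zero]
    congr 1
    exact Fin.eq_zero j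
  | n + 1 => by
    obtain ⟨T, hT, h⟩ := exists_st n
    refine ⟨(∑ j, X j) * rename Fin.succ T, mul_ne_zero ?_ ?_, ?_⟩
    · intro h0
      have h1 : eval (Pi.single 0 1 : Fin (n + 2) → ℂ) (∑ j, X j) = 0 := by rw [h0, map_zero]
      rw [map_sum] at h1
      simp at h1
    · intro h0
      exact hT (rename_injective _ (Fin.succ_injective _) (by rw [h0, map_zero]))
    · intro v hv
      rw [map_mul, map_sum, eval_rename] at hv
      simp only [eval_X] at hv
      have hS : ∑ i, v i ≠ 0 := left_ne_zero_of_mul hv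
      obtain ⟨a, ha⟩ := h (v ∘ Fin.succ) (right_ne_zero_of_mul hv)
      refine ⟨Fin.cons (v 0 / ∑ i, v i) a, ?_⟩
      funext j
      refine Fin.cases ?_ (fun j => ?_) j
      · rw [st_cons_zero, Fin.cons_zero]
        field_simp
      · rw [st_cons_succ, Fin.cons_zero]
        have h1 := congrFun ha j
        have h2 : (fun i : Fin n => (Fin.cons (v 0 / ∑ i, v i) a : Fin (n + 1) → ℂ) i.succ) = a := by
          funext i
          exact Fin.cons_succ _ _ _
        rw [h2]
        have h3 : ∑ i, v i = v 0 + ∑ i, (v ∘ Fin.succ) i := Fin.sum_univ_succ v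
        have h4 : (∑ i, v i) * ((1 - v 0 / ∑ i, v i) * st a j) =
            (∑ i, (v ∘ Fin.succ) i) * st a j := by
          have h5 : (∑ i, v i) * (1 - v 0 / ∑ i, v i) = ∑ i, (v ∘ Fin.succ) i := by
            rw [mul_sub, mul_one, mul_div_cancel₀ _ hS, h3]
            ring
          rw [← mul_assoc, h5]
        rw [h4]
        exact h1

theorem comp_st (n d : ℕ) (G : MvPolynomial (Fin (n + 1)) ℂ) (hG : G ≠ 0)
    (hd : G.IsHomogeneous d) :
    ∃ H : MvPolynomial (Fin n) ℂ, H ≠ 0 ∧ (∀ a ∈ H.support, ∀ i, a i ≤ d) ∧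
      ∀ t : Fin n → ℂ, eval t H = eval (st t) G := by
  classical
  obtain ⟨f, hf⟩ : ∃ f : Fin (n + 1) → MvPolynomial (Fin n) ℂ,
    f = fun j => st (fun i => (X i : MvPolynomial (Fin n) ℂ)) j := ⟨_, rfl⟩
  have hev : ∀ t : Fin n → ℂ, eval t (bind₁ f G) = eval (st t) G := by
    intro t
    have h1 := eval₂Hom_bind₁ (RingHom.id ℂ) t f G
    have h2 : ∀ j, eval₂Hom (RingHom.id ℂ) t (f j) = st t j := by
      intro j
      rw [hf]
      show eval₂Hom (RingHom.id ℂ) t (st (fun i => (X i : MvPolynomial (Fin n) ℂ)) j) = _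
      rw [st_map]
      congr 1
      funext i
      exact eval₂Hom_X' _ _ _
    have h3 : (fun j => eval₂Hom (RingHom.id ℂ) t (f j)) = st t := funext h2
    rw [h3] at h1
    exact h1
  refine ⟨bind₁ f G, ?_, ?_, hev⟩
  · intro h0
    obtain ⟨T, hT, hTv⟩ := exists_st n
    have h1 : ∀ v : Fin (n + 1) → ℂ, eval v (G * T) = eval v 0 := by
      intro v
      rw [map_mul, map_zero]
      by_cases hv : eval v T = 0
      · rw [hv, mul_zero]
      · obtain ⟨t, ht⟩ := hTv v hv
        have h2 : eval v G = (∑ i, v i) ^ d * eval (st t) G := by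
          conv_lhs => rw [ht]
          exact eval_hom hd _ _
        rw [h2, ← hev, h0, map_zero, mul_zero, zero_mul]
    have h2 := MvPolynomial.funext h1
    rcases mul_eq_zero.1 h2 with h3 | h3
    · exact hG h3
    · exact hT h3
  · intro a ha i
    refine (monomial_le_degreeOf i ha).trans ?_
    have h1 : bind₁ f G = ∑ α ∈ G.support, C (G.coeff α) * ∏ j ∈ α.support, f j ^ α j := by
      conv_lhs => rw [G.as_sum]
      rw [map_sum]
      refine Finset.sum_congr rfl fun α _ => ?_
      rw [bind₁_monomial]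
    rw [h1]
    refine (degreeOf_sum_le _ _ _).trans (Finset.sup_le fun α hα => ?_)
    refine (degreeOf_C_mul_le _ _ _).trans ((degreeOf_prod_le _ _ _).trans ?_)
    have h2 : ∀ j ∈ α.support, degreeOf i (f j ^ α j) ≤ α j := by
      intro j _
      refine (degreeOf_pow_le _ _ _).trans ?_
      have h3 : degreeOf i (f j) ≤ 1 := by
        rw [hf]
        exact (st_deg i (fun l : Fin n => l) (fun _ _ h => h) j).1
      calc α j * degreeOf i (f j) ≤ α j * 1 := Nat.mul_le_mul_left _ h3
        _ = α j := mul_one _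
    refine (Finset.sum_le_sum h2).trans ?_
    rw [sum_eq hd hα]

end Pool.Agent.H431.PN
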