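import Pool.Agent.H431.PN.Core
import Pool.Agent.H431.PN.StickPoly

/-!
# The tower and the absolute values
-/

set_option autoImplicit false

namespace Pool.Agent.H431.PN

open NumberField IsDedekindDomain Height Pool.Agent.Q290.NF IntermediateField
open Pool.Agent.H431.OC Pool.Agent.H431.MT

theorem csmall (u : ℕ → ℂ) (z : ℝ) (hz0 : 0 < z) (hz1 : z < 1) (J : ℕ) (hu0 : u 0 = (z : ℂ))
    (hrel : ∀ j < J, u (j + 1) ^ 2 = 4 * u j / (1 + u j) ^ 2)
    (hs : 16 * z ^ ((1 / 2 : ℝ) ^ J) ≤ 1 / 2) :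
    ∀ j ≤ J, ‖u j‖ ≤ 16 * z ^ ((1 / 2 : ℝ) ^ j) ∧ ‖u j‖ ≤ 1 / 2 := by
  have hle : ∀ j ≤ J, 16 * z ^ ((1 / 2 : ℝ) ^ j) ≤ 1 / 2 := by
    intro j hj
    refine le_trans ?_ hs
    refine mul_le_mul_of_nonneg_left ?_ (by norm_num)
    refine Real.rpow_le_rpow_of_exponent_ge hz0 hz1.le ?_
    exact pow_le_pow_of_le_one (by norm_num) (by norm_num) hj
  intro j
  induction j with
  | zero =>
    intro hj
    have h1 : ‖u 0‖ = z := by rw [hu0, Complex.norm_real, Real.norm_of_nonneg hz0.le]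
    have h2 := hle 0 hj
    rw [pow_zero, Real.rpow_one] at h2 ⊢
    rw [h1]
    constructor <;> linarith
  | succ j ih =>
    intro hj
    obtain ⟨h1, h2⟩ := ih (by omega)
    have h3 : (1 : ℝ) / 2 ≤ ‖1 + u j‖ := by
      have h4 := norm_sub_norm_le (1 : ℂ) (-u j)
      rw [sub_neg_eq_add, norm_neg, norm_one] at h4
      linarith
    have h4 : ‖u (j + 1)‖ ^ 2 = 4 * ‖u j‖ / ‖1 + u j‖ ^ 2 := by
      rw [← norm_pow, hrel j (by omega), norm_div, norm_mul, norm_pow]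
      norm_num
    have h5 : ‖u (j + 1)‖ ^ 2 ≤ 16 * ‖u j‖ := by
      rw [h4, div_le_iff₀ (by positivity)]
      have h6 := norm_nonneg (u j)
      have h7 : (1 : ℝ) / 4 ≤ ‖1 + u j‖ ^ 2 := by nlinarith
      nlinarith
    have h6 : (16 * z ^ ((1 / 2 : ℝ) ^ (j + 1))) ^ 2 = 256 * z ^ ((1 / 2 : ℝ) ^ j) := by
      have e1 : (1 / 2 : ℝ) ^ (j + 1) * ((2 : ℕ) : ℝ) = (1 / 2) ^ j := by
        rw [pow_succ]
        push_cast
        ring
      rw [mul_pow, ← Real.rpow_natCast (z ^ _), ← Real.rpow_mul hz0.le, e1]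
      norm_num
    have h7 : ‖u (j + 1)‖ ≤ 16 * z ^ ((1 / 2 : ℝ) ^ (j + 1)) := by
      have h8 : 0 ≤ 16 * z ^ ((1 / 2 : ℝ) ^ (j + 1)) := by positivity
      refine le_of_sq_le_sq ?_ h8
      rw [h6]
      linarith
    exact ⟨h7, h7.trans (hle _ hj)⟩

theorem non_step {M : Type} [Field M] (v : AbsoluteValue M ℝ) (hv : IsNonarchimedean v) (κ : ℕ → M)
    (J : ℕ) (hrel : ∀ j < J, κ (j + 1) ^ 2 = 4 * κ j / (1 + κ j) ^ 2) {j l : ℕ} (hjl : j < l)
    (hl : l ≤ J) (h : 1 < v (κ j)) : v (κ l) < 1 := by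
  have v2 : v 2 ≤ 1 := by
    have := hv 1 1
    rw [map_one, max_self] at this
    have e : (1 : M) + 1 = 2 := by norm_num
    rwa [e] at this
  have v4 : v 4 ≤ 1 := by
    have e : (4 : M) = 2 ^ 2 := by norm_num
    rw [e, map_pow]
    exact pow_le_one₀ (v.nonneg _) v2
  have s1 : ∀ i < J, 1 < v (κ i) → v (κ (i + 1)) < 1 := by
    intro i hi h1
    have h2 : v (κ i) ≤ v (1 + κ i) := by
      have h3 := hv (1 + κ i) (-1)
      have e : 1 + κ i + -1 = κ i := by ring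
      rw [e, v.map_neg, map_one] at h3
      rcases le_max_iff.1 h3 with h4 | h4
      · exact h4
      · linarith
    have h3 : v (κ (i + 1)) ^ 2 = v 4 * v (κ i) / v (1 + κ i) ^ 2 := by
      rw [← map_pow, hrel i hi, map_div₀, map_mul, map_pow]
    have h4 : v (κ (i + 1)) ^ 2 < 1 := by
      rw [h3, div_lt_one (by nlinarith)]
      have h5 := v.nonneg (κ i)
      nlinarith
    have h5 := v.nonneg (κ (i + 1))
    nlinarith
  have s2 : ∀ i < J, v (κ i) < 1 → v (κ (i + 1)) < 1 := by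
    intro i hi h1
    have h2 : 1 ≤ v (1 + κ i) := by
      have h3 := hv (1 + κ i) (-(κ i))
      have e : 1 + κ i + -(κ i) = 1 := by ring
      rw [e, v.map_neg, map_one] at h3
      rcases le_max_iff.1 h3 with h4 | h4
      · exact h4
      · linarith
    have h3 : v (κ (i + 1)) ^ 2 = v 4 * v (κ i) / v (1 + κ i) ^ 2 := by
      rw [← map_pow, hrel i hi, map_div₀, map_mul, map_pow]
    have h4 : v (κ (i + 1)) ^ 2 < 1 := by
      rw [h3, div_lt_one (by nlinarith)]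
      have h5 := v.nonneg (κ i)
      nlinarith
    have h5 := v.nonneg (κ (i + 1))
    nlinarith
  have key : ∀ i, j + 1 + i ≤ J → v (κ (j + 1 + i)) < 1 := by
    intro i
    induction i with
    | zero =>
      intro h1
      exact s1 j (by omega) h
    | succ i ih =>
      intro h1
      exact s2 (j + 1 + i) (by omega) (ih (by omega))
  have := key (l - (j + 1)) (by omega)
  rwa [show j + 1 + (l - (j + 1)) = l by omega] at this

theorem core_st (K : Type) [Field K] [NumberField K] (φ : K →+* ℂ) (n B : ℕ) (hB1 : 1 ≤ B)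
    (H : MvPolynomial (Fin n) ℂ) (hH : H ≠ 0) (hB : ∀ a ∈ H.support, ∀ i, a i < 2 ^ B) :
    ∃ C : ℝ, 0 ≤ C ∧ ∀ N : ℕ, ∃ m : ℕ, N ≤ m ∧
    ∃ (M : Type) (_ : Field M) (_ : NumberField M) (_ : Algebra K M) (σ : M →+* ℂ) (x : M)
      (a : Fin n → M), σ.comp (algebraMap K M) = φ ∧
      MvPolynomial.eval (fun i => σ (a i)) H ≠ 0 ∧
      Module.finrank K M ≤ 2 ^ ((n - 1) * B) ∧ x ≠ 0 ∧ (∀ i, a i ≠ 0 ∧ a i ≠ 1) ∧
      DD M + sm (w3 x) ≤ Module.finrank K M *
        (DD K + Module.finrank ℚ K * (2 * m * Real.log 2 + C)) ∧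
      (n : ℝ) * (Module.finrank ℚ M * (2 * m * Real.log 2 - C)) ≤ logHeight (st a) ∧
      (∀ w : HeightOneSpectrum (𝓞 M), ord w (2 : M) = 0 → w3 x w = 0 →
        ∀ i, ord w (a i) = 0 ∧ ord w (a i - 1) = 0) := by
  classical
  have hl : 0 < Real.log 2 := Real.log_pos (by norm_num)
  obtain ⟨J, hJ⟩ : ∃ J, J = (n - 1) * B := ⟨_, rfl⟩
  obtain ⟨z0, hz0, hev⟩ := eval_ne (b := 2 ^ B) H hH hB
  obtain ⟨C, hC0, hC⟩ := ht_mu
  refine ⟨2 * J * C + (1 + 6 * J) * Real.log 2, by positivity, fun N => ?_⟩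
  obtain ⟨z1, hz1⟩ : ∃ z1, z1 = min z0 (1 / 32 : ℝ) := ⟨_, rfl⟩
  have hz1pos : 0 < z1 := by
    rw [hz1]
    exact lt_min hz0 (by norm_num)
  obtain ⟨m1, hm1⟩ := exists_pow_lt_of_lt_one (pow_pos hz1pos (2 ^ J))
    (one_half_lt_one (α := ℝ))
  obtain ⟨m, hm⟩ : ∃ m, m = max 1 (max m1 N) := ⟨_, rfl⟩
  have hm' : 1 ≤ m := by omega
  have hmm1 : m1 ≤ m := by omega
  refine ⟨m, by omega, ?_⟩
  have hr0 : (0 : ℝ) < (1 / 2) ^ m := by positivity
  have hr1 : ((1 : ℝ) / 2) ^ m < 1 := pow_lt_one₀ (by norm_num) (by norm_num) (by omega)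
  have hrz : ((1 : ℝ) / 2) ^ m < z1 ^ (2 ^ J) :=
    (pow_le_pow_of_le_one (by norm_num) (by norm_num) hmm1).trans_lt hm1
  -- the number `z`
  obtain ⟨s, hs⟩ : ∃ s : ℝ, s = (((1 : ℝ) / 2) ^ m) ^ ((1 / 2 : ℝ) ^ J) := ⟨_, rfl⟩
  have hspos : 0 < s := by
    rw [hs]
    exact Real.rpow_pos_of_pos hr0 _
  have hsJ : s ^ (2 ^ J) = ((1 : ℝ) / 2) ^ m := by
    rw [hs, ← Real.rpow_natCast, ← Real.rpow_mul hr0.le]
    have : (1 / 2 : ℝ) ^ J * ((2 ^ J : ℕ) : ℝ) = 1 := by
      push_cast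
      rw [← mul_pow]
      norm_num
    rw [this, Real.rpow_one]
  have hsz1 : s < z1 := by
    by_contra h
    have := pow_le_pow_left₀ hz1pos.le (not_lt.1 h) (2 ^ J)
    rw [hsJ] at this
    linarith
  have hsz0 : s < z0 := hsz1.trans_le (by rw [hz1]; exact min_le_left _ _)
  have hs32 : s < 1 / 32 := hsz1.trans_le (by rw [hz1]; exact min_le_right _ _)
  obtain ⟨M, i1, i2, i3, σ, κ, hσ, hκ0, hrel, hemb, hdeg, hdisc⟩ :=
    tower K φ (((1 : K) / 2) ^ m) (((1 : ℝ) / 2) ^ m) hr0 hr1 (by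
      rw [map_pow, map_div₀, map_one, map_ofNat]
      push_cast
      rfl) J
  have kpos := kap_pos hr0
  have klt := kap_lt hr0 hr1
  have k0 : ∀ j ≤ J, κ j ≠ 0 := by
    intro j hj h
    have h1 := hemb j hj
    rw [h, map_zero] at h1
    have h2 : kap (((1 : ℝ) / 2) ^ m) j = 0 := by exact_mod_cast h1.symm
    have := kpos j
    linarith
  have k1 : ∀ j ≤ J, κ j ≠ 1 := by
    intro j hj h
    have h1 := hemb j hj
    rw [h, map_one] at h1
    have h2 : kap (((1 : ℝ) / 2) ^ m) j = 1 := by exact_mod_cast h1.symm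
    have := klt j
    linarith
  have k2 : ∀ j ≤ J, κ j ≠ -1 := by
    intro j hj h
    have h1 := hemb j hj
    rw [h, map_neg, map_one] at h1
    have h2 : kap (((1 : ℝ) / 2) ^ m) j = -1 := by exact_mod_cast h1.symm
    have := kpos j
    linarith
  obtain ⟨e, he⟩ : ∃ e : Fin n → ℕ, e = fun i : Fin n => (n - 1 - (i : ℕ)) * B := ⟨_, rfl⟩
  have heJ : ∀ i, e i ≤ J := by
    intro i
    rw [he, hJ]
    exact Nat.mul_le_mul_right B (Nat.sub_le _ _)
  have helt : ∀ i j : Fin n, i < j → e j < e i := by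
    intro i j hij
    have h1 : (i : ℕ) < j := hij
    have h2 := j.2
    rw [he]
    show (n - 1 - (j : ℕ)) * B < (n - 1 - (i : ℕ)) * B
    exact Nat.mul_lt_mul_of_pos_right (by omega) (by omega)
  -- the weights along the tower
  have hw : ∀ (v : HeightOneSpectrum (𝓞 M)), ord v (2 : M) = 0 → ∀ j ≤ J,
      w3 (κ j ^ 2) v = w3 (κ J ^ 2) v := by
    intro v hv2 j hj
    have h1 := w3_chain κ J hrel k0 k1 k2 v hv2 (J - j) (Nat.sub_le _ _)
    rw [Nat.sub_sub_self hj] at h1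
    rw [← h1]
    exact (landen_w3 v hv2 (k0 j hj) (k1 j hj) (k2 j hj)).symm
  have ha1 : ∀ j ≤ J, κ j ^ 2 ≠ 1 := by
    intro j hj h
    have h2 : (κ j - 1) * (κ j + 1) = 0 := by
      have e1 : (κ j - 1) * (κ j + 1) = κ j ^ 2 - 1 := by ring
      rw [e1, h, sub_self]
    rcases mul_eq_zero.1 h2 with h3 | h3
    · exact k1 _ hj (sub_eq_zero.1 h3)
    · exact k2 _ hj (eq_neg_of_add_eq_zero_left h3)
  refine ⟨M, i1, i2, i3, σ, κ J ^ 2, fun i => κ (e i) ^ 2, hσ, ?_, ?_, pow_ne_zero 2 (k0 J le_rfl),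
    fun i => ⟨pow_ne_zero 2 (k0 _ (heJ i)), ha1 _ (heJ i)⟩, ?_, ?_, ?_⟩
  · -- the polynomial
    obtain ⟨y, hy⟩ : ∃ y : Fin n → ℝ, y = fun i => kap (((1 : ℝ) / 2) ^ m) (e i) ^ 2 := ⟨_, rfl⟩
    have hsi : ∀ i : Fin n, (s ^ 2) ^ ((2 ^ B) ^ (i : ℕ)) =
        ((((1 : ℝ) / 2) ^ m) ^ ((1 / 2 : ℝ) ^ (e i))) ^ 2 := by
      intro i
      have hi : (i : ℕ) ≤ n - 1 := by have := i.2; omega
      have hJe : J = e i + i * B := by
        rw [hJ, he]
        show (n - 1) * B = (n - 1 - (i : ℕ)) * B + i * B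
        rw [← Nat.add_mul]
        congr 1
        omega
      rw [← pow_mul, mul_comm 2, pow_mul]
      congr 1
      rw [hs, ← Real.rpow_natCast, ← Real.rpow_mul hr0.le, hJe, pow_add]
      congr 1
      push_cast
      rw [mul_assoc]
      have : (1 / 2 : ℝ) ^ ((i : ℕ) * B) * (2 ^ B) ^ (i : ℕ) = 1 := by
        rw [← pow_mul, mul_comm B, ← mul_pow]
        norm_num
      rw [this, mul_one]
    have hGy := hev (s ^ 2) (by positivity) (by nlinarith) y (by
      intro i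
      have h1 := kap_ge hr0 hr1 (e i)
      have h2 := kap_le hr0 hr1 (e i)
      have h3 := kpos (e i)
      rw [hsi i]
      obtain ⟨Z, hZ⟩ : ∃ Z, Z = (((1 : ℝ) / 2) ^ m) ^ ((1 / 2 : ℝ) ^ (e i)) := ⟨_, rfl⟩
      have hZ0 : 0 < Z := by
        rw [hZ]
        exact Real.rpow_pos_of_pos hr0 _
      rw [← hZ] at h1 h2
      rw [← hZ]
      have hyi : y i = kap (((1 : ℝ) / 2) ^ m) (e i) ^ 2 := by rw [hy]
      rw [hyi]
      constructor <;> nlinarith)
    have e1 : (fun i => σ (κ (e i) ^ 2)) = fun i => (y i : ℂ) := by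
      funext i
      rw [map_pow, hemb _ (heJ i), hy]
      push_cast
      rfl
    rw [e1]
    exact hGy
  · rw [← hJ]
    exact hdeg
  · -- the discriminant
    have d4 := sm_bottom K m hm'
    have hn1 : (0 : ℝ) ≤ Module.finrank K M := Nat.cast_nonneg _
    have hk1 : (0 : ℝ) ≤ Module.finrank ℚ K := Nat.cast_nonneg _
    have h4 := mul_le_mul_of_nonneg_left d4 hn1
    have h5 : 0 ≤ (Module.finrank K M : ℝ) * (Module.finrank ℚ K * (2 * J * C)) := by positivity
    linarith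
  · -- the height
    have tw : (totalWeight M : ℝ) = Module.finrank ℚ M := by
      exact_mod_cast NumberField.totalWeight_eq_finrank M
    have h1 := ht_st (fun i => κ (e i) ^ 2) (by
      intro v hv i
      have h2 : IsInfinitePlace v := mem_multisetInfinitePlace.1 hv
      obtain ⟨ψ, hψ⟩ := h2
      have h3 := csmall (fun j => ψ (κ j)) (((1 : ℝ) / 2) ^ m) hr0 hr1 J (by
        show ψ (κ 0) = _
        rw [hκ0, map_pow, map_pow, map_div₀, map_div₀, map_one, map_one, map_ofNat, map_ofNat]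
        push_cast
        rfl) (by
        intro j hj
        show ψ (κ (j + 1)) ^ 2 = 4 * ψ (κ j) / (1 + ψ (κ j)) ^ 2
        rw [← map_pow, hrel j hj, map_div₀, map_mul, map_pow, map_add, map_one, map_ofNat]) (by
        rw [← hs]
        linarith) (e i) (heJ i)
      have h4 : v (κ (e i)) = ‖ψ (κ (e i))‖ := by
        rw [← hψ]
        rfl
      rw [map_pow, h4]
      have h5 := norm_nonneg (ψ (κ (e i)))
      have h6 := h3.2
      nlinarith) (by
      intro v hv i j hij h2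
      rw [map_pow] at h2 ⊢
      have hna := AdmissibleAbsValues.isNonarchimedean v hv
      have h3 : 1 < v (κ (e j)) := by
        by_contra h4
        have h5 := v.nonneg (κ (e j))
        nlinarith [not_lt.1 h4]
      have h4 := non_step v hna κ J hrel (helt i j hij) (heJ i) h3
      have h5 := v.nonneg (κ (e i))
      nlinarith)
    rw [tw] at h1
    have d6 : logHeight₁ (κ 0) = m * (Module.finrank ℚ M * Real.log 2) := by
      rw [hκ0, map_pow, logHeight₁_pow, map_div₀, map_one, map_ofNat, one_div, logHeight₁_inv,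
        height_two]
    have hn1 : (0 : ℝ) ≤ Module.finrank ℚ M := Nat.cast_nonneg _
    have h2 : ∀ i, Module.finrank ℚ M * (2 * m * Real.log 2 - 2 * J * C) ≤
        logHeight₁ (κ (e i) ^ 2) := by
      intro i
      have h3 := ht_chain hC0 hC M κ J hrel k0 k2 (e i) (heJ i)
      rw [logHeight₁_pow]
      rw [d6] at h3
      have h4 : (e i : ℝ) ≤ J := by exact_mod_cast heJ i
      have h5 : (e i : ℝ) * C ≤ J * C := mul_le_mul_of_nonneg_right h4 hC0
      have h6 := mul_le_mul_of_nonneg_left h5 hn1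
      push_cast
      linarith
    have h3 := Finset.sum_le_sum fun (i : Fin n) (_ : i ∈ Finset.univ) => h2 i
    rw [Finset.sum_const, Finset.card_univ, Fintype.card_fin, nsmul_eq_mul] at h3
    have h4 : 0 ≤ (n : ℝ) * (Module.finrank ℚ M * (6 * J * Real.log 2)) := by positivity
    linarith
  · -- the primes
    intro w hw2 hwx i
    rw [← hw w hw2 (e i) (heJ i)] at hwx
    exact w3_zero hwx

end Pool.Agent.H431.PN
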