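import Pool.Agent.H431.PN.StickCore
import Pool.Agent.H431.PN.CovFin

/-!
# Points of bounded degree: `n + 2` hyperplanes, and Fermat hypersurfaces
-/

set_option autoImplicit false

namespace Pool.Agent.H431.PN

open NumberField IsDedekindDomain Height Pool.Agent.Q290.NF IntermediateField
open Pool.Agent.H431.OC Pool.Agent.H431.MT

theorem st_unit {M : Type} [Field M] [NumberField M] (w : HeightOneSpectrum (𝓞 M)) :
    ∀ {n : ℕ} (a : Fin n → M), (∀ i, a i ≠ 0 ∧ a i ≠ 1) →
    (∀ i, ord w (a i) = 0 ∧ ord w (a i - 1) = 0) → ∀ j, ord w (st a j) = 0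
  | 0, a, _, _, j => by
    rw [st_zero', ord_one]
  | n + 1, a, h0, h, j => by
    refine Fin.cases ?_ (fun j => ?_) j
    · rw [st_cons_zero]
      exact (h 0).1
    · rw [st_cons_succ, ord_mul w (sub_ne_zero.2 (Ne.symm (h0 0).2))
        (st_ne _ (fun i => h0 i.succ) j), ord_sub_comm, (h 0).2,
        st_unit w _ (fun i => h0 i.succ) (fun i => h i.succ) j]
      rfl

/-- the point `P` and the `n + 2` hyperplanes meet at `w` -/
def Mt {L : Type} [Field L] [NumberField L] {n : ℕ} (P : Fin (n + 1) → L)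
    (w : HeightOneSpectrum (𝓞 L)) : Prop :=
  ∃ k, (∃ j, w.valuation L (P j) < w.valuation L (P k)) ∨
    w.valuation L (∑ j, P j) < w.valuation L (P k)

theorem main_abc (K : Type) [Field K] [NumberField K] (n d : ℕ) (hd : 1 ≤ d)
    (G : MvPolynomial (Fin (n + 1)) K) (hG : G ≠ 0) (hdeg : G.IsHomogeneous d) (c : ℝ)
    (hc : 1 < c * n) (T : ℝ) :
    ∃ (L : Type) (_ : Field L) (_ : NumberField L) (_ : Algebra K L) (P : Fin (n + 1) → L),
      adjoin K (Set.range P) = ⊤ ∧ ∑ j, P j = 1 ∧ Module.finrank K L ≤ (2 * d) ^ (n - 1) ∧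
      (∀ j, P j ≠ 0) ∧ MvPolynomial.aeval P G ≠ 0 ∧
      ∀ R : Finset (HeightOneSpectrum (𝓞 L)), (∀ v ∈ R, Mt P v) →
        DD L + ∑ v ∈ R, ell v + Module.finrank K L * (T - DD K) < c * logHeight P := by
  classical
  have hl : 0 < Real.log 2 := Real.log_pos (by norm_num)
  have hc0 : 0 < c := by
    by_contra h
    have := mul_nonpos_of_nonpos_of_nonneg (not_lt.1 h) (Nat.cast_nonneg (α := ℝ) n)
    linarith
  obtain ⟨B, hB⟩ : ∃ B, B = Nat.log 2 d + 1 := ⟨_, rfl⟩
  have hB1 : d < 2 ^ B := by
    rw [hB]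
    exact Nat.lt_pow_succ_log_self (by norm_num) d
  have hB2 : 2 ^ B ≤ 2 * d := by
    rw [hB, pow_succ, mul_comm]
    exact Nat.mul_le_mul_left 2 (Nat.pow_log_le_self 2 (by omega))
  obtain ⟨φ⟩ : Nonempty (K →+* ℂ) := inferInstance
  have hGφ : MvPolynomial.map φ G ≠ 0 := by
    intro h
    exact hG (MvPolynomial.map_injective φ φ.injective (by rw [h, map_zero]))
  obtain ⟨H, hH, hHd, hHe⟩ := comp_st n d (MvPolynomial.map φ G) hGφ (hdeg.map φ)
  obtain ⟨C, hC0, hcore⟩ := core_st K φ n B (by omega) H hH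
    (fun a ha i => lt_of_le_of_lt (hHd a ha i) hB1)
  obtain ⟨N, hN⟩ := exists_nat_gt ((C + Real.log 2 + |T| + c * n * C) /
    ((c * n - 1) * (2 * Real.log 2)))
  rw [div_lt_iff₀ (mul_pos (by linarith) (by linarith))] at hN
  obtain ⟨m, hNm, E, i1, i2, i3, σ, x, a, hσ, hHa, hdegE, hx0, ha01, hD, hht, hloc⟩ := hcore N
  have hNm' : (N : ℝ) ≤ m := by exact_mod_cast hNm
  obtain ⟨L, Q, hQ, hQtop⟩ := adjoin_top (K := K) (st a)
  have fKE : Module.Finite K E := Module.Finite.of_restrictScalars_finite ℚ K E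
  have nL : NumberField L := inferInstance
  have hKL : Module.finrank K L * Module.finrank L E = Module.finrank K E :=
    Module.finrank_mul_finrank K L E
  have hLM0 : 0 < Module.finrank L E := Module.finrank_pos
  have hKL0 : 0 < Module.finrank K L := Module.finrank_pos
  have hK0 : 0 < Module.finrank ℚ K := Module.finrank_pos
  have halg : ∀ i, algebraMap L E (Q i) = st a i := hQ
  have hsum : ∑ j, Q j = 1 := by
    apply (algebraMap L E).injective
    rw [map_sum, map_one, ← st_sum a]
    exact Finset.sum_congr rfl fun j _ => halg j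
  refine ⟨L, inferInstance, nL, inferInstance, Q, hQtop, hsum, ?_, ?_, ?_, ?_⟩
  · have h1 : Module.finrank K L ≤ Module.finrank K E := by
      rw [← hKL]
      exact Nat.le_mul_of_pos_right _ hLM0
    refine h1.trans (hdegE.trans ?_)
    rw [mul_comm (n - 1) B, pow_mul]
    exact Nat.pow_le_pow_left hB2 _
  · intro j h
    have h1 := halg j
    rw [h, map_zero] at h1
    exact st_ne a ha01 j h1.symm
  · intro h
    apply hHa
    rw [hHe]
    have h1 : σ (algebraMap L E (MvPolynomial.aeval Q G)) = 0 := by rw [h, map_zero, map_zero]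
    rw [← h1, MvPolynomial.eval_map, MvPolynomial.aeval_def, MvPolynomial.hom_eval₂,
      MvPolynomial.hom_eval₂]
    congr 1
    · rw [← hσ]
      rfl
    · funext i
      show st (fun i => σ (a i)) i = σ (algebraMap L E (Q i))
      rw [halg, st_map]
  · intro R hR
    obtain ⟨g, hg⟩ : ∃ g : HeightOneSpectrum (𝓞 E) → ℝ, g = fun w => w3 x w +
      max 0 (ord w ((2 : ℕ) : E) : ℝ) := ⟨_, rfl⟩
    have hgs : (Function.support g).Finite := by
      rw [hg]
      exact supp_add (supp_w3 _) (supp_zeros _)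
    have hg0 : ∀ w, 0 ≤ g w := by
      intro w
      rw [hg]
      exact add_nonneg (w3_nonneg _ w) (le_max_left _ _)
    have d1 := descent R g hgs hg0 (by
      intro v hv w hw
      rw [hg]
      show 1 ≤ w3 x w + max 0 (ord w ((2 : ℕ) : E) : ℝ)
      by_cases h2 : ord w (2 : E) = 0
      · have h3 : w3 x w ≠ 0 := by
          intro h0
          have h4 := st_unit w a ha01 (hloc w h2 h0)
          have h5 : ∀ j, w.valuation E (algebraMap L E (Q j)) = 1 := by
            intro j
            rw [halg]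
            exact (ord_eq_zero_iff w (st_ne a ha01 j)).1 (h4 j)
          obtain ⟨k, ⟨j, hjk⟩ | hjk⟩ := hR v hv
          · have h6 := val_above (F := E) v w hw hjk
            rw [h5, h5] at h6
            exact lt_irrefl _ h6
          · have h6 := val_above (F := E) v w hw hjk
            rw [hsum, h5, map_one, map_one] at h6
            exact lt_irrefl _ h6
        have h6 := w3_ge h3
        have h7 := le_max_left (0 : ℝ) (ord w ((2 : ℕ) : E) : ℝ)
        linarith
      · have h3 := nat_nonneg w 2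
        have h4 : (1 : ℤ) ≤ ord w ((2 : ℕ) : E) := by
          have : ord w ((2 : ℕ) : E) ≠ 0 := by exact_mod_cast h2
          omega
        have h5 : (1 : ℝ) ≤ (ord w ((2 : ℕ) : E) : ℝ) := by exact_mod_cast h4
        have h6 := le_max_right (0 : ℝ) (ord w ((2 : ℕ) : E) : ℝ)
        have h7 := w3_nonneg x w
        linarith)
    have d2 : sm g = sm (w3 x) +
        sm (fun w : HeightOneSpectrum (𝓞 E) => max 0 (ord w ((2 : ℕ) : E) : ℝ)) := by
      rw [hg]
      exact sm_add (supp_w3 _) (supp_zeros _)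
    have d3 : sm (fun w : HeightOneSpectrum (𝓞 E) => max 0 (ord w ((2 : ℕ) : E) : ℝ)) ≤
        Module.finrank ℚ E * Real.log 2 := by
      have h1 := (zeros_le (K := E) ((2 : ℕ) : E)).trans (height_nat two_ne_zero)
      exact h1
    have d5 : logHeight (st a) = Module.finrank L E * logHeight Q := by
      have h1 := Pool.Agent.Helper259.HtExt.logHeight_ext (K := L) (L := E) Q
      rw [← h1]
      congr 1
      funext i
      exact (halg i).symm
    obtain ⟨k, hk⟩ : ∃ k : ℝ, k = Module.finrank ℚ K := ⟨_, rfl⟩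
    obtain ⟨p, hp⟩ : ∃ p : ℝ, p = Module.finrank K L := ⟨_, rfl⟩
    obtain ⟨q, hq⟩ : ∃ q : ℝ, q = Module.finrank L E := ⟨_, rfl⟩
    have hk1 : 1 ≤ k := by
      rw [hk]
      exact_mod_cast hK0
    have hp1 : 0 < p := by
      rw [hp]
      exact_mod_cast hKL0
    have hq1 : 0 < q := by
      rw [hq]
      exact_mod_cast hLM0
    have hKM : (Module.finrank K E : ℝ) = p * q := by
      rw [hp, hq, ← hKL]
      push_cast
      rfl
    have hQM : (Module.finrank ℚ E : ℝ) = k * (p * q) := by
      rw [← hKM, hk]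
      exact_mod_cast (Module.finrank_mul_finrank ℚ K E).symm
    rw [← hq, d2] at d1
    rw [hKM, ← hk] at hD
    rw [hQM] at d3 hht
    rw [d5, ← hq] at hht
    obtain ⟨h, hh⟩ : ∃ h : ℝ, h = logHeight Q := ⟨_, rfl⟩
    rw [← hh] at hht
    have d8 : k * p * (n * (2 * m * Real.log 2 - C)) ≤ h := by
      have h2 : q * (k * p * (n * (2 * m * Real.log 2 - C))) ≤ q * h := by linarith
      exact le_of_mul_le_mul_left h2 hq1
    have d9 : DD L + ∑ v ∈ R, ell v ≤
        p * DD K + k * p * (2 * m * Real.log 2 + C + Real.log 2) := by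
      have h1 : q * (DD L + ∑ v ∈ R, ell v) ≤
          q * (p * DD K + k * p * (2 * m * Real.log 2 + C + Real.log 2)) := by linarith
      exact le_of_mul_le_mul_left h1 hq1
    have d10 : p * T ≤ k * p * |T| := by
      have h1 := le_abs_self T
      have h2 := abs_nonneg T
      have h3 : p * T ≤ p * |T| := mul_le_mul_of_nonneg_left h1 hp1.le
      have h4 : 1 * (p * |T|) ≤ k * (p * |T|) :=
        mul_le_mul_of_nonneg_right hk1 (mul_nonneg hp1.le h2)
      linarith
    have d11 : C + Real.log 2 + |T| + c * n * C < m * ((c * n - 1) * (2 * Real.log 2)) := by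
      refine hN.trans_le (mul_le_mul_of_nonneg_right hNm' ?_)
      exact (mul_pos (by linarith) (by linarith)).le
    have hkp : 0 < k * p := mul_pos (lt_of_lt_of_le one_pos hk1) hp1
    have d12 := mul_lt_mul_of_pos_left d11 hkp
    have d13 := mul_le_mul_of_nonneg_left d8 hc0.le
    rw [← hp, ← hh]
    linarith

end Pool.Agent.H431.PN
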