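import Pool.Agent.H431.PN.StickCore

/-!
# The tower above `1 / (2 ^ m + 1)`: untruncated counting
-/

set_option autoImplicit false

namespace Pool.Agent.H431.PN

open NumberField IsDedekindDomain Height Pool.Agent.Q290.NF IntermediateField
open Pool.Agent.H431.OC Pool.Agent.H431.MT

theorem csmall' (u : ℕ → ℂ) (z : ℝ) (hz0 : 0 < z) (hz1 : z < 1) (J : ℕ) (hu0 : ‖u 0‖ = z)
    (hrel : ∀ j < J, u (j + 1) ^ 2 = 4 * u j / (1 + u j) ^ 2)
    (hs : 16 * z ^ ((1 / 2 : ℝ) ^ J) ≤ 1 / 2) :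
    ∀ j ≤ J, ‖u j‖ ≤ 16 * z ^ ((1 / 2 : ℝ) ^ j) ∧ ‖u j‖ ≤ 1 / 2 := by
  have hle : ∀ j ≤ J, 16 * z ^ ((1 / 2 : ℝ) ^ j) ≤ 1 / 2 := by
    intro j hj
    refine le_trans ?_ hs
    refine mul_le_mul_of_nonneg_left ?_ (by norm_num)
    refine Real.rpow_le_rpow_of_exponent_ge hz0 hz1.le ?_
    exact pow_le_pow_of_le_one (by norm_num) (by norm_num) hj
  intro j
  induction j with
  | zero =>
    intro hj
    have h1 : ‖u 0‖ = z := hu0
    have h2 := hle 0 hj
    rw [pow_zero, Real.rpow_one] at h2 ⊢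
    rw [h1]
    constructor <;> linarith
  | succ j ih =>
    intro hj
    obtain ⟨h1, h2⟩ := ih (by omega)
    have h3 : (1 : ℝ) / 2 ≤ ‖1 + u j‖ := by
      have h4 := norm_sub_norm_le (1 : ℂ) (-u j)
      rw [sub_neg_eq_add, norm_neg, norm_one] at h4
      linarith
    have h4 : ‖u (j + 1)‖ ^ 2 = 4 * ‖u j‖ / ‖1 + u j‖ ^ 2 := by
      rw [← norm_pow, hrel j (by omega), norm_div, norm_mul, norm_pow]
      norm_num
    have h5 : ‖u (j + 1)‖ ^ 2 ≤ 16 * ‖u j‖ := by
      rw [h4, div_le_iff₀ (by positivity)]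
      have h6 := norm_nonneg (u j)
      have h7 : (1 : ℝ) / 4 ≤ ‖1 + u j‖ ^ 2 := by nlinarith
      nlinarith
    have h6 : (16 * z ^ ((1 / 2 : ℝ) ^ (j + 1))) ^ 2 = 256 * z ^ ((1 / 2 : ℝ) ^ j) := by
      have e1 : (1 / 2 : ℝ) ^ (j + 1) * ((2 : ℕ) : ℝ) = (1 / 2) ^ j := by
        rw [pow_succ]
        push_cast
        ring
      rw [mul_pow, ← Real.rpow_natCast (z ^ _), ← Real.rpow_mul hz0.le, e1]
      norm_num
    have h7 : ‖u (j + 1)‖ ≤ 16 * z ^ ((1 / 2 : ℝ) ^ (j + 1)) := by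
      have h8 : 0 ≤ 16 * z ^ ((1 / 2 : ℝ) ^ (j + 1)) := by positivity
      refine le_of_sq_le_sq ?_ h8
      rw [h6]
      linarith
    exact ⟨h7, h7.trans (hle _ hj)⟩

/-- the primes dividing `2 ^ m + 1` -/
theorem sm_bottom2 (K : Type) [Field K] [NumberField K] (m : ℕ) :
    sm (w3 (1 / ((2 ^ m + 1 : ℕ) : K))) ≤ Module.finrank ℚ K * ((m + 2) * Real.log 2) := by
  have hl : 0 < Real.log 2 := Real.log_pos (by norm_num)
  obtain ⟨N, hN⟩ : ∃ N : ℕ, N = 2 ^ m + 1 := ⟨_, rfl⟩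
  have hN0 : N ≠ 0 := by
    rw [hN]
    exact Nat.succ_ne_zero _
  rw [← hN]
  have hNK0 : ((N : ℕ) : K) ≠ 0 := Nat.cast_ne_zero.2 hN0
  have hNK : ((N : ℕ) : K) = 2 ^ m + 1 := by
    rw [hN]
    push_cast
    rfl
  obtain ⟨t, ht⟩ : ∃ t : K, t = 1 / ((N : ℕ) : K) := ⟨_, rfl⟩
  have t0 : t ≠ 0 := by
    rw [ht]
    exact one_div_ne_zero hNK0
  rw [← ht]
  have p0 : (2 : K) ^ m ≠ 0 := pow_ne_zero _ two_ne_zero
  have h1 := sm_le_bad (M := K) (N := 2) two_ne_zero zero_le_one (supp_w3 t)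
    (supp_zeros ((N : ℕ) : K)) (fun v hv => by
      have hv2 : ord v (2 : K) = 0 := by exact_mod_cast hv
      have o1 : ord v t = -ord v ((N : ℕ) : K) := by
        rw [ht, ord_div v one_ne_zero hNK0, ord_one]
        ring
      have o2 : ord v (t - 1) = -ord v ((N : ℕ) : K) := by
        have e : t - 1 = -(2 ^ m / ((N : ℕ) : K)) := by
          rw [ht, hNK]
          have : (2 : K) ^ m + 1 ≠ 0 := by
            rw [← hNK]
            exact hNK0
          field_simp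
          ring
        rw [e, ord_neg, ord_div v p0 hNK0, ord_pow, hv2]
        ring
      have o3 := nat_nonneg v N
      unfold w3
      rw [o1, o2, po_nonpos (n := -ord v ((N : ℕ) : K)) (by omega), neg_neg, zero_add, zero_add]
      exact po_le_max _) (fun v => w3_le_one v t0) (fun v => le_max_left _ _)
  have h2 := (zeros_le (K := K) ((N : ℕ) : K)).trans (height_nat hN0)
  have h3 : Real.log N ≤ (m + 1) * Real.log 2 := by
    have h4 : Real.log N ≤ Real.log ((2 : ℝ) ^ (m + 1)) := by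
      refine Real.log_le_log (by exact_mod_cast Nat.pos_of_ne_zero hN0) ?_
      have h5 : 1 ≤ 2 ^ m := Nat.one_le_two_pow
      have h6 : N ≤ 2 ^ (m + 1) := by
        rw [pow_succ]
        omega
      exact_mod_cast h6
    rw [Real.log_pow] at h4
    push_cast at h4
    exact h4
  have hd : (0 : ℝ) ≤ Module.finrank ℚ K := Nat.cast_nonneg _
  have h4 := mul_le_mul_of_nonneg_left h3 hd
  have h5 : (Module.finrank ℚ K : ℝ) * (1 * Real.log (2 : ℕ)) =
    Module.finrank ℚ K * Real.log 2 := by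
    push_cast
    ring
  rw [h5] at h1
  nlinarith

/-- one step of the tower at a prime not above `2` -/
theorem ord_step {M : Type} [Field M] [NumberField M] (v : HeightOneSpectrum (𝓞 M))
    (hv2 : ord v (2 : M) = 0) {x y : M} (h0 : x ≠ 0) (h1 : x ≠ 1) (h2 : x ≠ -1)
    (hy : y ^ 2 = 4 * x / (1 + x) ^ 2) :
    2 * ord v y = ord v x - 2 * ord v (x + 1) ∧
      ord v (y ^ 2 - 1) = 2 * ord v (x - 1) - 2 * ord v (x + 1) := by
  have n1 : x - 1 ≠ 0 := sub_ne_zero.2 h1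
  have n2 : x + 1 ≠ 0 := fun h => h2 (by linear_combination h)
  have n2' : 1 + x ≠ 0 := by rwa [add_comm]
  have h4 : ord v (4 : M) = 0 := by
    have e : (4 : M) = 2 ^ 2 := by norm_num
    rw [e, ord_pow, hv2, mul_zero]
  have o1 : ord v (4 * x / (1 + x) ^ 2) = ord v x - 2 * ord v (x + 1) := by
    rw [ord_div v (mul_ne_zero (by norm_num) h0) (pow_ne_zero 2 n2'), ord_mul v (by norm_num) h0,
      h4, zero_add, ord_pow, add_comm 1 x]
    rfl
  have o2 : ord v (4 * x / (1 + x) ^ 2 - 1) = 2 * ord v (x - 1) - 2 * ord v (x + 1) := by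
    have e : 4 * x / (1 + x) ^ 2 - 1 = -((x - 1) ^ 2 / (x + 1) ^ 2) := by
      have : 1 + x = x + 1 := add_comm _ _
      rw [this]
      field_simp
      ring
    rw [e, ord_neg, ord_div v (pow_ne_zero 2 n1) (pow_ne_zero 2 n2), ord_pow, ord_pow]
    rfl
  rw [hy]
  refine ⟨?_, o2⟩
  rw [← o1, ← hy, ord_pow]
  rfl

/-- the orders along the tower -/
theorem ord_chain {M : Type} [Field M] [NumberField M] (v : HeightOneSpectrum (𝓞 M))
    (hv2 : ord v (2 : M) = 0) (m : ℕ) (κ : ℕ → M) (J : ℕ)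
    (hκ0 : κ 0 ^ 2 = 1 / ((2 ^ m + 1 : ℕ) : M))
    (hrel : ∀ j < J, κ (j + 1) ^ 2 = 4 * κ j / (1 + κ j) ^ 2) (k0 : ∀ j ≤ J, κ j ≠ 0)
    (k1 : ∀ j ≤ J, κ j ≠ 1) (k2 : ∀ j ≤ J, κ j ≠ -1) :
    ∀ j, 1 ≤ j → j ≤ J → 0 ≤ ord v (κ j) ∧ ord v (κ j ^ 2 - 1) = 0 ∧
      2 ^ j * (2 * ord v (κ j)) = ord v ((2 ^ m + 1 : ℕ) : M) := by
  obtain ⟨N, hN⟩ : ∃ N : ℕ, N = 2 ^ m + 1 := ⟨_, rfl⟩
  have hN0 : N ≠ 0 := by
    rw [hN]
    exact Nat.succ_ne_zero _
  rw [← hN] at hκ0 ⊢
  have hNM0 : ((N : ℕ) : M) ≠ 0 := Nat.cast_ne_zero.2 hN0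
  have hNM : ((N : ℕ) : M) = 2 ^ m + 1 := by
    rw [hN]
    push_cast
    rfl
  have p0 : (2 : M) ^ m ≠ 0 := pow_ne_zero _ two_ne_zero
  have hnn := nat_nonneg v N
  intro j hj
  induction j, hj using Nat.le_induction with
  | base =>
    intro hJ
    obtain ⟨s1, s2⟩ := ord_step v hv2 (k0 0 (by omega)) (k1 0 (by omega)) (k2 0 (by omega))
      (hrel 0 (by omega))
    rw [zero_add] at s1 s2
    have a0 : 2 * ord v (κ 0) = -ord v ((N : ℕ) : M) := by
      have h1 : ord v (κ 0 ^ 2) = 2 * ord v (κ 0) := by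
        rw [ord_pow]
        rfl
      rw [← h1, hκ0, ord_div v one_ne_zero hNM0, ord_one]
      ring
    have hone : ord v (1 : M) = 0 := ord_one v
    have n1 : κ 0 - 1 ≠ 0 := sub_ne_zero.2 (k1 0 (by omega))
    have n2 : κ 0 + 1 ≠ 0 := fun h => k2 0 (by omega) (by linear_combination h)
    have key : ord v (κ 0 - 1) = ord v (κ 0) ∧ ord v (κ 0 + 1) = ord v (κ 0) := by
      rcases lt_or_ge (ord v (κ 0)) 0 with h | h
      · exact ⟨(ord_sub_eq v (y := 1) (k0 0 (by omega)) (Or.inr (by rw [hone]; exact h))).1,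
          (ord_add_eq v (y := 1) (k0 0 (by omega)) (Or.inr (by rw [hone]; exact h))).1⟩
      · have h3 : ord v (κ 0) = 0 := by omega
        have h4 : ord v ((N : ℕ) : M) = 0 := by omega
        have g1 : 0 ≤ ord v (κ 0 - 1) := sub_nonneg' v h3.ge hone.ge
        have g2 : 0 ≤ ord v (κ 0 + 1) := add_nonneg' v h3.ge hone.ge
        have h5 : ord v (κ 0 ^ 2 - 1) = ord v (κ 0 - 1) + ord v (κ 0 + 1) := by
          have e : κ 0 ^ 2 - 1 = (κ 0 - 1) * (κ 0 + 1) := by ring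
          rw [e, ord_mul v n1 n2]
        have h6 : ord v (κ 0 ^ 2 - 1) = 0 := by
          have e : κ 0 ^ 2 - 1 = -(2 ^ m / ((N : ℕ) : M)) := by
            rw [hκ0, hNM]
            have : (2 : M) ^ m + 1 ≠ 0 := by
              rw [← hNM]
              exact hNM0
            field_simp
            ring
          rw [e, ord_neg, ord_div v p0 hNM0, ord_pow, hv2, h4]
          ring
        omega
    obtain ⟨q1, q2⟩ := key
    rw [q2] at s1
    rw [q1, q2, sub_self] at s2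
    refine ⟨by omega, s2, ?_⟩
    rw [pow_one]
    omega
  | succ j hj ih =>
    intro hJ
    obtain ⟨b1, b2, b3⟩ := ih (by omega)
    obtain ⟨s1, s2⟩ := ord_step v hv2 (k0 j (by omega)) (k1 j (by omega)) (k2 j (by omega))
      (hrel j (by omega))
    have hone : ord v (1 : M) = 0 := ord_one v
    have n1 : κ j - 1 ≠ 0 := sub_ne_zero.2 (k1 j (by omega))
    have n2 : κ j + 1 ≠ 0 := fun h => k2 j (by omega) (by linear_combination h)
    have g1 : 0 ≤ ord v (κ j - 1) := sub_nonneg' v b1 hone.ge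
    have g2 : 0 ≤ ord v (κ j + 1) := add_nonneg' v b1 hone.ge
    have h5 : ord v (κ j ^ 2 - 1) = ord v (κ j - 1) + ord v (κ j + 1) := by
      have e : κ j ^ 2 - 1 = (κ j - 1) * (κ j + 1) := by ring
      rw [e, ord_mul v n1 n2]
    have g3 : ord v (κ j - 1) = 0 := by omega
    have g4 : ord v (κ j + 1) = 0 := by omega
    rw [g4] at s1
    rw [g3, g4] at s2
    refine ⟨by omega, by omega, ?_⟩
    have s3 : 2 * ord v (κ (j + 1)) = ord v (κ j) := by omega
    rw [pow_succ, mul_assoc, s3]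
    exact b3

theorem ht_nat (M : Type) [Field M] [NumberField M] (n : ℕ) (hn : n ≠ 0) :
    logHeight₁ ((n : ℕ) : M) = Module.finrank ℚ M * Real.log n := by
  have : NeZero n := ⟨hn⟩
  have h1 := ht_ext (K := M) (F := ℚ) (n : ℚ)
  rw [map_natCast] at h1
  rw [h1, Rat.logHeight₁_natCast]

theorem core_un (K : Type) [Field K] [NumberField K] (φ : K →+* ℂ) (n B E : ℕ) (hE1 : 1 ≤ E)
    (hB1 : 1 ≤ B) (H : MvPolynomial (Fin n) ℂ) (hH : H ≠ 0)
    (hB : ∀ a ∈ H.support, ∀ i, a i < 2 ^ B) :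
    ∃ C : ℝ, 0 ≤ C ∧ ∀ N : ℕ, ∃ m : ℕ, N ≤ m ∧
    ∃ (M : Type) (_ : Field M) (_ : NumberField M) (_ : Algebra K M) (σ : M →+* ℂ)
      (a : Fin n → M), σ.comp (algebraMap K M) = φ ∧
      MvPolynomial.eval (fun i => σ (a i)) H ≠ 0 ∧
      Module.finrank K M ≤ 2 ^ (E + (n - 1) * B + 1) ∧ (∀ i, a i ≠ 0 ∧ a i ≠ 1) ∧
      DD M ≤ Module.finrank K M *
        (DD K + Module.finrank ℚ K * (m * Real.log 2 + C)) ∧
      (n : ℝ) * (Module.finrank ℚ M * (m * Real.log 2 - C)) ≤ logHeight (st a) ∧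
      (∀ w : HeightOneSpectrum (𝓞 M), ord w (2 : M) = 0 → ∀ i, 0 ≤ ord w (a i) ∧
        ord w (a i - 1) = 0 ∧
        2 ^ (E + (n - 1 - (i : ℕ)) * B) * ord w (a i) = ord w ((2 ^ m + 1 : ℕ) : M)) := by
  classical
  have hl : 0 < Real.log 2 := Real.log_pos (by norm_num)
  obtain ⟨J, hJ⟩ : ∃ J, J = E + (n - 1) * B := ⟨_, rfl⟩
  obtain ⟨z0, hz0, hev⟩ := eval_ne (b := 2 ^ B) H hH hB
  obtain ⟨C, hC0, hC⟩ := ht_mu
  refine ⟨2 * J * C + (6 + 6 * J) * Real.log 2, by positivity, fun N => ?_⟩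
  obtain ⟨z1, hz1⟩ : ∃ z1, z1 = min z0 (1 / 32 : ℝ) := ⟨_, rfl⟩
  have hz1pos : 0 < z1 := by
    rw [hz1]
    exact lt_min hz0 (by norm_num)
  obtain ⟨m1, hm1⟩ := exists_pow_lt_of_lt_one (pow_pos (pow_pos hz1pos (2 ^ J)) 2)
    (one_half_lt_one (α := ℝ))
  obtain ⟨m, hm⟩ : ∃ m, m = max 1 (max m1 N) := ⟨_, rfl⟩
  have hm' : 1 ≤ m := by omega
  have hmm1 : m1 ≤ m := by omega
  refine ⟨m, by omega, ?_⟩
  obtain ⟨y, hy⟩ : ∃ y : ℕ, y = 2 ^ m + 1 := ⟨_, rfl⟩
  have hyR : (y : ℝ) = 2 ^ m + 1 := by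
    rw [hy]
    push_cast
    rfl
  have hypos : (0 : ℝ) < y := by
    rw [hyR]
    positivity
  have hy0 : y ≠ 0 := by
    rw [hy]
    exact Nat.succ_ne_zero _
  obtain ⟨r, hr⟩ : ∃ r : ℝ, r = √(1 / y) := ⟨_, rfl⟩
  have hr2 : r ^ 2 = 1 / y := by
    rw [hr, Real.sq_sqrt (by positivity)]
  have hr0 : 0 < r := by
    rw [hr]
    exact Real.sqrt_pos.2 (by positivity)
  have hr2lt : r ^ 2 < (1 / 2) ^ m := by
    rw [hr2, hyR, one_div, one_div, inv_pow]
    exact inv_strictAnti₀ (by positivity) (by linarith)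
  have hr1 : r < 1 := by
    have h1 : ((1 : ℝ) / 2) ^ m ≤ 1 := pow_le_one₀ (by norm_num) (by norm_num)
    nlinarith
  have hrz : r < z1 ^ (2 ^ J) := by
    have h1 : ((1 : ℝ) / 2) ^ m ≤ (1 / 2) ^ m1 :=
      pow_le_pow_of_le_one (by norm_num) (by norm_num) hmm1
    have h2 : r ^ 2 < (z1 ^ (2 ^ J)) ^ 2 := hr2lt.trans (h1.trans_lt hm1)
    exact lt_of_pow_lt_pow_left₀ 2 (by positivity) h2
  -- the number `s`
  obtain ⟨s, hs⟩ : ∃ s : ℝ, s = r ^ ((1 / 2 : ℝ) ^ J) := ⟨_, rfl⟩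
  have hspos : 0 < s := by
    rw [hs]
    exact Real.rpow_pos_of_pos hr0 _
  have hsJ : s ^ (2 ^ J) = r := by
    rw [hs, ← Real.rpow_natCast, ← Real.rpow_mul hr0.le]
    have : (1 / 2 : ℝ) ^ J * ((2 ^ J : ℕ) : ℝ) = 1 := by
      push_cast
      rw [← mul_pow]
      norm_num
    rw [this, Real.rpow_one]
  have hsz1 : s < z1 := by
    by_contra h
    have := pow_le_pow_left₀ hz1pos.le (not_lt.1 h) (2 ^ J)
    rw [hsJ] at this
    linarith
  have hsz0 : s < z0 := hsz1.trans_le (by rw [hz1]; exact min_le_left _ _)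
  have hs32 : s < 1 / 32 := hsz1.trans_le (by rw [hz1]; exact min_le_right _ _)
  -- the first extension
  have hyK : ((y : ℕ) : K) ≠ 0 := Nat.cast_ne_zero.2 hy0
  obtain ⟨x0, hx0⟩ : ∃ x0 : K, x0 = 1 / ((y : ℕ) : K) := ⟨_, rfl⟩
  have hx00 : x0 ≠ 0 := by
    rw [hx0]
    exact one_div_ne_zero hyK
  obtain ⟨K1, f1, f2, f3, τ, s', hτ, hs', hτs, hK1, hDis⟩ := adj_sqrt K φ x0 x0 hx00 hx00
    (fun v _ hv => w3_ne hv) (r : ℂ) (by
      rw [hx0, map_div₀, map_one, map_natCast]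
      have : ((r ^ 2 : ℝ) : ℂ) = ((1 / y : ℝ) : ℂ) := by rw [hr2]
      push_cast at this
      exact this)
  obtain ⟨M, i1, i2, i3, σ, κ, hσ, hκ0, hrel, hemb, hdeg, hdisc⟩ :=
    tower K1 τ s' r hr0 hr1 hτs J
  let _ : Algebra K M := ((algebraMap K1 M).comp (algebraMap K K1)).toAlgebra
  have hst : IsScalarTower K K1 M := IsScalarTower.of_algebraMap_eq fun _ => rfl
  have fKK1 : Module.Finite K K1 := Module.Finite.of_restrictScalars_finite ℚ K K1
  have fK1M : Module.Finite K1 M := Module.Finite.of_restrictScalars_finite ℚ K1 M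
  have hfin : Module.finrank K K1 * Module.finrank K1 M = Module.finrank K M :=
    Module.finrank_mul_finrank K K1 M
  have kpos := kap_pos hr0
  have klt := kap_lt hr0 hr1
  have k0 : ∀ j ≤ J, κ j ≠ 0 := by
    intro j hj h
    have h1 := hemb j hj
    rw [h, map_zero] at h1
    have h2 : kap r j = 0 := by exact_mod_cast h1.symm
    have := kpos j
    linarith
  have k1 : ∀ j ≤ J, κ j ≠ 1 := by
    intro j hj h
    have h1 := hemb j hj
    rw [h, map_one] at h1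
    have h2 : kap r j = 1 := by exact_mod_cast h1.symm
    have := klt j
    linarith
  have k2 : ∀ j ≤ J, κ j ≠ -1 := by
    intro j hj h
    have h1 := hemb j hj
    rw [h, map_neg, map_one] at h1
    have h2 : kap r j = -1 := by exact_mod_cast h1.symm
    have := kpos j
    linarith
  obtain ⟨e, he⟩ : ∃ e : Fin n → ℕ, e = fun i : Fin n => E + (n - 1 - (i : ℕ)) * B := ⟨_, rfl⟩
  have hei : ∀ i : Fin n, e i = E + (n - 1 - (i : ℕ)) * B := by
    intro i
    rw [he]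
  have heJ : ∀ i, e i ≤ J := by
    intro i
    rw [hei, hJ]
    exact Nat.add_le_add_left (Nat.mul_le_mul_right B (Nat.sub_le _ _)) _
  have he1 : ∀ i, 1 ≤ e i := by
    intro i
    rw [hei]
    omega
  have helt : ∀ i j : Fin n, i < j → e j < e i := by
    intro i j hij
    have h1 : (i : ℕ) < j := hij
    have h2 := j.2
    rw [hei, hei]
    have h3 : (n - 1 - (j : ℕ)) * B < (n - 1 - (i : ℕ)) * B :=
      Nat.mul_lt_mul_of_pos_right (by omega) (by omega)
    omega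
  have ha1 : ∀ j ≤ J, κ j ^ 2 ≠ 1 := by
    intro j hj h
    have h2 : (κ j - 1) * (κ j + 1) = 0 := by
      have e1 : (κ j - 1) * (κ j + 1) = κ j ^ 2 - 1 := by ring
      rw [e1, h, sub_self]
    rcases mul_eq_zero.1 h2 with h3 | h3
    · exact k1 _ hj (sub_eq_zero.1 h3)
    · exact k2 _ hj (eq_neg_of_add_eq_zero_left h3)
  have hκ02 : κ 0 ^ 2 = 1 / ((2 ^ m + 1 : ℕ) : M) := by
    rw [hκ0, ← map_pow, hs', hx0, ← hy, map_div₀, map_one, map_natCast, map_div₀, map_one,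
      map_natCast]
  refine ⟨M, i1, i2, inferInstance, σ, fun i => κ (e i) ^ 2, ?_, ?_, ?_,
    fun i => ⟨pow_ne_zero 2 (k0 _ (heJ i)), ha1 _ (heJ i)⟩, ?_, ?_, ?_⟩
  · have : (algebraMap K M) = (algebraMap K1 M).comp (algebraMap K K1) := rfl
    rw [this, ← RingHom.comp_assoc, hσ, hτ]
  · -- the polynomial
    obtain ⟨y', hy'⟩ : ∃ y' : Fin n → ℝ, y' = fun i => kap r (e i) ^ 2 := ⟨_, rfl⟩
    have hsi : ∀ i : Fin n, (s ^ 2) ^ ((2 ^ B) ^ (i : ℕ)) =
        (r ^ ((1 / 2 : ℝ) ^ (e i))) ^ 2 := by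
      intro i
      have hi : (i : ℕ) ≤ n - 1 := by have := i.2; omega
      have hJe : J = e i + i * B := by
        rw [hJ, hei, add_assoc]
        congr 1
        rw [← Nat.add_mul]
        congr 1
        omega
      rw [← pow_mul, mul_comm 2, pow_mul]
      congr 1
      rw [hs, ← Real.rpow_natCast, ← Real.rpow_mul hr0.le, hJe, pow_add]
      congr 1
      push_cast
      rw [mul_assoc]
      have : (1 / 2 : ℝ) ^ ((i : ℕ) * B) * (2 ^ B) ^ (i : ℕ) = 1 := by
        rw [← pow_mul, mul_comm B, ← mul_pow]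
        norm_num
      rw [this, mul_one]
    have hGy := hev (s ^ 2) (by positivity) (by nlinarith) y' (by
      intro i
      have h1 := kap_ge hr0 hr1 (e i)
      have h2 := kap_le hr0 hr1 (e i)
      have h3 := kpos (e i)
      rw [hsi i]
      obtain ⟨Z, hZ⟩ : ∃ Z, Z = r ^ ((1 / 2 : ℝ) ^ (e i)) := ⟨_, rfl⟩
      have hZ0 : 0 < Z := by
        rw [hZ]
        exact Real.rpow_pos_of_pos hr0 _
      rw [← hZ] at h1 h2
      rw [← hZ]
      have hyi : y' i = kap r (e i) ^ 2 := by rw [hy']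
      rw [hyi]
      constructor <;> nlinarith)
    have e1 : (fun i => σ (κ (e i) ^ 2)) = fun i => (y' i : ℂ) := by
      funext i
      rw [map_pow, hemb _ (heJ i), hy']
      push_cast
      rfl
    rw [e1]
    exact hGy
  · rw [← hJ, ← hfin, pow_succ, mul_comm]
    exact Nat.mul_le_mul hdeg hK1
  · -- the discriminant
    have d4 := sm_bottom2 K m
    rw [← hy, ← hx0] at d4
    unfold Dis at hDis
    rw [hs'] at hdisc
    have e1 : (Module.finrank K M : ℝ) = Module.finrank K K1 * Module.finrank K1 M := by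
      exact_mod_cast hfin.symm
    have e2 : (Module.finrank ℚ K1 : ℝ) = Module.finrank ℚ K * Module.finrank K K1 := by
      exact_mod_cast (Module.finrank_mul_finrank ℚ K K1).symm
    rw [e2] at hdisc
    rw [e1]
    have hn : (0 : ℝ) ≤ Module.finrank K1 M := Nat.cast_nonneg _
    have hn1 : (0 : ℝ) ≤ Module.finrank K K1 := Nat.cast_nonneg _
    have hk1 : (0 : ℝ) ≤ Module.finrank ℚ K := Nat.cast_nonneg _
    have h0 : 0 ≤ sm (w3 (κ J ^ 2)) := sm_nonneg fun v => w3_nonneg _ v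
    have h3 := mul_le_mul_of_nonneg_left hDis hn
    have h4 := mul_le_mul_of_nonneg_left d4 (mul_nonneg hn1 hn)
    have h5 : 0 ≤ (Module.finrank K K1 : ℝ) * Module.finrank K1 M *
        (Module.finrank ℚ K * (2 * J * C + Real.log 2)) := by positivity
    linarith
  · -- the height
    have tw : (totalWeight M : ℝ) = Module.finrank ℚ M := by
      exact_mod_cast NumberField.totalWeight_eq_finrank M
    have h1 := ht_st (fun i => κ (e i) ^ 2) (by
      intro v hv i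
      have h2 : IsInfinitePlace v := mem_multisetInfinitePlace.1 hv
      obtain ⟨ψ, hψ⟩ := h2
      have h3 := csmall' (fun j => ψ (κ j)) r hr0 hr1 J (by
        have h4 : ‖ψ (κ 0)‖ ^ 2 = r ^ 2 := by
          rw [← norm_pow, ← map_pow, hκ02, ← hy, map_div₀, map_one, map_natCast, hr2, norm_div,
            norm_one, Complex.norm_natCast]
        exact (pow_left_inj₀ (norm_nonneg _) hr0.le two_ne_zero).1 h4) (by
        intro j hj
        show ψ (κ (j + 1)) ^ 2 = 4 * ψ (κ j) / (1 + ψ (κ j)) ^ 2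
        rw [← map_pow, hrel j hj, map_div₀, map_mul, map_pow, map_add, map_one, map_ofNat]) (by
        rw [← hs]
        linarith) (e i) (heJ i)
      have h4 : v (κ (e i)) = ‖ψ (κ (e i))‖ := by
        rw [← hψ]
        rfl
      rw [map_pow, h4]
      have h5 := norm_nonneg (ψ (κ (e i)))
      have h6 := h3.2
      nlinarith) (by
      intro v hv i j hij h2
      rw [map_pow] at h2 ⊢
      have hna := AdmissibleAbsValues.isNonarchimedean v hv
      have h3 : 1 < v (κ (e j)) := by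
        by_contra h4
        have h5 := v.nonneg (κ (e j))
        nlinarith [not_lt.1 h4]
      have h4 := non_step v hna κ J hrel (helt i j hij) (heJ i) h3
      have h5 := v.nonneg (κ (e i))
      nlinarith)
    rw [tw] at h1
    have hn1 : (0 : ℝ) ≤ Module.finrank ℚ M := Nat.cast_nonneg _
    have d6 : Module.finrank ℚ M * (m * Real.log 2) ≤ 2 * logHeight₁ (κ 0) := by
      have g1 : logHeight₁ (κ 0 ^ 2) = 2 * logHeight₁ (κ 0) := by
        rw [logHeight₁_pow]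
        push_cast
        rfl
      rw [← g1, hκ02, one_div, logHeight₁_inv]
      have g2 : logHeight₁ (((2 ^ m + 1 : ℕ) : M)) =
          Module.finrank ℚ M * Real.log ((2 ^ m + 1 : ℕ) : ℝ) := ht_nat M _ (Nat.succ_ne_zero _)
      rw [g2]
      refine mul_le_mul_of_nonneg_left ?_ hn1
      have g3 : Real.log ((2 : ℝ) ^ m) ≤ Real.log ((2 ^ m + 1 : ℕ) : ℝ) := by
        refine Real.log_le_log (by positivity) ?_
        push_cast
        linarith
      rwa [Real.log_pow] at g3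
    have h2 : ∀ i, Module.finrank ℚ M * (m * Real.log 2 - 2 * J * C) ≤
        logHeight₁ (κ (e i) ^ 2) := by
      intro i
      have h3 := ht_chain hC0 hC M κ J hrel k0 k2 (e i) (heJ i)
      rw [logHeight₁_pow]
      have h4 : (e i : ℝ) ≤ J := by exact_mod_cast heJ i
      have h5 : (e i : ℝ) * C ≤ J * C := mul_le_mul_of_nonneg_right h4 hC0
      have h6 := mul_le_mul_of_nonneg_left h5 hn1
      push_cast
      linarith
    have h3 := Finset.sum_le_sum fun (i : Fin n) (_ : i ∈ Finset.univ) => h2 i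
    rw [Finset.sum_const, Finset.card_univ, Fintype.card_fin, nsmul_eq_mul] at h3
    have h4 : 0 ≤ (n : ℝ) * (Module.finrank ℚ M * ((5 + 6 * J) * Real.log 2)) := by positivity
    linarith
  · -- the primes
    intro w hw2 i
    obtain ⟨c1, c2, c3⟩ := ord_chain w hw2 m κ J hκ02 hrel k0 k1 k2 (e i) (he1 i) (heJ i)
    have h1 : ord w (κ (e i) ^ 2) = 2 * ord w (κ (e i)) := by
      rw [ord_pow]
      rfl
    refine ⟨by rw [h1]; omega, c2, ?_⟩
    rw [← hei, h1]
    exact c3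

end Pool.Agent.H431.PN
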