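import Pool.Agent.H431.PN.Two
import Pool.Agent.H431.PN.StickFin

/-!
# Proximity functions
-/

set_option autoImplicit false

namespace Pool.Agent.H431.PN

open NumberField IsDedekindDomain Height Pool.Agent.Q290.NF IntermediateField
open Pool.Agent.H431.OC Pool.Agent.H431.MT

section sums

variable {L : Type} [Field L] [NumberField L]

omit [NumberField L] in
theorem sup_pos {ι : Type} [Finite ι] {P : ι → L} (hP : P ≠ 0) (v : AbsoluteValue L ℝ) :
    0 < ⨆ i, v (P i) := by
  obtain ⟨i, hi⟩ := Function.ne_iff.1 hP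
  exact lt_of_lt_of_le (v.pos hi) (Finite.le_ciSup (fun i => v (P i)) i)

theorem logHeight_sum {ι : Type} [Finite ι] (P : ι → L) (hP : P ≠ 0) :
    logHeight P = ∑ v : InfinitePlace L, v.mult * Real.log (⨆ i, v.val (P i)) +
      ∑ᶠ w : FinitePlace L, Real.log (⨆ i, w.val (P i)) := by
  have hA : ∏ v : InfinitePlace L, (⨆ i, v.val (P i)) ^ v.mult ≠ 0 :=
    Finset.prod_ne_zero_iff.2 fun v _ => pow_ne_zero _ (sup_pos hP v.val).ne'
  have hB : ∏ᶠ w : FinitePlace L, ⨆ i, w.val (P i) ≠ 0 := by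
    have := mulHeight_pos P
    intro h
    have h2 := NumberField.mulHeight_eq hP
    have h3 : ∏ᶠ v : FinitePlace L, ⨆ i, v (P i) = 0 := h
    rw [h3, mul_zero] at h2
    linarith
  have h1 : mulHeight P = (∏ v : InfinitePlace L, (⨆ i, v.val (P i)) ^ v.mult) *
      ∏ᶠ w : FinitePlace L, ⨆ i, w.val (P i) := NumberField.mulHeight_eq hP
  have e1 := Real.log_finprod (f := fun w : FinitePlace L => ⨆ i, w.val (P i))
    (fun w => sup_pos hP w.val)
  have e2 := Real.log_prod (s := Finset.univ)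
    (f := fun v : InfinitePlace L => (⨆ i, v.val (P i)) ^ v.mult)
    (fun v _ => pow_ne_zero _ (sup_pos hP v.val).ne')
  have e3 : ∑ v : InfinitePlace L, Real.log ((⨆ i, v.val (P i)) ^ v.mult) =
      ∑ v : InfinitePlace L, v.mult * Real.log (⨆ i, v.val (P i)) :=
    Finset.sum_congr rfl fun v _ => Real.log_pow _ _
  rw [logHeight_eq_log_mulHeight, h1, Real.log_mul hA hB, e1, e2, e3]

theorem prod_sum {z : L} (hz : z ≠ 0) :
    ∑ v : InfinitePlace L, v.mult * Real.log (v.val z) +
      ∑ᶠ w : FinitePlace L, Real.log (w.val z) = 0 := by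
  have h1 : (∏ v : InfinitePlace L, (v.val z) ^ v.mult) * ∏ᶠ w : FinitePlace L, w.val z = 1 :=
    NumberField.prod_abs_eq_one hz
  have hA : ∏ v : InfinitePlace L, (v.val z) ^ v.mult ≠ 0 := left_ne_zero_of_mul_eq_one h1
  have hB : ∏ᶠ w : FinitePlace L, w.val z ≠ 0 := right_ne_zero_of_mul_eq_one h1
  have h2 : Real.log ((∏ v : InfinitePlace L, (v.val z) ^ v.mult) *
      ∏ᶠ w : FinitePlace L, w.val z) = 0 := by
    rw [h1, Real.log_one]
  have e1 := Real.log_finprod (f := fun w : FinitePlace L => w.val z) (fun w => w.val.pos hz)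
  have e2 := Real.log_prod (s := Finset.univ) (f := fun v : InfinitePlace L => (v.val z) ^ v.mult)
    (fun v _ => pow_ne_zero _ (v.val.pos hz).ne')
  have e3 : ∑ v : InfinitePlace L, Real.log ((v.val z) ^ v.mult) =
      ∑ v : InfinitePlace L, v.mult * Real.log (v.val z) :=
    Finset.sum_congr rfl fun v _ => Real.log_pow _ _
  rw [Real.log_mul hA hB, e1, e2, e3] at h2
  exact h2

end sums

/-- the sum of the orders of the coordinates -/
theorem st_ord_sum {M : Type} [Field M] [NumberField M] (w : HeightOneSpectrum (𝓞 M)) :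
    ∀ {n : ℕ} (a : Fin n → M), (∀ i, a i ≠ 0 ∧ a i ≠ 1) → (∀ i, ord w (a i - 1) = 0) →
    ∑ j, ord w (st a j) = ∑ i, ord w (a i)
  | 0, a, _, _ => by
    rw [Fin.sum_univ_succ]
    simp [st_zero', ord_one]
  | n + 1, a, h0, h => by
    rw [Fin.sum_univ_succ (f := fun j => ord w (st a j)),
      Fin.sum_univ_succ (f := fun i => ord w (a i)), st_cons_zero,
      ← st_ord_sum w _ (fun i => h0 i.succ) (fun i => h i.succ)]
    congr 1
    refine Finset.sum_congr rfl fun j _ => ?_
    rw [st_cons_succ, ord_mul w (sub_ne_zero.2 (Ne.symm (h0 0).2)) (st_ne _ (fun i => h0 i.succ) j),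
      ord_sub_comm, h 0, zero_add]

theorem st_ord_nonneg {M : Type} [Field M] [NumberField M] (w : HeightOneSpectrum (𝓞 M)) :
    ∀ {n : ℕ} (a : Fin n → M), (∀ i, a i ≠ 0 ∧ a i ≠ 1) → (∀ i, 0 ≤ ord w (a i)) →
    (∀ i, ord w (a i - 1) = 0) → ∀ j, 0 ≤ ord w (st a j)
  | 0, a, _, _, _, j => by
    rw [st_zero', ord_one]
  | n + 1, a, h0, h1, h, j => by
    refine Fin.cases ?_ (fun j => ?_) j
    · rw [st_cons_zero]
      exact h1 0
    · rw [st_cons_succ, ord_mul w (sub_ne_zero.2 (Ne.symm (h0 0).2))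
        (st_ne _ (fun i => h0 i.succ) j), ord_sub_comm, h 0, zero_add]
      exact st_ord_nonneg w _ (fun i => h0 i.succ) (fun i => h1 i.succ) (fun i => h i.succ) j

theorem exists_over {L M : Type} [Field L] [NumberField L] [Field M] [NumberField M] [Algebra L M]
    (v : HeightOneSpectrum (𝓞 L)) : ∃ w : HeightOneSpectrum (𝓞 M), w.asIdeal.LiesOver v.asIdeal := by
  obtain ⟨W, hW, hs⟩ := over_set (M := M) v
  have h1 : (0 : ℝ) < Module.finrank L M := by
    have : Module.Finite L M := Module.Finite.of_restrictScalars_finite ℚ L M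
    exact_mod_cast Module.finrank_pos
  have h2 := mul_pos h1 (ell_pos v)
  have h3 : W.Nonempty := by
    by_contra h
    rw [Finset.not_nonempty_iff_eq_empty] at h
    rw [h, Finset.sum_empty] at hs
    linarith
  obtain ⟨w, hw⟩ := h3
  exact ⟨w, hW w hw⟩

theorem main_un (K : Type) [Field K] [NumberField K] (n d E : ℕ) (hE1 : 1 ≤ E) (hd : 1 ≤ d)
    (G : MvPolynomial (Fin (n + 1)) K) (hG : G ≠ 0) (hdeg : G.IsHomogeneous d) (c : ℝ)
    (hc : 1 + (n : ℝ) / 2 ^ E < c * n) (T : ℝ) :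
    ∃ (L : Type) (_ : Field L) (_ : NumberField L) (_ : Algebra K L) (P : Fin (n + 1) → L),
      adjoin K (Set.range P) = ⊤ ∧ ∑ j, P j = 1 ∧
      Module.finrank K L ≤ 2 ^ (E + 1) * (2 * d) ^ (n - 1) ∧
      (∀ j, P j ≠ 0) ∧ MvPolynomial.aeval P G ≠ 0 ∧
      (∀ w : HeightOneSpectrum (𝓞 L), ord w (2 : L) = 0 → ∀ j, 0 ≤ ord w (P j)) ∧
      ∀ R : Finset (HeightOneSpectrum (𝓞 L)), (∀ v ∈ R, ord v (2 : L) = 0) →
        DD L + ∑ v ∈ R, (∑ j, (ord v (P j) : ℝ)) * ell v + Module.finrank K L * (T - DD K) <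
          c * logHeight P := by
  classical
  have hl : 0 < Real.log 2 := Real.log_pos (by norm_num)
  have hnE : 0 ≤ (n : ℝ) / 2 ^ E := by positivity
  have hc0 : 0 < c := by
    by_contra h
    have := mul_nonpos_of_nonpos_of_nonneg (not_lt.1 h) (Nat.cast_nonneg (α := ℝ) n)
    linarith
  obtain ⟨B, hB⟩ : ∃ B, B = Nat.log 2 d + 1 := ⟨_, rfl⟩
  have hB1 : d < 2 ^ B := by
    rw [hB]
    exact Nat.lt_pow_succ_log_self (by norm_num) d
  have hB2 : 2 ^ B ≤ 2 * d := by
    rw [hB, pow_succ, mul_comm]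
    exact Nat.mul_le_mul_left 2 (Nat.pow_log_le_self 2 (by omega))
  obtain ⟨φ⟩ : Nonempty (K →+* ℂ) := inferInstance
  have hGφ : MvPolynomial.map φ G ≠ 0 := by
    intro h
    exact hG (MvPolynomial.map_injective φ φ.injective (by rw [h, map_zero]))
  obtain ⟨H, hH, hHd, hHe⟩ := comp_st n d (MvPolynomial.map φ G) hGφ (hdeg.map φ)
  obtain ⟨C, hC0, hcore⟩ := core_un K φ n B E hE1 (by omega) H hH
    (fun a ha i => lt_of_le_of_lt (hHd a ha i) hB1)
  obtain ⟨D, hD⟩ : ∃ D : ℝ, D = C + (n : ℝ) / 2 ^ E * Real.log 2 + |T| + c * n * C := ⟨_, rfl⟩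
  obtain ⟨N, hN⟩ := exists_nat_gt (D / ((c * n - (1 + (n : ℝ) / 2 ^ E)) * Real.log 2))
  rw [div_lt_iff₀ (mul_pos (by linarith) hl)] at hN
  obtain ⟨m, hNm, M, i1, i2, i3, σ, a, hσ, hHa, hdegM, ha01, hDM, hht, hloc⟩ := hcore N
  have hNm' : (N : ℝ) ≤ m := by exact_mod_cast hNm
  obtain ⟨L, Q, hQ, hQtop⟩ := adjoin_top (K := K) (st a)
  have fKM : Module.Finite K M := Module.Finite.of_restrictScalars_finite ℚ K M
  have nL : NumberField L := inferInstance
  have hKL : Module.finrank K L * Module.finrank L M = Module.finrank K M :=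
    Module.finrank_mul_finrank K L M
  have hLM0 : 0 < Module.finrank L M := Module.finrank_pos
  have hKL0 : 0 < Module.finrank K L := Module.finrank_pos
  have hK0 : 0 < Module.finrank ℚ K := Module.finrank_pos
  have halg : ∀ i, algebraMap L M (Q i) = st a i := hQ
  have hsum : ∑ j, Q j = 1 := by
    apply (algebraMap L M).injective
    rw [map_sum, map_one, ← st_sum a]
    exact Finset.sum_congr rfl fun j _ => halg j
  -- the orders
  have hord : ∀ w : HeightOneSpectrum (𝓞 L), ord w (2 : L) = 0 → (∀ j, 0 ≤ ord w (Q j)) ∧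
      2 ^ E * ∑ j, ord w (Q j) ≤ n * ord w ((2 ^ m + 1 : ℕ) : L) := by
    intro w hw2
    obtain ⟨w', hw'⟩ := exists_over (M := M) w
    have he := ram_ne w w' hw'
    have ho := ord_above w w' hw'
    obtain ⟨e, hee⟩ : ∃ e : ℤ, e = (w.asIdeal.ramificationIdx' w'.asIdeal : ℤ) := ⟨_, rfl⟩
    have hepos : 0 < e := by
      rw [hee]
      exact_mod_cast Nat.pos_of_ne_zero he
    simp_rw [← hee] at ho
    have hw2' : ord w' (2 : M) = 0 := by
      have h1 := ho 2
      rw [map_ofNat, hw2, mul_zero] at h1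
      exact h1
    have hl' := hloc w' hw2'
    have h1 : ∀ j, ord w' (st a j) = e * ord w (Q j) := by
      intro j
      rw [← halg j, ho]
    have h2 := st_ord_nonneg w' a ha01 (fun i => (hl' i).1) (fun i => (hl' i).2.1)
    have h3 := st_ord_sum w' a ha01 (fun i => (hl' i).2.1)
    refine ⟨fun j => ?_, ?_⟩
    · have h4 := h2 j
      rw [h1] at h4
      exact nonneg_of_mul_nonneg_right h4 hepos
    · have h5 : ∀ i, 2 ^ E * ord w' (a i) ≤ ord w' ((2 ^ m + 1 : ℕ) : M) := by
        intro i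
        rw [← (hl' i).2.2, pow_add]
        have h6 : (1 : ℤ) ≤ 2 ^ ((n - 1 - (i : ℕ)) * B) := one_le_pow₀ (by norm_num)
        have h7 := (hl' i).1
        have h8 : (0 : ℤ) < 2 ^ E := by positivity
        nlinarith [mul_nonneg h8.le h7]
      have h6 : 2 ^ E * ∑ j, ord w' (st a j) ≤ n * ord w' ((2 ^ m + 1 : ℕ) : M) := by
        rw [h3, Finset.mul_sum]
        refine (Finset.sum_le_sum fun i _ => h5 i).trans (le_of_eq ?_)
        rw [Finset.sum_const, Finset.card_univ, Fintype.card_fin, nsmul_eq_mul]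
      have h7 := ho ((2 ^ m + 1 : ℕ) : L)
      rw [map_natCast] at h7
      simp_rw [h1, ← Finset.mul_sum] at h6
      rw [h7] at h6
      have h8 : e * (2 ^ E * ∑ j, ord w (Q j)) ≤ e * (n * ord w ((2 ^ m + 1 : ℕ) : L)) := by
        calc e * (2 ^ E * ∑ j, ord w (Q j)) = 2 ^ E * (e * ∑ j, ord w (Q j)) := by ring
          _ ≤ n * (e * ord w ((2 ^ m + 1 : ℕ) : L)) := h6
          _ = _ := by ring
      exact le_of_mul_le_mul_left h8 hepos
  refine ⟨L, inferInstance, nL, inferInstance, Q, hQtop, hsum, ?_, ?_, ?_, fun w hw => (hord w hw).1,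
    ?_⟩
  · have h1 : Module.finrank K L ≤ Module.finrank K M := by
      rw [← hKL]
      exact Nat.le_mul_of_pos_right _ hLM0
    refine h1.trans (hdegM.trans ?_)
    have e1 : E + (n - 1) * B + 1 = E + 1 + B * (n - 1) := by ring
    rw [e1, pow_add 2 (E + 1), pow_mul]
    exact Nat.mul_le_mul_left _ (Nat.pow_le_pow_left hB2 _)
  · intro j h
    have h1 := halg j
    rw [h, map_zero] at h1
    exact st_ne a ha01 j h1.symm
  · intro h
    apply hHa
    rw [hHe]
    have h1 : σ (algebraMap L M (MvPolynomial.aeval Q G)) = 0 := by rw [h, map_zero, map_zero]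
    rw [← h1, MvPolynomial.eval_map, MvPolynomial.aeval_def, MvPolynomial.hom_eval₂,
      MvPolynomial.hom_eval₂]
    congr 1
    · rw [← hσ]
      rfl
    · funext i
      show st (fun i => σ (a i)) i = σ (algebraMap L M (Q i))
      rw [halg, st_map]
  · intro R hR
    have d1 := descent (L := L) (M := M) ∅ (fun _ => 0) (by
      simp) (fun w => le_rfl) (by
        intro v hv
        simp at hv)
    have d0 : sm (fun _ : HeightOneSpectrum (𝓞 M) => (0 : ℝ)) = 0 := by
      unfold sm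
      simp
    rw [Finset.sum_empty, add_zero, d0, add_zero] at d1
    have d5 : logHeight (st a) = Module.finrank L M * logHeight Q := by
      have h1 := Pool.Agent.Helper259.HtExt.logHeight_ext (K := L) (L := M) Q
      rw [← h1]
      congr 1
      funext i
      exact (halg i).symm
    -- the counting function
    have d6 : ∑ v ∈ R, (∑ j, (ord v (Q j) : ℝ)) * ell v ≤
        (n : ℝ) / 2 ^ E * (Module.finrank ℚ L * ((m + 1) * Real.log 2)) := by
      have h1 : ∀ v ∈ R, (∑ j, (ord v (Q j) : ℝ)) * ell v ≤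
          (n : ℝ) / 2 ^ E * (max 0 (ord v ((2 ^ m + 1 : ℕ) : L) : ℝ) * ell v) := by
        intro v hv
        have h2 := (hord v (hR v hv)).2
        have h3 : (2 : ℝ) ^ E * ∑ j, (ord v (Q j) : ℝ) ≤
            n * (ord v ((2 ^ m + 1 : ℕ) : L) : ℝ) := by exact_mod_cast h2
        have h4 : ∑ j, (ord v (Q j) : ℝ) ≤
            (n : ℝ) / 2 ^ E * max 0 (ord v ((2 ^ m + 1 : ℕ) : L) : ℝ) := by
          have h5 : (ord v ((2 ^ m + 1 : ℕ) : L) : ℝ) ≤
            max 0 (ord v ((2 ^ m + 1 : ℕ) : L) : ℝ) := le_max_right _ _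
          have h6 : (n : ℝ) * (ord v ((2 ^ m + 1 : ℕ) : L) : ℝ) ≤
            n * max 0 (ord v ((2 ^ m + 1 : ℕ) : L) : ℝ) :=
            mul_le_mul_of_nonneg_left h5 (Nat.cast_nonneg _)
          rw [div_mul_eq_mul_div, le_div_iff₀ (by positivity)]
          linarith
        calc _ ≤ _ := mul_le_mul_of_nonneg_right h4 (ell_pos v).le
          _ = _ := by ring
      refine (Finset.sum_le_sum h1).trans ?_
      rw [← Finset.mul_sum]
      refine mul_le_mul_of_nonneg_left ?_ hnE
      have h2 : ∑ v ∈ R, max 0 (ord v ((2 ^ m + 1 : ℕ) : L) : ℝ) * ell v ≤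
          sm (fun v : HeightOneSpectrum (𝓞 L) => max 0 (ord v ((2 ^ m + 1 : ℕ) : L) : ℝ)) := by
        unfold sm
        rw [finsum_eq_sum_of_support_subset
          (s := (supp_mul (supp_zeros ((2 ^ m + 1 : ℕ) : L))).toFinset ∪ R)]
        · refine Finset.sum_le_sum_of_subset_of_nonneg Finset.subset_union_right fun v _ _ => ?_
          exact mul_nonneg (le_max_left _ _) (ell_pos v).le
        · rw [Finset.coe_union, Set.Finite.coe_toFinset]
          exact Set.subset_union_left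
      refine h2.trans ((zeros_le _).trans ((height_nat (n := 2 ^ m + 1)
        (Nat.succ_ne_zero _)).trans ?_))
      refine mul_le_mul_of_nonneg_left ?_ (Nat.cast_nonneg _)
      have h3 : Real.log ((2 ^ m + 1 : ℕ) : ℝ) ≤ Real.log ((2 : ℝ) ^ (m + 1)) := by
        refine Real.log_le_log (by positivity) ?_
        have h4 : 1 ≤ 2 ^ m := Nat.one_le_two_pow
        have h5 : 2 ^ m + 1 ≤ 2 ^ (m + 1) := by
          rw [pow_succ]
          omega
        exact_mod_cast h5
      rw [Real.log_pow] at h3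
      refine h3.trans (le_of_eq ?_)
      push_cast
      rfl
    obtain ⟨k, hk⟩ : ∃ k : ℝ, k = Module.finrank ℚ K := ⟨_, rfl⟩
    obtain ⟨p, hp⟩ : ∃ p : ℝ, p = Module.finrank K L := ⟨_, rfl⟩
    obtain ⟨q, hq⟩ : ∃ q : ℝ, q = Module.finrank L M := ⟨_, rfl⟩
    have hk1 : 1 ≤ k := by
      rw [hk]
      exact_mod_cast hK0
    have hp1 : 0 < p := by
      rw [hp]
      exact_mod_cast hKL0
    have hq1 : 0 < q := by
      rw [hq]
      exact_mod_cast hLM0
    have hKM : (Module.finrank K M : ℝ) = p * q := by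
      rw [hp, hq, ← hKL]
      push_cast
      rfl
    have hQM : (Module.finrank ℚ M : ℝ) = k * (p * q) := by
      rw [← hKM, hk]
      exact_mod_cast (Module.finrank_mul_finrank ℚ K M).symm
    have hQL : (Module.finrank ℚ L : ℝ) = k * p := by
      rw [hp, hk]
      exact_mod_cast (Module.finrank_mul_finrank ℚ K L).symm
    rw [← hq] at d1
    rw [hKM, ← hk] at hDM
    rw [hQM, d5, ← hq] at hht
    rw [hQL] at d6
    obtain ⟨h, hh⟩ : ∃ h : ℝ, h = logHeight Q := ⟨_, rfl⟩
    rw [← hh] at hht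
    have d8 : k * p * (n * (m * Real.log 2 - C)) ≤ h := by
      have h2 : q * (k * p * (n * (m * Real.log 2 - C))) ≤ q * h := by linarith
      exact le_of_mul_le_mul_left h2 hq1
    have d9 : DD L ≤ p * DD K + k * p * (m * Real.log 2 + C) := by
      have h1 : q * DD L ≤ q * (p * DD K + k * p * (m * Real.log 2 + C)) := by linarith
      exact le_of_mul_le_mul_left h1 hq1
    have d10 : p * T ≤ k * p * |T| := by
      have h1 := le_abs_self T
      have h2 := abs_nonneg T
      have h3 : p * T ≤ p * |T| := mul_le_mul_of_nonneg_left h1 hp1.le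
      have h4 : 1 * (p * |T|) ≤ k * (p * |T|) :=
        mul_le_mul_of_nonneg_right hk1 (mul_nonneg hp1.le h2)
      linarith
    have d11 : D < m * ((c * n - (1 + (n : ℝ) / 2 ^ E)) * Real.log 2) := by
      refine hN.trans_le (mul_le_mul_of_nonneg_right hNm' ?_)
      exact (mul_pos (by linarith) hl).le
    have hkp : 0 < k * p := mul_pos (lt_of_lt_of_le one_pos hk1) hp1
    have d12 := mul_lt_mul_of_pos_left d11 hkp
    have d13 := mul_le_mul_of_nonneg_left d8 hc0.le
    rw [hD] at d12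
    rw [← hp, ← hh]
    linarith

end Pool.Agent.H431.PN
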